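import Pool.Agent.Lib.MP_1a91b9_nuX.DB.TaH

/-!
# The action of `𝓞 K` on the points
-/

set_option autoImplicit false

namespace Pool.Agent.Lib.MP_1a91b9_nuX.DB

open NumberField IsDedekindDomain WeierstrassCurve Pool.Agent.Lib.MP_1a91b9_nuT S3

noncomputable section

variable [CD]

/-- uniqueness of the coordinates -/
theorem co_unique (m n m' n' : ℤ) (h : (m : 𝓞 K) + n * ta = m' + n' * ta) :
    m = m' ∧ n = n' := by
  have h1 := congrArg (fun x : 𝓞 K => embK (x : K)) h
  simp only [map_add, map_mul, map_intCast, embK_ta] at h1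
  have h2 : ((n : ℝ) - n') * zt.im = 0 := by
    have h3 := congrArg Complex.im h1
    simp at h3
    rcases h3 with h5 | h5
    · rw [h5]
      ring
    · exact absurd h5 zt_ne
  have h3 : (n : ℝ) - n' = 0 := (mul_eq_zero.1 h2).resolve_right zt_ne
  have hn : n = n' := by exact_mod_cast sub_eq_zero.1 h3
  refine ⟨?_, hn⟩
  rw [hn] at h1
  have h4 : (m : ℂ) = m' := by linear_combination h1
  exact_mod_cast h4

/-- the first coordinate of an element of `𝓞 K` -/
def co_m (a : 𝓞 K) : ℤ := (CD.gen a).choose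

/-- the second coordinate of an element of `𝓞 K` -/
def co_n (a : 𝓞 K) : ℤ := (CD.gen a).choose_spec.choose

theorem co_spec (a : 𝓞 K) : a = (co_m a : 𝓞 K) + co_n a * ta :=
  (CD.gen a).choose_spec.choose_spec

theorem co_eq (a : 𝓞 K) (m n : ℤ) (h : a = (m : 𝓞 K) + n * ta) : co_m a = m ∧ co_n a = n :=
  co_unique _ _ _ _ ((co_spec a).symm.trans h)

section
variable (F : Type*) [Field F] [Algebra K F] [DecidableEq F]

/-- the action of one element -/
def sm_fun (a : 𝓞 K) : AddMonoid.End (Pt F) :=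
  (co_m a • (AddMonoidHom.id (Pt F)) + co_n a • taH F : Pt F →+ Pt F)

private theorem sm_fun_apply (a : 𝓞 K) (P : Pt F) :
    sm_fun F a P = co_m a • P + co_n a • taH F P := rfl

private theorem sm_fun_coords (a : 𝓞 K) (m n : ℤ) (h : a = (m : 𝓞 K) + n * ta) (P : Pt F) :
    sm_fun F a P = m • P + n • taH F P := by
  obtain ⟨h1, h2⟩ := co_eq a m n h
  rw [sm_fun_apply, h1, h2]

private theorem sm_fun_one : sm_fun F 1 = 1 := by
  refine AddMonoidHom.ext fun P => ?_
  refine (sm_fun_coords F 1 1 0 (by push_cast; ring) P).trans ?_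
  rw [one_smul, zero_smul, add_zero]
  rfl

private theorem sm_fun_zero : sm_fun F 0 = 0 := by
  refine AddMonoidHom.ext fun P => ?_
  refine (sm_fun_coords F 0 0 0 (by push_cast; ring) P).trans ?_
  rw [zero_smul, zero_smul, add_zero]
  rfl

private theorem sm_fun_add (a b : 𝓞 K) : sm_fun F (a + b) = sm_fun F a + sm_fun F b := by
  refine AddMonoidHom.ext fun P => ?_
  have h : a + b = ((co_m a + co_m b : ℤ) : 𝓞 K) + ((co_n a + co_n b : ℤ) : 𝓞 K) * ta := by
    push_cast
    linear_combination co_spec a + co_spec b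
  refine (sm_fun_coords F (a + b) _ _ h P).trans ?_
  change _ = sm_fun F a P + sm_fun F b P
  rw [sm_fun_apply, sm_fun_apply, add_smul, add_smul]
  abel

private theorem sm_fun_mul (a b : 𝓞 K) : sm_fun F (a * b) = sm_fun F a * sm_fun F b := by
  refine AddMonoidHom.ext fun P => ?_
  have h : a * b = ((co_m a * co_m b - co_n a * co_n b * CD.nm : ℤ) : 𝓞 K) +
      ((co_m a * co_n b + co_n a * co_m b + co_n a * co_n b * CD.tr : ℤ) : 𝓞 K) * ta := by
    conv_lhs => rw [co_spec a, co_spec b]
    push_cast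
    linear_combination (co_n a : 𝓞 K) * co_n b * CD.quad
  refine (sm_fun_coords F (a * b) _ _ h P).trans ?_
  change _ = sm_fun F a (sm_fun F b P)
  rw [sm_fun_apply, sm_fun_apply, map_add, map_zsmul, map_zsmul]
  have hq : taH F (taH F P) = CD.tr • taH F P - CD.nm • P := taF_quad P
  rw [hq]
  module

/-- the action of `𝓞 K` on the points -/
def sm : 𝓞 K →+* AddMonoid.End (Pt F) where
  toFun := sm_fun F
  map_one' := sm_fun_one F
  map_mul' := sm_fun_mul F
  map_zero' := sm_fun_zero F
  map_add' := sm_fun_add F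

end

/-- the action in coordinates -/
theorem sm_coords {F : Type*} [Field F] [Algebra K F] [DecidableEq F] (a : 𝓞 K)
    (m n : ℤ) (h : a = (m : 𝓞 K) + n * ta) (P : Pt F) :
    sm F a P = m • P + n • taH F P := sm_fun_coords F a m n h P

section
variable {F F' : Type*} [Field F] [Algebra K F] [DecidableEq F] [Field F'] [Algebra K F']
  [DecidableEq F']

theorem sm_ta (P : Pt F) : sm F ta P = taH F P := by
  rw [sm_coords ta 0 1 (by push_cast; ring), zero_smul, one_smul, zero_add]

theorem sm_int (n : ℤ) (P : Pt F) : sm F (n : 𝓞 K) P = n • P := by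
  rw [sm_coords (n : 𝓞 K) n 0 (by push_cast; ring), zero_smul, add_zero]

theorem sm_nat (n : ℕ) (P : Pt F) : sm F (n : 𝓞 K) P = n • P := by
  have h := sm_int (F := F) (n : ℤ) P
  rw [natCast_zsmul] at h
  rw [← h, Int.cast_natCast]

theorem pm_sm (f : F →ₐ[K] F') (a : 𝓞 K) (P : Pt F) : pm f (sm F a P) = sm F' a (pm f P) := by
  obtain ⟨m, n, h⟩ := CD.gen a
  rw [sm_coords a m n h, sm_coords a m n h, map_add, map_zsmul, map_zsmul]
  have h1 : pm f (taH F P) = taH F' (pm f P) := pm_taF f P
  rw [h1]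

end

end

end Pool.Agent.Lib.MP_1a91b9_nuX.DB
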