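import Pool.Agent.Lib.MP_1a91b9_nuX.DB.Tor2

/-!
# The distribution relation of the function `x(X) - x(R)`
-/

set_option autoImplicit false

namespace Pool.Agent.Lib.MP_1a91b9_nuX.DB

open NumberField IsDedekindDomain WeierstrassCurve Pool.Agent.Lib.MP_1a91b9_nuT S3

variable [CD]

section DisA

open Filter Topology

private theorem distX_tend_mul {b : ℂ} (hb : b ≠ 0) :
    Tendsto (fun w : ℂ => b * w) (𝓝[≠] 0) (𝓝[≠] 0) := by
  refine tendsto_nhdsWithin_iff.2 ⟨?_, ?_⟩
  · have h1 : ContinuousAt (fun w : ℂ => b * w) 0 := by fun_prop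
    have h2 := h1.tendsto
    rw [mul_zero] at h2
    exact h2.mono_left nhdsWithin_le_nhds
  · filter_upwards [self_mem_nhdsWithin] with w hw
    exact mul_ne_zero hb hw

private theorem distX_diff {z : ℂ} (hz : z ∉ PP.lattice) : DifferentiableAt ℂ X z := by
  have h1 : DifferentiableAt ℂ (fun w => PP.weierstrassP w / Om ^ 2) z :=
    (hasDerivAt_P hz).differentiableAt.div_const _
  exact h1

private theorem distX_pole (c : ℂ) : Tendsto (fun w : ℂ => w ^ 2 * (X w - c)) (𝓝[≠] 0)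
    (𝓝 ((Om ^ 2)⁻¹)) := by
  have h0 : Tendsto (fun w : ℂ => w ^ 2) (𝓝[≠] 0) (𝓝 0) := by
    have h1 : ContinuousAt (fun w : ℂ => w ^ 2) 0 := by fun_prop
    have h2 := h1.tendsto
    rw [zero_pow (by norm_num)] at h2
    exact h2.mono_left nhdsWithin_le_nhds
  have hq : Tendsto (fun w : ℂ => Pr w) (𝓝[≠] 0) (𝓝 0) := by
    have h1 := tendsto_Pr (j := 0) (by norm_num)
    simpa using h1
  have h2 : Tendsto (fun w : ℂ => (1 + w ^ 2 * Pr w) / Om ^ 2 - w ^ 2 * c) (𝓝[≠] 0)
      (𝓝 ((1 + 0 * 0) / Om ^ 2 - 0 * c)) :=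
    ((tendsto_const_nhds.add (h0.mul hq)).div_const _).sub (h0.mul_const c)
  have e : (1 + 0 * 0) / Om ^ 2 - 0 * c = (Om ^ 2)⁻¹ := by ring
  rw [e] at h2
  refine h2.congr' ?_
  filter_upwards [self_mem_nhdsWithin] with w hw
  have hw' : w ≠ 0 := hw
  rw [X, P_eq]
  field_simp

private theorem distX_ratio {b : ℂ} (hb : b ≠ 0) (c c' : ℂ) :
    Tendsto (fun w : ℂ => (X (b * w) - c)⁻¹ * (X w - c')) (𝓝[≠] 0) (𝓝 (b ^ 2)) := by
  have hO := inv_ne_zero (pow_ne_zero 2 Om_ne_zero)
  have h1 := (((distX_pole c).comp (distX_tend_mul hb)).inv₀ hO).mul (distX_pole c')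
  have h2 := h1.const_mul (b ^ 2)
  rw [inv_mul_cancel₀ hO, mul_one] at h2
  refine h2.congr' ?_
  filter_upwards [self_mem_nhdsWithin] with w hw
  have hw' : w ≠ 0 := hw
  simp only [Function.comp_apply]
  rw [mul_inv, mul_pow]
  field_simp

private theorem distX_b_ne {β : 𝓞 K} (h : β ≠ 0) : embK (β : K) ≠ 0 := by
  intro h0
  have h1 : (β : K) = 0 := by
    apply embK.toRingHom.injective
    rw [map_zero]
    exact h0
  exact h (RingOfIntegers.ext h1)

private theorem distX_emb_sub (c d : 𝓞 K) : embK ((c - d : 𝓞 K) : K) =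
    embK (c : K) - embK (d : K) := by
  change embK (algebraMap (𝓞 K) K (c - d)) = _
  rw [map_sub, map_sub]

private theorem distX_emb_mul (c d : 𝓞 K) : embK ((c * d : 𝓞 K) : K) =
    embK (c : K) * embK (d : K) := by
  change embK (algebraMap (𝓞 K) K (c * d)) = _
  rw [map_mul, map_mul]

private theorem distX_emb_zero : embK ((0 : 𝓞 K) : K) = 0 := by
  change embK (algebraMap (𝓞 K) K 0) = _
  rw [map_zero, map_zero]

private theorem distX_dvd_iff {β : 𝓞 K} (h : β ≠ 0) (c : 𝓞 K) :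
    embK (c : K) / embK (β : K) ∈ PP.lattice ↔ β ∣ c := by
  have hb := distX_b_ne h
  rw [mem_PP_iff]
  constructor
  · rintro ⟨d, hd⟩
    refine ⟨d, ?_⟩
    apply RingOfIntegers.ext
    apply embK.toRingHom.injective
    change embK (c : K) = embK ((β * d : 𝓞 K) : K)
    rw [distX_emb_mul, hd]
    field_simp
  · rintro ⟨d, rfl⟩
    refine ⟨d, ?_⟩
    rw [distX_emb_mul]
    field_simp

/-- complete residue systems -/
private structure DistXFull (β : 𝓞 K) (T : Finset (𝓞 K)) : Prop where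
  ex : ∀ c : 𝓞 K, ∃ a ∈ T, β ∣ c - a
  uniq : ∀ a ∈ T, ∀ b ∈ T, β ∣ a - b → a = b

/-- the classes -/
private theorem distX_class {β : 𝓞 K} (h : β ≠ 0) {T : Finset (𝓞 K)} (hT : DistXFull β T)
    {s : ℂ} (hs : embK (β : K) * s ∈ PP.lattice) :
    ∃ a ∈ T, s + embK (a : K) / embK (β : K) ∈ PP.lattice := by
  obtain ⟨c, hc⟩ := mem_PP_iff.1 hs
  obtain ⟨k, hk, d, hd⟩ := hT.ex (0 - c)
  refine ⟨k, hk, ?_⟩
  have hb := distX_b_ne h
  have h1 : embK (((0 - c) - k : 𝓞 K) : K) = embK ((β * d : 𝓞 K) : K) := by rw [hd]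
  rw [distX_emb_sub, distX_emb_sub, distX_emb_mul, distX_emb_zero, hc] at h1
  have h5 : s + embK (k : K) / embK (β : K) = -embK (d : K) := by
    field_simp
    linear_combination -h1
  rw [h5]
  exact neg_mem (embK_mem d)

private theorem distX_uniq {β : 𝓞 K} (h : β ≠ 0) {T : Finset (𝓞 K)} (hT : DistXFull β T)
    {a a' : 𝓞 K} (ha : a ∈ T) (ha' : a' ∈ T)
    (hm : embK (a : K) / embK (β : K) - embK (a' : K) / embK (β : K) ∈ PP.lattice) : a = a' := by
  refine hT.uniq a ha a' ha' ?_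
  rw [← distX_dvd_iff h, distX_emb_sub, sub_div]
  exact hm

private noncomputable def distX_F (b r : ℂ) (T : Finset (𝓞 K)) (z : ℂ) : ℂ :=
  (X (b * z) - X (b * r))⁻¹ * ∏ a ∈ T, (X (z + embK (a : K) / b) - X r)

private theorem distX_fac {b r s : ℂ} {a : 𝓞 K} (h1 : s + embK (a : K) / b ∉ PP.lattice) :
    DifferentiableAt ℂ (fun z => X (z + embK (a : K) / b) - X r) s := by
  have h3 : DifferentiableAt ℂ X (s + embK (a : K) / b) := distX_diff h1
  exact (DifferentiableAt.comp (f := fun z : ℂ => z + embK (a : K) / b) s h3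
    (by fun_prop)).sub_const _

private theorem distX_limA [DecidableEq (𝓞 K)] {β : 𝓞 K} (h : β ≠ 0)
    {T : Finset (𝓞 K)} (hT : DistXFull β T) {r s : ℂ}
    (hs : embK (β : K) * s ∈ PP.lattice) {a0 : 𝓞 K}
    (ha0 : a0 ∈ T) (hsa : s + embK (a0 : K) / embK (β : K) ∈ PP.lattice) :
    Tendsto (distX_F (embK (β : K)) r T) (𝓝[≠] s) (𝓝 ((embK (β : K) ^ 2) *
      ∏ a ∈ T.erase a0, (X (s + embK (a : K) / embK (β : K)) - X r))) := by
  have hb := distX_b_ne h
  set b := embK (β : K) with hbdef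
  have hn1 : ∀ a ∈ T.erase a0, s + embK (a : K) / b ∉ PP.lattice := by
    intro a ha hm
    rw [Finset.mem_erase] at ha
    apply ha.1
    refine distX_uniq h hT ha.2 ha0 ?_
    have e1 := sub_mem hm hsa
    have e2 : s + embK (a : K) / b - (s + embK (a0 : K) / b) =
        embK (a : K) / b - embK (a0 : K) / b := by ring
    rwa [e2] at e1
  have h1 := (tendsto_translate (l := s) (distX_ratio hb (X (b * r)) (X r))).mul
    (tendsto_finsetProd (T.erase a0) (fun a ha =>
      ((distX_fac (r := r) (hn1 a ha)).continuousAt.tendsto.mono_left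
        (nhdsWithin_le_nhds (s := {s}ᶜ)))))
  refine h1.congr fun z => ?_
  have e1 : X (b * z) = X (b * (z - s)) := by
    have := X_add hs (b * (z - s))
    rw [← this]
    congr 1
    ring
  have e2 : X (z + embK (a0 : K) / b) = X (z - s) := by
    have := X_add hsa (z - s)
    rw [← this]
    congr 1
    ring
  rw [distX_F, ← Finset.mul_prod_erase _ _ ha0, e1, e2, mul_assoc]

private theorem distX_limB {β : 𝓞 K} (h : β ≠ 0)
    {T : Finset (𝓞 K)} (hT : DistXFull β T) {r s : ℂ}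
    (hr : 2 * (embK (β : K) * r) ∉ PP.lattice)
    (hs : embK (β : K) * s - embK (β : K) * r ∈ PP.lattice ∨
      embK (β : K) * s + embK (β : K) * r ∈ PP.lattice) :
    ∃ c, Tendsto (distX_F (embK (β : K)) r T) (𝓝[≠] s) (𝓝 c) := by
  have hb := distX_b_ne h
  have hbm := embK_mem β
  set b := embK (β : K) with hbdef
  -- a sign
  obtain ⟨e, he, hse⟩ : ∃ e : ℂ, (e = 1 ∨ e = -1) ∧ b * s - e * (b * r) ∈ PP.lattice := by
    rcases hs with hs | hs
    · exact ⟨1, Or.inl rfl, by rw [one_mul]; exact hs⟩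
    · exact ⟨-1, Or.inr rfl, by rw [neg_one_mul, sub_neg_eq_add]; exact hs⟩
  have hXe : ∀ w : ℂ, X (e * w) = X w := by
    intro w
    rcases he with rfl | rfl
    · rw [one_mul]
    · rw [neg_one_mul, Ell.X_neg]
  have h2s : 2 * (b * s) ∉ PP.lattice := by
    intro hm
    apply hr
    have h1 := sub_mem hm (mul_mem (nat_mem 2) hse)
    have h2 : 2 * (b * s) - ((2 : ℕ) : ℂ) * (b * s - e * (b * r)) = e * (2 * (b * r)) := by
      push_cast
      ring
    rw [h2] at h1
    rcases he with rfl | rfl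
    · rwa [one_mul] at h1
    · rw [neg_one_mul] at h1
      simpa using neg_mem h1
  have hbs : b * s ∉ PP.lattice := by
    intro hm
    apply h2s
    have h1 := mul_mem (nat_mem 2) hm
    simpa using h1
  have hXs : X (b * s) = X (b * r) := by
    have h1 := X_add hse (e * (b * r))
    rw [hXe] at h1
    rw [← h1]
    congr 1
    ring
  have hlat : ∀ a : 𝓞 K, s + embK (a : K) / b ∉ PP.lattice := by
    intro a hm
    apply hbs
    have e2 := mul_mem hbm hm
    have e3 : b * (s + embK (a : K) / b) = b * s + embK (a : K) := by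
      field_simp
    rw [e3] at e2
    have e4 := sub_mem e2 (embK_mem a)
    rwa [add_sub_cancel_right] at e4
  -- the denominator
  set g : ℂ → ℂ := fun z => X (b * z) - X (b * r) with hg
  set p : ℂ → ℂ := fun z => ∏ a ∈ T, (X (z + embK (a : K) / b) - X r) with hp
  have hgs : g s = 0 := by
    rw [hg]
    simp only
    rw [hXs, sub_self]
  have hgd : HasDerivAt g (PP.derivWeierstrassP (b * s) / Om ^ 2 * b) s := by
    have h1 : HasDerivAt (fun z => PP.weierstrassP z / Om ^ 2)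
        (PP.derivWeierstrassP (b * s) / Om ^ 2) (b * s) := (hasDerivAt_P hbs).div_const _
    have h2 : HasDerivAt (fun z : ℂ => b * z) b s := by
      simpa using (hasDerivAt_id s).const_mul b
    have h3 := (HasDerivAt.comp s h1 h2).sub_const (X (b * r))
    exact h3
  have hg0 : PP.derivWeierstrassP (b * s) / Om ^ 2 * b ≠ 0 :=
    mul_ne_zero (div_ne_zero (Per.Q_ne h2s) (pow_ne_zero 2 Om_ne_zero)) hb
  -- the numerator
  have hpd : DifferentiableAt ℂ p s :=
    DifferentiableAt.fun_finsetProd fun a _ => distX_fac (hlat a)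
  have hps : p s = 0 := by
    have h1 : embK (β : K) * (s - e * r) ∈ PP.lattice := by
      have e1 : embK (β : K) * (s - e * r) = b * s - e * (b * r) := by
        rw [← hbdef]
        ring
      rw [e1]
      exact hse
    obtain ⟨a, ha, hsa⟩ := distX_class h hT h1
    rw [← hbdef] at hsa
    refine Finset.prod_eq_zero ha ?_
    have e2 := X_add hsa (e * r)
    have e3 : e * r + (s - e * r + embK (a : K) / b) = s + embK (a : K) / b := by ring
    rw [e3, hXe] at e2
    rw [e2, sub_self]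
  have hgl := hgd.tendsto_slope
  have hpl := hpd.hasDerivAt.tendsto_slope
  refine ⟨_, ((hgl.inv₀ hg0).mul hpl).congr' ?_⟩
  filter_upwards [self_mem_nhdsWithin] with z hz
  have hz' : z - s ≠ 0 := sub_ne_zero.2 hz
  rw [slope_def_field, slope_def_field, hgs, hps, sub_zero, sub_zero]
  change (g z / (z - s))⁻¹ * (p z / (z - s)) = (g z)⁻¹ * p z
  rw [inv_div, div_mul_div_comm, mul_comm (z - s) (p z), mul_div_mul_right _ _ hz', div_eq_mul_inv,
    mul_comm]

private theorem distX_fun [DecidableEq (𝓞 K)] {β : 𝓞 K} (h : β ≠ 0)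
    {T : Finset (𝓞 K)} (hT : DistXFull β T) (hT0 : (0 : 𝓞 K) ∈ T) {r z : ℂ}
    (hr : 2 * (embK (β : K) * r) ∉ PP.lattice)
    (hz : embK (β : K) * z ∉ PP.lattice)
    (h1 : embK (β : K) * z - embK (β : K) * r ∉ PP.lattice)
    (h2 : embK (β : K) * z + embK (β : K) * r ∉ PP.lattice) :
    ∏ a ∈ T, (X (z + embK (a : K) / embK (β : K)) - X r) =
      embK (β : K) ^ 2 * (∏ a ∈ T.erase 0, (X (embK (a : K) / embK (β : K)) - X r)) *
        (X (embK (β : K) * z) - X (embK (β : K) * r)) := by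
  have hb := distX_b_ne h
  have hbm := embK_mem β
  set b := embK (β : K) with hbdef
  have hbr : b * r ∉ PP.lattice := by
    intro hm
    apply hr
    have h1 := mul_mem (nat_mem 2) hm
    simpa using h1
  set S : Set ℂ := {z | b * z ∈ PP.lattice ∨ b * z - b * r ∈ PP.lattice ∨
    b * z + b * r ∈ PP.lattice} with hS
  have hSe : ∀ z, ∀ᶠ w in 𝓝[≠] z, w ∉ S := by
    intro z
    have h1 : Tendsto (fun w : ℂ => b * w) (𝓝[≠] z) (𝓝[≠] (b * z)) := by
      refine tendsto_nhdsWithin_iff.2 ⟨?_, ?_⟩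
      · have h2 : ContinuousAt (fun w : ℂ => b * w) z := by fun_prop
        exact h2.tendsto.mono_left nhdsWithin_le_nhds
      · filter_upwards [self_mem_nhdsWithin] with w hw h
        exact hw (mul_left_cancel₀ hb h)
    filter_upwards [eventually_mul_notMem hb z, h1.eventually
      (eventually_add_notMem (-(b * r)) (b * z)), h1.eventually
      (eventually_add_notMem (b * r) (b * z))] with w hw1 hw2 hw3 hw4
    rcases hw4 with h3 | h3 | h3
    · exact hw1 h3
    · exact hw2 (by rw [← sub_eq_add_neg]; exact h3)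
    · exact hw3 h3
  have hlat : ∀ w ∉ S, ∀ a : 𝓞 K, w + embK (a : K) / b ∉ PP.lattice := by
    intro w hw a hm
    apply hw
    left
    have e2 := mul_mem hbm hm
    have e3 : b * (w + embK (a : K) / b) = b * w + embK (a : K) := by
      field_simp
    rw [e3] at e2
    have e4 := sub_mem e2 (embK_mem a)
    rwa [add_sub_cancel_right] at e4
  have hne : ∀ w ∉ S, X (b * w) - X (b * r) ≠ 0 := by
    intro w hw
    have e1 : b * w ∉ PP.lattice := fun hm => hw (Or.inl hm)
    have e2 : b * w - b * r ∉ PP.lattice := fun hm => hw (Or.inr (Or.inl hm))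
    have e3 : b * w + b * r ∉ PP.lattice := fun hm => hw (Or.inr (Or.inr hm))
    exact sub_ne_zero.2 (add_generic e1 hbr e2 e3).1
  have hd : ∀ w ∉ S, DifferentiableAt ℂ (distX_F b r T) w := by
    intro w hw
    have h1 : DifferentiableAt ℂ (fun z => X (b * z) - X (b * r)) w := by
      have h2 : DifferentiableAt ℂ X (b * w) := distX_diff fun hm => hw (Or.inl hm)
      exact (DifferentiableAt.comp (f := fun z : ℂ => b * z) w h2 (by fun_prop)).sub_const _
    have h3 : DifferentiableAt ℂ (fun z => ∏ a ∈ T, (X (z + embK (a : K) / b) - X r)) w :=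
      DifferentiableAt.fun_finsetProd fun a _ => distX_fac (hlat w hw a)
    exact (h1.inv (hne w hw)).mul h3
  have hbd : ∀ s ∈ S, Tendsto (fun z => (z - s) * distX_F b r T z) (𝓝[≠] s) (𝓝 0) := by
    intro s hs
    rcases hs with hs | hs
    · obtain ⟨a0, ha0, hsa⟩ := distX_class h hT hs
      exact tendsto_mul_zero (distX_limA h hT hs ha0 hsa)
    · obtain ⟨c, hc⟩ := distX_limB h hT hr hs
      exact tendsto_mul_zero hc
  have hper : ∀ l ∈ PP.lattice, ∀ z, distX_F b r T (z + l) = distX_F b r T z := by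
    intro l hl z
    have hbl : b * l ∈ PP.lattice := mul_mem hbm hl
    rw [distX_F, distX_F, mul_add, X_add hbl]
    congr 1
    refine Finset.prod_congr rfl fun a _ => ?_
    have e1 : z + l + embK (a : K) / b = z + embK (a : K) / b + l := by ring
    rw [e1, X_add hl]
  have h0l : (0 : ℂ) ∈ PP.lattice := zero_mem _
  have ha := distX_limA h hT (r := r) (s := 0) (by rw [mul_zero]; exact h0l) hT0
    (by rw [distX_emb_zero, zero_div, add_zero]; exact h0l)
  have hzS : z ∉ S := by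
    rintro (h3 | h3 | h3)
    · exact hz h3
    · exact h1 h3
    · exact h2 h3
  have key := liouville_eq hSe hd hbd hper ha z hzS
  rw [← hbdef, distX_F, ← div_eq_inv_mul, div_eq_iff (hne z hzS)] at key
  rw [key]
  simp only [zero_add]

end DisA

theorem distx_fun {β : 𝓞 K} (hβ0 : β ≠ 0) {T : Finset (𝓞 K)} (hT : IsRes β T) {r z : ℂ}
    (hr : 2 * (embK (β : K) * r) ∉ PP.lattice)
    (hz : embK (β : K) * z ∉ PP.lattice)
    (h1 : embK (β : K) * z - embK (β : K) * r ∉ PP.lattice)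
    (h2 : embK (β : K) * z + embK (β : K) * r ∉ PP.lattice) :
    (X z - X r) * ∏ a ∈ T, (X (z + embK (a : K) / embK (β : K)) - X r) =
      embK (β : K) ^ 2 * (∏ a ∈ T, (X (embK (a : K) / embK (β : K)) - X r)) *
        (X (embK (β : K) * z) - X (embK (β : K) * r)) := by
  classical
  have h0T : (0 : 𝓞 K) ∉ T := fun h => hT.nz 0 h (dvd_zero β)
  have hF : DistXFull β (insert 0 T) := by
    refine ⟨fun c => ?_, fun a ha b hb hab => ?_⟩
    · by_cases hc : β ∣ c
      · exact ⟨0, Finset.mem_insert_self _ _, by rwa [sub_zero]⟩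
      · obtain ⟨a, ha, hca⟩ := hT.ex c hc
        exact ⟨a, Finset.mem_insert_of_mem ha, hca⟩
    · rcases Finset.mem_insert.1 ha with rfl | ha'
      · rcases Finset.mem_insert.1 hb with rfl | hb'
        · rfl
        · rw [zero_sub] at hab
          exact absurd (by simpa using hab) (hT.nz b hb')
      · rcases Finset.mem_insert.1 hb with rfl | hb'
        · rw [sub_zero] at hab
          exact absurd hab (hT.nz a ha')
        · exact hT.uniq a ha' b hb' hab
  have key := distX_fun hβ0 hF (Finset.mem_insert_self _ _) hr hz h1 h2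
  rw [Finset.prod_insert h0T, Finset.erase_insert h0T, distX_emb_zero, zero_div, add_zero] at key
  exact key

private theorem distX_perm {β c : 𝓞 K} (hc : ∀ d : 𝓞 K, β ∣ d * c → β ∣ d) {T : Finset (𝓞 K)}
    (hT : IsRes β T) {g : 𝓞 K → ℂ} (hg : ∀ a b : 𝓞 K, β ∣ a - b → g a = g b) :
    ∏ a ∈ T, g (a * c) = ∏ a ∈ T, g a := by
  classical
  have hex : ∀ a : 𝓞 K, ∃ b : 𝓞 K, a ∈ T → (b ∈ T ∧ β ∣ a * c - b) := by
    intro a
    by_cases ha : a ∈ T
    · obtain ⟨b, hb, hab⟩ := hT.ex (a * c) (fun hd => hT.nz a ha (hc a hd))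
      exact ⟨b, fun _ => ⟨hb, hab⟩⟩
    · exact ⟨0, fun h => absurd h ha⟩
  choose σ hσ using hex
  have hmaps : Set.MapsTo σ (T : Set (𝓞 K)) (T : Set (𝓞 K)) := fun a ha => (hσ a ha).1
  have hinj : Set.InjOn σ (T : Set (𝓞 K)) := by
    intro a ha a' ha' hh
    have h1 := (hσ a ha).2
    have h2 := (hσ a' ha').2
    rw [← hh] at h2
    have h3 := dvd_sub h1 h2
    have h4 : a * c - σ a - (a' * c - σ a) = (a - a') * c := by ring
    rw [h4] at h3
    exact hT.uniq a ha a' ha' (hc _ h3)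
  have h5 : ∏ a ∈ T, g (a * c) = ∏ a ∈ T, g (σ a) :=
    Finset.prod_congr rfl fun a ha => hg _ _ (hσ a ha).2
  rw [h5]
  refine Finset.prod_nbij σ (fun a ha => hmaps ha) hinj ?_ (fun a _ => rfl)
  exact Finset.surjOn_of_injOn_of_card_le _ hmaps hinj le_rfl

private theorem distX_C [DecidableEq ℂ] {β : 𝓞 K} (hβ0 : β ≠ 0)
    {T : Finset (𝓞 K)} (hT : IsRes β T) {Rb P R : Pt ℂ} (hRb : Ord β Rb)
    (hP : sm ℂ β P ≠ 0) (hR : 2 • sm ℂ β R ≠ 0) (hne : xc (sm ℂ β P) ≠ xc (sm ℂ β R)) :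
    (xc P - xc R) * ∏ a ∈ T, (xc (P + sm ℂ a Rb) - xc R) =
      embK (β : K) ^ 2 * (∏ a ∈ T, (xc (sm ℂ a Rb) - xc R)) *
        (xc (sm ℂ β P) - xc (sm ℂ β R)) := by
  obtain ⟨u, hus, hu0, hu1, hub⟩ := exists_uni
  have hb := distX_b_ne hβ0
  have hbm := embK_mem β
  obtain ⟨q, rfl⟩ := hus Rb
  obtain ⟨z, rfl⟩ := hus P
  obtain ⟨r, rfl⟩ := hus R
  have hq : embK (β : K) * q ∈ PP.lattice := by
    rw [← hu0, hub]
    exact (hRb β).2 dvd_rfl
  obtain ⟨c, hc⟩ := mem_PP_iff.1 hq
  have hq' : q = embK (c : K) / embK (β : K) := by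
    rw [hc]
    field_simp
  have hdc : ∀ d : 𝓞 K, β ∣ d * c → β ∣ d := by
    intro d hd
    rw [← hRb d, ← hub, hu0, hq', ← mul_div_assoc, ← distX_emb_mul, distX_dvd_iff hβ0]
    exact hd
  have hsm : ∀ d : 𝓞 K, sm ℂ d (u q) = u (embK ((d * c : 𝓞 K) : K) / embK (β : K)) := by
    intro d
    rw [← hub, hq', ← mul_div_assoc, ← distX_emb_mul]
  have hper : ∀ a b : 𝓞 K, β ∣ a - b → u (embK (a : K) / embK (β : K)) =
      u (embK (b : K) / embK (β : K)) := by
    intro a b hab
    rw [← sub_eq_zero, ← map_sub, hu0, ← sub_div, ← distX_emb_sub, distX_dvd_iff hβ0]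
    exact hab
  rw [← hub] at hP hR hne
  rw [← hub] at hne
  rw [← hub, ← hub]
  have hz : embK (β : K) * z ∉ PP.lattice := fun hm => hP ((hu0 _).2 hm)
  have hr2 : 2 * (embK (β : K) * r) ∉ PP.lattice := by
    intro hm
    apply hR
    rw [← map_nsmul, hu0, nsmul_eq_mul]
    simpa using hm
  have hr : embK (β : K) * r ∉ PP.lattice := by
    intro hm
    apply hr2
    have h1 := mul_mem (nat_mem 2) hm
    simpa using h1
  have hX : X (embK (β : K) * z) ≠ X (embK (β : K) * r) := by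
    intro h
    apply hne
    rw [(hu1 _ hz).1, (hu1 _ hr).1, h]
  have h1 : embK (β : K) * z - embK (β : K) * r ∉ PP.lattice := by
    intro hm
    apply hX
    have h3 := X_add hm (embK (β : K) * r)
    rwa [add_sub_cancel] at h3
  have h2 : embK (β : K) * z + embK (β : K) * r ∉ PP.lattice := by
    intro hm
    apply hX
    have h3 := X_add hm (-(embK (β : K) * r))
    rw [Ell.X_neg] at h3
    rw [← h3]
    congr 1
    ring
  have hzl : z ∉ PP.lattice := fun hm => hz (mul_mem hbm hm)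
  have hrl : r ∉ PP.lattice := fun hm => hr (mul_mem hbm hm)
  have key := distx_fun hβ0 hT hr2 hz h1 h2
  have e1 : ∏ a ∈ T, (xc (sm ℂ a (u q)) - xc (u r)) =
      ∏ a ∈ T, (1 * (X (embK (a : K) / embK (β : K)) - X r)) := by
    rw [Finset.prod_congr rfl fun a _ => by rw [hsm a],
      distX_perm (g := fun a => xc (u (embK (a : K) / embK (β : K))) - xc (u r)) hdc hT
        (fun a b hab => by rw [hper a b hab])]
    refine Finset.prod_congr rfl fun a ha => ?_
    rw [(hu1 _ (fun hm => hT.nz a ha ((distX_dvd_iff hβ0 a).1 hm))).1, (hu1 _ hrl).1]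
    ring
  have e2 : ∏ a ∈ T, (xc (u z + sm ℂ a (u q)) - xc (u r)) =
      ∏ a ∈ T, (1 * (X (z + embK (a : K) / embK (β : K)) - X r)) := by
    rw [Finset.prod_congr rfl fun a _ => by rw [hsm a],
      distX_perm (g := fun a => xc (u z + u (embK (a : K) / embK (β : K))) - xc (u r)) hdc hT
        (fun a b hab => by rw [hper a b hab])]
    refine Finset.prod_congr rfl fun a ha => ?_
    rw [← map_add, (hu1 _ hrl).1]
    have h4 : z + embK (a : K) / embK (β : K) ∉ PP.lattice := by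
      intro hm
      apply hz
      have e2 := mul_mem hbm hm
      have e3 : embK (β : K) * (z + embK (a : K) / embK (β : K)) =
          embK (β : K) * z + embK (a : K) := by
        field_simp
      rw [e3] at e2
      have e4 := sub_mem e2 (embK_mem a)
      rwa [add_sub_cancel_right] at e4
    rw [(hu1 _ h4).1]
    ring
  rw [e1, e2, (hu1 _ hz).1, (hu1 _ hr).1, (hu1 _ hzl).1, (hu1 _ hrl).1]
  simp only [one_mul]
  exact key

theorem distx {F : Type*} [Field F] [Algebra K F] [DecidableEq F] (f : F →ₐ[K] ℂ) {β : 𝓞 K}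
    (hβ0 : β ≠ 0) {T : Finset (𝓞 K)} (hT : IsRes β T) {Rb : Pt F} (hRb : Ord β Rb)
    {P R : Pt F} (hP : sm F β P ≠ 0) (hR : 2 • sm F β R ≠ 0)
    (hne : xc (sm F β P) ≠ xc (sm F β R)) :
    (xc P - xc R) * ∏ a ∈ T, (xc (P + sm F a Rb) - xc R) =
      algebraMap K F (β : K) ^ 2 * (∏ a ∈ T, (xc (sm F a Rb) - xc R)) *
        (xc (sm F β P) - xc (sm F β R)) := by
  classical
  have hP' : sm ℂ β (pm f P) ≠ 0 := by
    rw [← pm_sm]
    intro h0
    rw [← map_zero (pm f)] at h0
    exact hP (pm_inj f h0)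
  have hR' : 2 • sm ℂ β (pm f R) ≠ 0 := by
    rw [← pm_sm, ← map_nsmul]
    intro h0
    rw [← map_zero (pm f)] at h0
    exact hR (pm_inj f h0)
  have hne' : xc (sm ℂ β (pm f P)) ≠ xc (sm ℂ β (pm f R)) := by
    rw [← pm_sm, ← pm_sm, xc_pm, xc_pm]
    exact fun h => hne (f.toRingHom.injective h)
  have h1 := distX_C hβ0 hT ((Ord.map f).2 hRb) hP' hR' hne'
  apply f.toRingHom.injective
  change f _ = f _
  rw [map_mul, map_mul, map_mul, map_pow, AlgHom.commutes, algebraMap_eq, map_prod, map_prod, map_sub,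
    map_sub]
  have e1 : ∀ a : 𝓞 K, f (xc (sm F a Rb) - xc R) = xc (sm ℂ a (pm f Rb)) - xc (pm f R) := by
    intro a
    rw [map_sub, ← xc_pm, ← xc_pm, pm_sm]
  have e2 : ∀ a : 𝓞 K, f (xc (P + sm F a Rb) - xc R) =
      xc (pm f P + sm ℂ a (pm f Rb)) - xc (pm f R) := by
    intro a
    rw [map_sub, ← xc_pm, ← xc_pm, map_add, pm_sm]
  simp only [e1, e2]
  rw [← xc_pm, ← xc_pm, ← xc_pm, ← xc_pm, pm_sm, pm_sm]
  exact h1

end Pool.Agent.Lib.MP_1a91b9_nuX.DB
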