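import Pool.Agent.Lib.MP_1a91b9_nuX.DB.Om

/-!
# DB: the uniformisation `ℂ / (ℤ + ℤ zt) ≅ E(ℂ)` as a homomorphism of `𝓞 K`-modules
-/

set_option autoImplicit false

namespace Pool.Agent.Lib.MP_1a91b9_nuX.DB

open NumberField IsDedekindDomain WeierstrassCurve Pool.Agent.Lib.MP_1a91b9_nuT S3

variable [CD]

theorem exists_uni [DecidableEq ℂ] : ∃ u : ℂ →+ Pt ℂ, Function.Surjective u ∧
    (∀ z, u z = 0 ↔ z ∈ PP.lattice) ∧
    (∀ z, z ∉ PP.lattice → xc (u z) = X z ∧ yc (u z) = Y z / 2) ∧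
    ∀ (a : 𝓞 K) (z : ℂ), u (embK (a : K) * z) = sm ℂ a (u z) := by
  obtain ⟨u, h1, h2, h3⟩ := exists_uniA
  refine ⟨u, h1, h2, h3, fun a z => ?_⟩
  obtain ⟨m, n, h⟩ := CD.gen a
  have e : embK (a : K) * z = m • z + n • (zt * z) := by
    have h4 : embK (a : K) = m + n * zt := by
      rw [h]
      change embK (algebraMap (𝓞 K) K ((m : 𝓞 K) + n * ta)) = _
      rw [map_add, map_mul, map_intCast, map_intCast, map_add, map_mul, map_intCast, map_intCast]
      rfl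
    rw [h4, zsmul_eq_mul, zsmul_eq_mul]
    ring
  rw [e, map_add, map_zsmul, map_zsmul, sm_coords a m n h, uni_taF u h2 h3]
  rfl

end Pool.Agent.Lib.MP_1a91b9_nuX.DB
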