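import Pool.Agent.Lib.MP_1a91b9_nuX.DB.ValB

/-!
# The curve `y² = x³ + A x + B`: adding a point of the kernel of reduction

PROOF. Port of Pool/Agent/Lib/MP_1a91b9_ntX/DB/ValC.lean (on main; curve `y² = x³ + D`, read it).
`add_ker`. `P = (x, y)`, `v x, v y ≤ 1`, `R = (X, Y)`, `t = -X/Y`, `w = -1/Y`, `q = w/t`: `q = t^2 + A t^2 q^2 + B t^2 q^3` (divide `w = t^3 + A t w^2 + B w^3` by `t`), `v q = v t^2`, `X = 1/q`. Slope
`m = (y - Y)/(x - X)`: `m t (1 - x q) = -(1 + y t q)`. `x3 = m^2 - x - X`; `t^2 X = t^2/q = 1 - A t^2 q - B t^2 q^2`.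
With `e = 1 + A q^2 + B q^3` (`q = t^2 e`): `(1 - x q)^2 (x3 - x - 2 y t) = q * (2 y t (A q + B q^2 + 2 x - x^2 q) + y^2 q + (A + B q)(1 - x q)^2 + 3 x^2 e - 2 x^3 q e + 2 x q (A + B q)(1 - x q)^2)`
(multiply by `t^2` and use `t^2 X = 1 - A t^2 q - B t^2 q^2`, `q = t^2 e`). `v (1 - x q) = 1`. As in the old file `hE : v (.. * q) ≤ v q = v t^2`.
`y3 = -(m (x3 - x) + y)`: `t (1 - x q)(y3 - y) = (x3 - x - 2 y t)(1 + y t q) + 2 y t (y t + x) q` as before: `v (y3 - y) ≤ v t`. `P + R ≠ 0` and not in the kernel since `v x3 ≤ 1`.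
-/

set_option autoImplicit false

namespace Pool.Agent.Lib.MP_1a91b9_nuX.DB

open NumberField IsDedekindDomain WeierstrassCurve Pool.Agent.Lib.MP_1a91b9_nuT

variable [CD]

section
variable {F : Type*} [Field F] [Algebra K F] [DecidableEq F] {Γ : Type*}
  [LinearOrderedCommGroupWithZero Γ] (v : Valuation F Γ)

/-- adding a point of the kernel of reduction does not change the reduction -/
theorem add_ker {P R : Pt F} (hP : ¬ Ker v P) (hR : Ker v R) : ¬ Ker v (P + R) ∧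
    v (xc (P + R) - xc P - 2 * yc P * tc R) ≤ v (tc R) ^ 2 ∧
    v (yc (P + R) - yc P) ≤ v (tc R) := by
  obtain ⟨hne, hx, hy⟩ := not_ker v hP
  rcases eq_or_ne R 0 with rfl | hR0
  · rw [add_zero, tc_zero]
    refine ⟨hP, ?_, ?_⟩ <;> simp
  obtain ⟨hw1, hw2, hw3⟩ := ker_w v hR hR0
  obtain ⟨ht1, ht2, ht3, ht4⟩ := ker_tc v hR hR0
  have hxR : 1 < v (xc R) := hR.resolve_left hR0
  obtain ⟨eP, hPe⟩ := exists_mk hne
  obtain ⟨eR, hRe⟩ := exists_mk hR0
  have hxne : xc P ≠ xc R := by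
    intro h
    rw [h] at hx
    exact absurd hxR (not_lt.2 hx)
  obtain ⟨h', hadd⟩ := mk_add (xc P) (yc P) (xc R) (yc R) eP eR hxne
  rw [← hPe, ← hRe] at hadd
  rw [hadd, xc_mk, yc_mk]
  have hyR : yc R ≠ 0 := by
    intro h
    rw [h, map_zero, zero_mul] at ht4
    exact zero_ne_one ht4
  have hKer : ∀ {X Y : F} (h : Y ^ 2 = X ^ 3 + cA F * X + cB F), v X ≤ 1 → ¬ Ker v (mkPt X Y h) := by
    rintro X Y h hX (h0 | h0)
    · exact mk_ne_zero _ _ _ h0
    · rw [xc_mk] at h0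
      exact absurd h0 (not_lt.2 hX)
  obtain ⟨x, hxd⟩ : ∃ x, x = xc P := ⟨_, rfl⟩
  obtain ⟨y, hyd⟩ : ∃ y, y = yc P := ⟨_, rfl⟩
  obtain ⟨X, hXd⟩ : ∃ X, X = xc R := ⟨_, rfl⟩
  obtain ⟨Y, hYd⟩ : ∃ Y, Y = yc R := ⟨_, rfl⟩
  obtain ⟨t, htd⟩ : ∃ t, t = tc R := ⟨_, rfl⟩
  obtain ⟨m, hmd⟩ : ∃ m, m = (yc P - yc R) / (xc P - xc R) := ⟨_, rfl⟩
  obtain ⟨x3, hx3⟩ : ∃ x3, x3 = m ^ 2 - xc P - xc R := ⟨_, rfl⟩
  have hv3 : v x3 ≤ 1 ∧ v (x3 - xc P - 2 * yc P * tc R) ≤ v (tc R) ^ 2 ∧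
      v (-(m * (x3 - xc P) + yc P) - yc P) ≤ v (tc R) := by
    have hm : m * (x - X) = y - Y := by
      rw [hmd, hxd, hyd, hXd, hYd]
      exact div_mul_cancel₀ _ (sub_ne_zero.2 hxne)
    rw [← hxd, ← hXd] at hx3
    rw [← hxd] at hx
    rw [← hyd] at hy
    rw [← htd, ← hYd] at hw1 hw2
    rw [← htd, ← hYd, ← hXd] at hw3
    rw [← htd] at ht1 ht2
    rw [← hYd] at hyR
    rw [← hxd, ← hyd, ← htd]
    have ht0 : t ≠ 0 := fun h => ht2 (by rw [h, map_zero])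
    obtain ⟨w, hwd⟩ : ∃ w, w = -1 / Y := ⟨_, rfl⟩
    rw [← hwd] at hw1 hw2 hw3
    have hwY : w * Y = -1 := by
      rw [hwd]
      exact div_mul_cancel₀ _ hyR
    have hw0 : w ≠ 0 := by
      intro h
      rw [h, zero_mul] at hwY
      exact (neg_ne_zero.2 one_ne_zero) hwY.symm
    obtain ⟨q, hqd⟩ : ∃ q, q = w / t := ⟨_, rfl⟩
    have hwq : w = t * q := by
      rw [hqd, mul_div_cancel₀ _ ht0]
    have hq0 : q ≠ 0 := by
      rw [hqd]
      exact div_ne_zero hw0 ht0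
    have hvq : v q = v t ^ 2 := by
      have h1 : v t * v q = v t * v t ^ 2 := by
        rw [← map_mul, ← hwq, hw2, pow_succ' (v t) 2]
      exact mul_left_cancel₀ ht2 h1
    obtain ⟨A, hAd⟩ : ∃ A, A = cA F := ⟨_, rfl⟩
    obtain ⟨B, hBd⟩ : ∃ B, B = cB F := ⟨_, rfl⟩
    have hvA : v A ≤ 1 := by
      rw [hAd]
      exact v_cA_le v
    have hvB : v B ≤ 1 := by
      rw [hBd]
      exact v_cB_le v
    rw [← hAd, ← hBd] at hw1
    have hrel : q - t ^ 2 - A * t ^ 2 * q ^ 2 - B * t ^ 2 * q ^ 3 = 0 := by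
      have h1 : t * (q - t ^ 2 - A * t ^ 2 * q ^ 2 - B * t ^ 2 * q ^ 3) = 0 := by
        rw [hwq] at hw1
        linear_combination hw1
      exact (mul_eq_zero.1 h1).resolve_left ht0
    have hXq : X * q = 1 := by
      rw [hw3, hwq]
      field_simp
    have hYq : Y * (t * q) = -1 := by
      rw [← hwq, mul_comm]
      exact hwY
    have hXt : t ^ 2 * X = 1 - A * t ^ 2 * q - B * t ^ 2 * q ^ 2 := by
      linear_combination (1 - A * t ^ 2 * q - B * t ^ 2 * q ^ 2) * hXq - X * hrel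
    have H1 : m * t * (1 - x * q) + (1 + y * (t * q)) = 0 := by
      linear_combination (-(t * q)) * hm + (-(m * t)) * hXq + hYq
    have key : (x3 - x - 2 * y * t) * (1 - x * q) ^ 2
        = ((2 * x + 2 * y * t) * (A * q + B * q ^ 2 + (2 * x - x ^ 2 * q)) -
          x ^ 2 * (1 + A * q ^ 2 + B * q ^ 3) + y ^ 2 * q + (1 - x * q) ^ 2 * (A + B * q)) * q := by
      have h1 : t ^ 2 * ((x3 - x - 2 * y * t) * (1 - x * q) ^ 2)
        = t ^ 2 * (((2 * x + 2 * y * t) * (A * q + B * q ^ 2 + (2 * x - x ^ 2 * q)) -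
          x ^ 2 * (1 + A * q ^ 2 + B * q ^ 3) + y ^ 2 * q + (1 - x * q) ^ 2 * (A + B * q)) * q) := by
        rw [hx3]
        linear_combination (m * t * (1 - x * q) - (1 + y * (t * q))) * H1
          - (1 - x * q) ^ 2 * hXt + (2 * y * t + 2 * x - x ^ 2 * q) * hrel
      exact mul_left_cancel₀ (pow_ne_zero 2 ht0) h1
    -- valuations
    have ht2le : v t ^ 2 ≤ v t := by
      rw [pow_two]
      exact mul_le_of_le_one_right zero_le ht1.le
    have ht2lt : v t ^ 2 < 1 := lt_of_le_of_lt ht2le ht1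
    have hq1 : v q ≤ 1 := by rw [hvq]; exact ht2lt.le
    have hmul : ∀ {a b : F}, v a ≤ 1 → v b ≤ v t ^ 2 → v (a * b) ≤ v t ^ 2 := by
      intro a b ha hb
      rw [map_mul]
      calc v a * v b ≤ 1 * v t ^ 2 := mul_le_mul' ha hb
        _ = v t ^ 2 := one_mul _
    have hone : ∀ {a b : F}, v a ≤ 1 → v b ≤ 1 → v (a * b) ≤ 1 := by
      intro a b ha hb
      rw [map_mul]
      exact mul_le_one' ha hb
    have hadd2 : ∀ {a b : F}, v a ≤ v t ^ 2 → v b ≤ v t ^ 2 → v (a + b) ≤ v t ^ 2 :=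
      fun ha hb => (Valuation.map_add v _ _).trans (max_le ha hb)
    have ha1 : ∀ {a b : F}, v a ≤ 1 → v b ≤ 1 → v (a + b) ≤ 1 :=
      fun ha hb => (Valuation.map_add v _ _).trans (max_le ha hb)
    have hs1 : ∀ {a b : F}, v a ≤ 1 → v b ≤ 1 → v (a - b) ≤ 1 :=
      fun ha hb => (Valuation.map_sub v _ _).trans (max_le ha hb)
    have hp1 : ∀ {a : F} (n : ℕ), v a ≤ 1 → v (a ^ n) ≤ 1 := by
      intro a n ha
      rw [map_pow]
      exact pow_le_one₀ zero_le ha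
    have hnat : ∀ n : ℕ, v (n : F) ≤ 1 := fun n => v_nat_le v n
    have v2 : v (2 : F) ≤ 1 := by simpa using hnat 2
    have h2y : v (2 * y) ≤ 1 := hone v2 hy
    have hD : v (1 - x * q) = 1 := by
      have h1 : v (x * q) < v (1 : F) := by
        rw [map_one, map_mul, hvq]
        exact lt_of_le_of_lt (mul_le_of_le_one_left zero_le hx) ht2lt
      rw [Valuation.map_sub_eq_of_lt_left v h1, map_one]
    have hq2 : v q ≤ v t ^ 2 := hvq.le
    have v1 : v (1 : F) ≤ 1 := (map_one v).le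
    have hE : v (((2 * x + 2 * y * t) * (A * q + B * q ^ 2 + (2 * x - x ^ 2 * q)) -
          x ^ 2 * (1 + A * q ^ 2 + B * q ^ 3) + y ^ 2 * q + (1 - x * q) ^ 2 * (A + B * q)) * q) ≤
        v t ^ 2 := by
      refine hmul ?_ hq2
      refine ha1 (ha1 (hs1 (hone (ha1 ?_ ?_) (ha1 (ha1 ?_ ?_) ?_)) (hone ?_ (ha1 (ha1 ?_ ?_) ?_))) ?_)
        (hone ?_ (ha1 ?_ ?_))
      · exact hone v2 hx
      · exact hone h2y ht1.le
      · exact hone hvA hq1
      · exact hone hvB (hp1 2 hq1)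
      · exact hs1 (hone v2 hx) (hone (hp1 2 hx) hq1)
      · exact hp1 2 hx
      · exact v1
      · exact hone hvA (hp1 2 hq1)
      · exact hone hvB (hp1 3 hq1)
      · exact hone (hp1 2 hy) hq1
      · exact hp1 2 hD.le
      · exact hvA
      · exact hone hvB hq1
    have hδ : v (x3 - x - 2 * y * t) ≤ v t ^ 2 := by
      have h1 := hE
      rw [← key, map_mul, map_pow, hD, one_pow, mul_one] at h1
      exact h1
    refine ⟨?_, hδ, ?_⟩
    · have h1 : x3 = (x3 - x - 2 * y * t) + (x + 2 * y * t) := by ring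
      rw [h1]
      refine (Valuation.map_add v _ _).trans (max_le (hδ.trans ht2lt.le) ?_)
      exact (Valuation.map_add v _ _).trans (max_le hx (hone h2y ht1.le))
    · have h1 : t * (1 - x * q) * (-(m * (x3 - x) + y) - y)
          = (x3 - x - 2 * y * t) * (1 + y * (t * q))
            + 2 * y * t * (y * t + x) * q := by
        linear_combination (-(x3 - x)) * H1
      have h2 : v (t * (1 - x * q) * (-(m * (x3 - x) + y) - y)) ≤ v t ^ 2 := by
        rw [h1]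
        refine hadd2 ?_ ?_
        · rw [mul_comm]
          refine hmul ?_ hδ
          refine (Valuation.map_add v _ _).trans (max_le (by rw [map_one]) ?_)
          exact hone hy (hone ht1.le hq1)
        · refine hmul ?_ hq2
          refine hone (hone h2y ht1.le) ?_
          exact (Valuation.map_add v _ _).trans (max_le (hone hy ht1.le) hx)
      rw [map_mul, map_mul, hD, mul_one, pow_two] at h2
      exact le_of_mul_le_mul_left h2 (zero_lt_iff.2 ht2)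
  subst hx3
  subst hmd
  exact ⟨hKer _ hv3.1, hv3.2.1, hv3.2.2⟩

end

end Pool.Agent.Lib.MP_1a91b9_nuX.DB
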