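import Pool.Agent.Lib.MP_1a91b9_nuX.Base

/-!
# Finitely many elements of an extension of `K` lie in a subfield which embeds in `ℂ` over `K`

PROOF. `L = IntermediateField.adjoin K s`. Way 1: `L` is finitely generated over `K`; take a transcendence basis `B ⊆ s` of `L` over `K`
(`exists_isTranscendenceBasis_subset` or similar; `L` is algebraic over `K(B)`), `B` is finite. `ℂ` has an infinite transcendence
basis over `K` (`K` is countable: a number field; if a transcendence basis `ι` of `ℂ` over `K` were countable, `ℂ` would be countable: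
`IsAlgClosed.cardinal_le_max_transcendence_basis` in `Mathlib/FieldTheory/IsAlgClosed/Classification.lean`, `Cardinal.mk_complex`),
so there is an injection of `B` in it, a `K`-algebra homomorphism `K(B) → ℂ`, which extends to `L` (`IsAlgClosed.lift`).
Way 2: put `Ω = AlgebraicClosure (FractionRing (MvPolynomial ℝ L))`, `L` is countable (finitely generated field over a countable field,
or: `#L ≤ continuum` suffices), so `#Ω = continuum = #ℂ`, char 0: `IsAlgClosed.ringEquivOfCardinalEqOfCharZero` gives a ring
isomorphism `Ω ≃+* ℂ`, so a ring homomorphism `h : L →+* ℂ`. Its restriction to `K` is a ring homomorphism `K →+* ℂ`; it is `embK` or the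
conjugate of `embK` (`ta` goes to a root of `X ^ 2 - tr X + nm`, i.e. to `zt` or `conj zt`; `K` is generated by `ta` over `ℚ` since every element of `K`
is a quotient of elements of `𝓞 K`, `CD.gen`). If it is the conjugate compose `h` with the complex conjugation.
-/

set_option autoImplicit false

namespace Pool.Agent.Lib.MP_1a91b9_nuX.DB

open NumberField Pool.Agent.Lib.MP_1a91b9_nuT

variable [CD]

/-- finitely many elements lie in a subfield which embeds in `ℂ` over `K` -/
theorem exists_embC {F : Type*} [Field F] [Algebra K F] (s : Finset F) :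
    ∃ (L : IntermediateField K F) (_ : L →ₐ[K] ℂ), ∀ x ∈ s, x ∈ L := by
  classical
  obtain ⟨L, hLdef⟩ : ∃ L, L = IntermediateField.adjoin K (s : Set F) := ⟨_, rfl⟩
  have hsL : ∀ x ∈ s, x ∈ L := by
    intro x hx
    rw [hLdef]
    exact IntermediateField.subset_adjoin K _ (Finset.mem_coe.mpr hx)
  have hK : Countable K := (Module.finBasis ℚ K).equivFun.toEquiv.countable_iff.mpr inferInstance
  have hLc : Countable L := by
    have h1 := IntermediateField.lift_cardinalMk_adjoin_le K (s : Set F)
    rw [← hLdef] at h1
    have h2 : Cardinal.lift.{0} (Cardinal.mk L) ≤ Cardinal.aleph0 := by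
      refine h1.trans ?_
      refine max_le (max_le ?_ ?_) le_rfl
      · rw [Cardinal.lift_le_aleph0]
        exact Cardinal.mk_le_aleph0_iff.mpr hK
      · rw [Cardinal.lift_le_aleph0]
        exact Cardinal.mk_le_aleph0_iff.mpr inferInstance
    rw [Cardinal.lift_le_aleph0] at h2
    exact Cardinal.mk_le_aleph0_iff.mp h2
  obtain ⟨ι, x, hx⟩ := exists_isTranscendenceBasis' K L
  obtain ⟨κ, y, hy⟩ := exists_isTranscendenceBasis' K ℂ
  have hι : Countable ι := hx.1.injective.countable
  have hκ : Infinite κ := by
    by_contra hfin
    rw [not_infinite_iff_finite] at hfin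
    have h1 := IsAlgClosed.cardinal_le_max_transcendence_basis' y hy
    have h2 : Cardinal.mk ℂ ≤ Cardinal.aleph0 := by
      refine h1.trans ?_
      refine max_le (max_le ?_ ?_) le_rfl
      · exact Cardinal.mk_le_aleph0_iff.mpr hK
      · exact Cardinal.mk_le_aleph0_iff.mpr inferInstance
    rw [Cardinal.mk_complex] at h2
    exact absurd h2 (not_le.mpr Cardinal.aleph0_lt_continuum)
  obtain ⟨e1, he1⟩ := exists_injective_nat ι
  let e : ι → κ := fun i => Infinite.natEmbedding κ (e1 i)
  have he : Function.Injective e := (Infinite.natEmbedding κ).injective.comp he1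
  have hye : AlgebraicIndependent K (y ∘ e) := hy.1.comp e he
  let j0 : FractionRing (MvPolynomial ι K) →ₐ[K] ℂ :=
    IsFractionRing.liftAlgHom (algebraicIndependent_iff_injective_aeval.2 hye)
  let j1 : IntermediateField.adjoin K (Set.range x) →ₐ[K] ℂ :=
    j0.comp hx.1.aevalEquivField.symm.toAlgHom
  have halg : Algebra.IsAlgebraic (IntermediateField.adjoin K (Set.range x)) L :=
    hx.isAlgebraic_field
  let _ : Algebra (IntermediateField.adjoin K (Set.range x)) ℂ := j1.toRingHom.toAlgebra
  have : IsScalarTower K (IntermediateField.adjoin K (Set.range x)) ℂ :=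
    IsScalarTower.of_algebraMap_eq fun a => (j1.commutes a).symm
  let j2 : L →ₐ[IntermediateField.adjoin K (Set.range x)] ℂ := IsAlgClosed.lift
  exact ⟨L, j2.restrictScalars K, hsL⟩

end Pool.Agent.Lib.MP_1a91b9_nuX.DB
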