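import Pool.Agent.Lib.MP_1a91b9_nuX.DB.TaF
import Pool.Agent.Lib.MP_1a91b9_nuX.DB.EmbC

/-!
# The multiplication by `ta` is a homomorphism

PROOF. `taF_add`: `P`, `Q` in `Pt F`; `s` the finite set of the coordinates of `P`, `Q`, `L`, `g` from `exists_embC`; `P = pm ι P'`, `Q = pm ι Q'` with `ι : L →ₐ[K] F`
the inclusion (`L.val`), `P', Q' : Pt L` (`mkPt` with coordinates in `L`, `pm_mk`; `0 = pm ι 0`). Then `pm g (taF (P' + Q')) = taF (pm g P' + pm g Q') = ...`, so
`taF (P' + Q') = taF P' + taF Q'` by `pm_inj g`; apply `pm ι` and `pm_taF`. The same for `taF_quad`.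
-/

set_option autoImplicit false

namespace Pool.Agent.Lib.MP_1a91b9_nuX.DB

open NumberField Polynomial WeierstrassCurve Pool.Agent.Lib.MP_1a91b9_nuT S3

noncomputable section

variable [CD]

section
variable {F : Type*} [Field F] [Algebra K F] [DecidableEq F]

private theorem exists_pull (L : IntermediateField K F) [DecidableEq L] (P : Pt F)
    (hx : xc P ∈ L) (hy : yc P ∈ L) : ∃ P' : Pt L, pm L.val P' = P := by
  rcases cases_pt P with rfl | ⟨x, y, h, rfl⟩
  · exact ⟨0, map_zero _⟩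
  · have hx' : x ∈ L := hx
    have hy' : y ∈ L := hy
    have h' : (⟨y, hy'⟩ : L) ^ 2 = (⟨x, hx'⟩ : L) ^ 3 + cA L * (⟨x, hx'⟩ : L) + cB L := by
      apply L.val.toRingHom.injective
      have e1 : L.val.toRingHom (cA L) = cA F := map_intCast _ _
      have e2 : L.val.toRingHom (cB L) = cB F := map_intCast _ _
      rw [map_add, map_add, map_mul, map_pow, map_pow, e1, e2]
      exact h
    obtain ⟨h2, e⟩ := pm_mk L.val (⟨x, hx'⟩ : L) (⟨y, hy'⟩ : L) h'
    exact ⟨mkPt _ _ h', e⟩

theorem taF_add (P Q : Pt F) : taF (P + Q) = taF P + taF Q := by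
  classical
  obtain ⟨L, g, hL⟩ := exists_embC ({xc P, yc P, xc Q, yc Q} : Finset F)
  obtain ⟨P', hP⟩ := exists_pull L P (hL _ (by simp)) (hL _ (by simp))
  obtain ⟨Q', hQ⟩ := exists_pull L Q (hL _ (by simp)) (hL _ (by simp))
  have h1 : taF (P' + Q') = taF P' + taF Q' := by
    apply pm_inj g
    rw [pm_taF, map_add, map_add, pm_taF, pm_taF]
    exact taF_add_C _ _
  have h2 := congrArg (pm L.val) h1
  rw [pm_taF, map_add, map_add, pm_taF, pm_taF, hP, hQ] at h2
  exact h2

theorem taF_quad (P : Pt F) : taF (taF P) = CD.tr • taF P - CD.nm • P := by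
  classical
  obtain ⟨L, g, hL⟩ := exists_embC ({xc P, yc P} : Finset F)
  obtain ⟨P', hP⟩ := exists_pull L P (hL _ (by simp)) (hL _ (by simp))
  have h1 : taF (taF P') = CD.tr • taF P' - CD.nm • P' := by
    apply pm_inj g
    rw [pm_taF, pm_taF, map_sub, map_zsmul, map_zsmul, pm_taF]
    exact taF_quad_C _
  have h2 := congrArg (pm L.val) h1
  rw [pm_taF, pm_taF, map_sub, map_zsmul, map_zsmul, pm_taF, hP] at h2
  exact h2

end

/-- the multiplication by `ta` as a homomorphism -/
def taH (F : Type*) [Field F] [Algebra K F] [DecidableEq F] : Pt F →+ Pt F :=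
  AddMonoidHom.mk' taF taF_add

theorem taH_apply {F : Type*} [Field F] [Algebra K F] [DecidableEq F] (P : Pt F) :
    taH F P = taF P := rfl

end

end Pool.Agent.Lib.MP_1a91b9_nuX.DB
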