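import Pool.Agent.Lib.MP_1a91b9_nuX.DB.Vint
import Pool.Agent.Lib.MP_1a91b9_nuX.DB.TaH

/-!
# The kernel of reduction of `y² = x³ + A x + B` at a valuation, basic facts

PROOF. Port of Pool/Agent/Lib/MP_1a91b9_ntX/DB/ValA.lean (on main; the curve there is `y² = x³ + D`, `DD`, `dD F`), the same statements: replace `dD F` by
`cA F * x + cB F`, `v (cA F * x) ≤ v x < v x ^ 3` if `1 < v x`, `v (cB F) ≤ 1`.
`ker_w`: `t = -x/y`, `w = -1/y`: `w = t ^ 3 + A t w ^ 2 + B w ^ 3` (divide `y² = x³ + A x + B` by `-y³`).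
-/

set_option autoImplicit false

namespace Pool.Agent.Lib.MP_1a91b9_nuX.DB

open NumberField IsDedekindDomain WeierstrassCurve Pool.Agent.Lib.MP_1a91b9_nuT

variable [CD]

section
variable {F : Type*} [Field F] [Algebra K F] {Γ : Type*} [LinearOrderedCommGroupWithZero Γ]
  (v : Valuation F Γ)

/-- the valuations of the coordinates of a point of the kernel of reduction -/
theorem ker_val {x y : F} (h : y ^ 2 = x ^ 3 + cA F * x + cB F) (hx : 1 < v x) :
    1 < v y ∧ v y ^ 2 = v x ^ 3 := by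
  have hx3 : 1 < v x ^ 3 := one_lt_pow₀ hx (by norm_num)
  have hx1 : v x < v x ^ 3 := by
    have h0 := pow_lt_pow_right₀ hx (show 1 < 3 by norm_num)
    rwa [pow_one] at h0
  have hA : v (cA F * x) < v x ^ 3 := by
    rw [map_mul]
    exact (mul_le_of_le_one_left zero_le (v_cA_le v)).trans_lt hx1
  have hB : v (cB F) < v x ^ 3 := (v_cB_le v).trans_lt hx3
  have h3 : v (x ^ 3 + cA F * x) = v x ^ 3 := by
    rw [← map_pow v x]
    refine v.map_add_eq_of_lt_left ?_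
    rw [map_pow]
    exact hA
  have h2 : v (x ^ 3 + cA F * x + cB F) = v x ^ 3 := by
    rw [← h3]
    refine v.map_add_eq_of_lt_left ?_
    rw [h3]
    exact hB
  have h1 : v y ^ 2 = v x ^ 3 := by rw [← map_pow v y, h, h2]
  refine ⟨?_, h1⟩
  by_contra hc
  rw [not_lt] at hc
  have h4 : v y ^ 2 ≤ 1 := pow_le_one₀ zero_le hc
  rw [h1] at h4
  exact absurd hx3 (not_lt.mpr h4)

theorem ker_iff_y {P : Pt F} (hP : P ≠ 0) : 1 < v (xc P) ↔ 1 < v (yc P) := by
  obtain ⟨h, -⟩ := exists_mk hP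
  refine ⟨fun hx => (ker_val v h hx).1, fun hy => ?_⟩
  by_contra hc
  rw [not_lt] at hc
  have h5 : 1 < v (yc P) ^ 2 := one_lt_pow₀ hy (by norm_num)
  rw [← map_pow, h] at h5
  refine absurd h5 (not_lt.mpr ((v.map_add _ _).trans (max_le ?_ (v_cB_le v))))
  refine (v.map_add _ _).trans (max_le ?_ ?_)
  · rw [map_pow]
    exact pow_le_one₀ zero_le hc
  · rw [map_mul]
    exact mul_le_one' (v_cA_le v) hc

theorem not_ker {P : Pt F} (hP : ¬ Ker v P) : P ≠ 0 ∧ v (xc P) ≤ 1 ∧ v (yc P) ≤ 1 := by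
  have h0 : P ≠ 0 := fun h => hP (Or.inl h)
  have h1 : ¬ 1 < v (xc P) := fun h => hP (Or.inr h)
  have h2 : ¬ 1 < v (yc P) := fun h => h1 ((ker_iff_y v h0).mpr h)
  exact ⟨h0, not_lt.mp h1, not_lt.mp h2⟩

theorem ker_tc {P : Pt F} (h : Ker v P) (hP : P ≠ 0) : v (tc P) < 1 ∧ v (tc P) ≠ 0 ∧
    v (xc P) * v (tc P) ^ 2 = 1 ∧ v (yc P) * v (tc P) ^ 3 = 1 := by
  have hx : 1 < v (xc P) := h.resolve_left hP
  obtain ⟨he, -⟩ := exists_mk hP
  obtain ⟨hy, hxy⟩ := ker_val v he hx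
  have hx0 : v (xc P) ≠ 0 := (lt_trans zero_lt_one hx).ne'
  have hy0 : v (yc P) ≠ 0 := (lt_trans zero_lt_one hy).ne'
  have ht : v (tc P) = v (xc P) / v (yc P) := by
    unfold tc
    rw [map_div₀, v.map_neg]
  have h1 : v (xc P) * v (tc P) ^ 2 = 1 := by
    rw [ht, div_pow, hxy, mul_div_assoc', ← pow_succ', div_self (pow_ne_zero 3 hx0)]
  have h2 : v (yc P) * v (tc P) ^ 3 = 1 := by
    rw [ht, div_pow, ← hxy, mul_div_assoc', ← pow_succ', div_self (pow_ne_zero 3 hy0)]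
  have h3 : v (tc P) ≠ 0 := by
    rw [ht]
    exact div_ne_zero hx0 hy0
  refine ⟨?_, h3, h1, h2⟩
  by_contra hc
  rw [not_lt] at hc
  have h4 : 1 ≤ v (tc P) ^ 2 := one_le_pow₀ hc
  have h5 : 1 < v (xc P) * v (tc P) ^ 2 := lt_of_lt_of_le hx (le_mul_of_one_le_right zero_le h4)
  exact absurd h1 h5.ne'

theorem ker_tc_lt {P : Pt F} (h : Ker v P) : v (tc P) < 1 := by
  by_cases hP : P = 0
  · rw [hP, tc_zero, map_zero]
    exact zero_lt_one
  · exact (ker_tc v h hP).1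

theorem ker_tc_zero {P : Pt F} (h : Ker v P) (h0 : tc P = 0) : P = 0 := by
  by_contra hP
  have h1 := (ker_tc v h hP).2.1
  rw [h0, map_zero] at h1
  exact h1 rfl

/-- the second coordinate `w = - 1 / y` satisfies `w = t ^ 3 + A t w ^ 2 + B w ^ 3` -/
theorem ker_w {P : Pt F} (h : Ker v P) (hP : P ≠ 0) :
    -1 / yc P = tc P ^ 3 + cA F * tc P * (-1 / yc P) ^ 2 + cB F * (-1 / yc P) ^ 3 ∧
      v (-1 / yc P) = v (tc P) ^ 3 ∧ xc P = tc P / (-1 / yc P) := by
  have hx : 1 < v (xc P) := h.resolve_left hP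
  obtain ⟨he, -⟩ := exists_mk hP
  obtain ⟨hy, hxy⟩ := ker_val v he hx
  have hy0 : yc P ≠ 0 := by
    intro h0
    rw [h0, map_zero] at hy
    exact absurd hy (not_lt.mpr zero_le_one)
  obtain ⟨-, h3, h1, h2⟩ := ker_tc v h hP
  refine ⟨?_, ?_, ?_⟩
  · unfold tc
    field_simp
    linear_combination -he
  · rw [map_div₀, v.map_neg, map_one]
    exact (eq_one_div_of_mul_eq_one_right h2).symm
  · unfold tc
    field_simp

theorem ker_neg {P : Pt F} (h : Ker v P) : Ker v (-P) := by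
  rcases cases_pt P with rfl | ⟨x, y, he, rfl⟩
  · left
    exact Affine.Point.neg_zero
  · right
    rw [neg_mk, xc_mk]
    exact h.resolve_left (mk_ne_zero x y he)

theorem tc_neg (P : Pt F) : tc (-P) = -tc P := by
  rcases cases_pt P with rfl | ⟨x, y, he, rfl⟩
  · have h0 : -(0 : Pt F) = 0 := Affine.Point.neg_zero
    rw [h0, tc_zero, neg_zero]
  · rw [neg_mk]
    unfold tc
    rw [xc_mk, xc_mk, yc_mk, yc_mk, div_neg]

end

end Pool.Agent.Lib.MP_1a91b9_nuX.DB
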