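import Pool.Agent.Lib.MP_1a91b9_nuX.DB.KerG
import Pool.Agent.Lib.MP_1a91b9_nuX.DB.ValA

/-!
# The kernel of reduction is stable under `ta`

PROOF. `P = (x, y)` in the kernel, `1 < v x`; `n = natDegree Nt ≥ 1`, `t = algebraMap K F ta ≠ 0`, `N, D, W` the values at `x` of `NF F, DF F, WF F` (`WF = NF' DF - NF DF'`).
Write `Nt = X^n + C (ta^3) N1`, `Dt = C (ta^2) X^(n-1) + C (ta^3) D1` (`CD.Nt_lo`, `CD.Dt_lo`), `N1 = 0` or `natDegree N1 + 1 ≤ n` (`Nt` is monic of degree `n`, `ta ≠ 0`), `D1 = 0` or `natDegree D1 + 2 ≤ n`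
(leading coefficient `ta^2`).
(1) `v N = v x ^ n`: `v (t^3 N1(x)) ≤ v N1(x) < v x^n` (`v_eval_le` with `k = 1`: `v N1(x) v x ≤ v x^n`).
(2) `v D = v t^2 v x^(n-1)`: `v (t^3 D1(x)) < v (t^2 x^(n-1))` (`v_eval_le`, `k = 2`: `v D1(x) v x^2 ≤ v x^n`). In particular `D ≠ 0` and `ta P = (N/D, y W/(t D^2))` (`taF_of_ne`).
(3) `v W = v t^2 v x^(2n-2)`: `W - t^2 x^(2n-2)` is a sum of `t^3` times products of values of integral polynomials with total degree `≤ 2n-3`; compute with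
`N' = n x^(n-1) + t^3 N1'`, `D' = (n-1) t^2 x^(n-2) + t^3 D1'` (multiply everything by `x` to avoid `n - 2` when `n = 1`), `v_eval_le` for `N1, N1', D1, D1'` (`natDegree_derivative_le`).
(4) `v (x') = v (N/D) = v x / v t^2 ≥ v x > 1`: `Ker v (taF P)`.
(5) `G = C (ta^2) Nt - X Dt = C (ta^2) G1` (`G_div`). `N D - x W = N' G - N G'` (differentiate `x D = t^2 N - G`: `D + x D' = t^2 N' - G'`, so `x W = N' (x D) - N (x D') =
N' (t^2 N - G) - N (t^2 N' - G' - D)`). So `v (N D - x W) v x^3 ≤ v t^2 v x^(2n)`.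
(6) `tc P = -x/y`, `tc (ta P) = -(N/D) t D^2/(y W) = - t N D/(y W)`, `tc (ta P) - t tc P = -(t/y)(N D - x W)/W`, valuation `≤ v t v x^(2n-3)/(v y v x^(2n-2)) ≤ 1/(v y v x) = v (tc P)^5` (`ker_tc`), `≤ v (tc P)^4`.
-/

set_option autoImplicit false

namespace Pool.Agent.Lib.MP_1a91b9_nuX.DB

open NumberField IsDedekindDomain WeierstrassCurve Polynomial Pool.Agent.Lib.MP_1a91b9_nuT

section
variable {F : Type*} [Field F] {Γ : Type*} [LinearOrderedCommGroupWithZero Γ]
  (v : Valuation F Γ)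

private theorem kt_lt {a b c : Γ} (ha : 1 < a) (hc : c ≠ 0) (h : b * a ≤ c) : b < c := by
  by_contra hb
  push Not at hb
  have h1 : c * a ≤ c := (mul_le_mul' hb le_rfl).trans h
  have h2 : c < c * a := lt_mul_of_one_lt_right (zero_lt_iff.2 hc) ha
  exact absurd h1 (not_le.2 h2)

private theorem kt_one {a b c : Γ} (ha : 1 ≤ a) (h : b * a ≤ c) : b * 1 ≤ c :=
  (mul_le_mul' le_rfl ha).trans h

private theorem kt_add {b c : Γ} {z w : F} (h1 : v z * b ≤ c) (h2 : v w * b ≤ c) :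
    v (z + w) * b ≤ c := by
  rcases le_max_iff.1 (v.map_add z w) with h | h
  · exact (mul_le_mul' h le_rfl).trans h1
  · exact (mul_le_mul' h le_rfl).trans h2

private theorem kt_sub {b c : Γ} {z w : F} (h1 : v z * b ≤ c) (h2 : v w * b ≤ c) :
    v (z - w) * b ≤ c := by
  rcases le_max_iff.1 (v.map_sub z w) with h | h
  · exact (mul_le_mul' h le_rfl).trans h1
  · exact (mul_le_mul' h le_rfl).trans h2

private theorem kt_mul {b c b' c' : Γ} {z w : F} (h1 : v z * b ≤ c) (h2 : v w * b' ≤ c') :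
    v (z * w) * (b * b') ≤ c * c' := by
  rw [map_mul, mul_mul_mul_comm]
  exact mul_le_mul' h1 h2

private theorem kt_smul {b c : Γ} {k z : F} (hk : v k ≤ 1) (h : v z * b ≤ c) :
    v (k * z) * b ≤ c := by
  rw [map_mul, mul_assoc]
  exact (mul_le_of_le_one_left zero_le hk).trans h

private theorem kt_x {x z : F} {c : Γ} (j : ℕ) (h : v z * v x ^ (j + 1) ≤ c) :
    v (x * z) * v x ^ j ≤ c := by
  refine le_trans (le_of_eq ?_) h
  rw [map_mul, pow_succ']
  exact mul_assoc_comm_aux _ _ _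
where
  mul_assoc_comm_aux (a b c : Γ) : a * b * c = b * (a * c) := by
    rw [mul_comm a b, mul_assoc]

end

section
variable {R : Type*} [CommRing R] [IsDomain R]

private theorem kt_deg {p s q : R[X]} {c : R} (hc : c ≠ 0) (m : ℕ) (h : p = s + C c * q)
    (hd : ∀ d, m ≤ d → p.coeff d = s.coeff d) : q = 0 ∨ q.natDegree + 1 ≤ m := by
  by_contra hn
  push Not at hn
  obtain ⟨h0, h1⟩ := hn
  have h2 := hd q.natDegree (by omega)
  rw [h, coeff_add, coeff_C_mul] at h2
  have h3 : c * q.coeff q.natDegree = 0 := by linear_combination h2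
  rcases mul_eq_zero.1 h3 with h4 | h4
  · exact hc h4
  · exact h0 (leadingCoeff_eq_zero.1 h4)

omit [IsDomain R] in
private theorem kt_der {p : R[X]} {k m : ℕ} (h : p = 0 ∨ p.natDegree + k ≤ m) :
    derivative p = 0 ∨ (derivative p).natDegree + (k + 1) ≤ m := by
  rcases h with h | h
  · left
    rw [h, derivative_zero]
  · rcases Nat.eq_zero_or_pos p.natDegree with h0 | h0
    · left
      rw [eq_C_of_natDegree_eq_zero h0, derivative_C]
    · right
      have h1 := natDegree_derivative_le p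
      omega

end

variable [CD]

private theorem kt_N : ∃ N₁ : (𝓞 K)[X], (N₁ = 0 ∨ N₁.natDegree + 1 ≤ CD.Nt.natDegree) ∧
    CD.Nt = Polynomial.X ^ CD.Nt.natDegree + C (ta ^ 3) * N₁ := by
  obtain ⟨N₁, h⟩ := CD.Nt_lo
  refine ⟨N₁, kt_deg (pow_ne_zero 3 ta_ne) _ h ?_, h⟩
  intro d hd
  rw [coeff_X_pow]
  rcases eq_or_lt_of_le hd with h1 | h1
  · rw [if_pos h1.symm, ← h1]
    exact CD.Nt_monic
  · rw [if_neg (by omega)]
    exact coeff_eq_zero_of_natDegree_lt h1

private theorem kt_D : ∃ D₁ : (𝓞 K)[X], (D₁ = 0 ∨ D₁.natDegree + 2 ≤ CD.Nt.natDegree) ∧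
    CD.Dt = C (ta ^ 2) * Polynomial.X ^ CD.Dt.natDegree + C (ta ^ 3) * D₁ := by
  obtain ⟨D₁, h⟩ := CD.Dt_lo
  refine ⟨D₁, ?_, h⟩
  have h0 := CD.Dt_deg
  rcases kt_deg (pow_ne_zero 3 ta_ne) CD.Dt.natDegree h (by
    intro d hd
    rw [coeff_C_mul, coeff_X_pow]
    rcases eq_or_lt_of_le hd with h1 | h1
    · rw [if_pos h1.symm, ← h1, mul_one]
      exact CD.Dt_lead
    · rw [if_neg (by omega), mul_zero]
      exact coeff_eq_zero_of_natDegree_lt h1) with h1 | h1
  · exact Or.inl h1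
  · right
    omega

section
variable {F : Type*} [Field F] [Algebra K F] {Γ : Type*} [LinearOrderedCommGroupWithZero Γ]
  (v : Valuation F Γ)

private theorem kt_t : v (tF F) ≤ 1 := v_alg_le v ta

private theorem kt_t0 : v (tF F) ≠ 0 := v.ne_zero_iff.2 tF_ne

private theorem io_ta : io F (ta : 𝓞 K) = tF F := rfl

/-- everything about the values in terms of small quantities -/
private theorem kt_vals {x : F} (hx : 1 < v x) : ∃ N₁ N₁' D₁ D₁' : F,
    v N₁ * v x ^ 1 ≤ v x ^ CD.Nt.natDegree ∧ v N₁' * v x ^ 2 ≤ v x ^ CD.Nt.natDegree ∧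
    v D₁ * v x ^ 2 ≤ v x ^ CD.Nt.natDegree ∧ v D₁' * v x ^ 3 ≤ v x ^ CD.Nt.natDegree ∧
    (NF F).eval x = x ^ CD.Nt.natDegree + tF F ^ 3 * N₁ ∧
    x * (DF F).eval x = tF F ^ 2 * x ^ CD.Nt.natDegree + tF F ^ 3 * (x * D₁) ∧
    x * (derivative (NF F)).eval x =
      (CD.Nt.natDegree : F) * x ^ CD.Nt.natDegree + tF F ^ 3 * (x * N₁') ∧
    x ^ 2 * (derivative (DF F)).eval x =
      (CD.Dt.natDegree : F) * tF F ^ 2 * x ^ CD.Nt.natDegree + tF F ^ 3 * (x ^ 2 * D₁') := by
  obtain ⟨N₁, hN1, hN⟩ := kt_N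
  obtain ⟨D₁, hD1, hD⟩ := kt_D
  have h0 := CD.Dt_deg
  obtain ⟨n, hn⟩ : ∃ n, n = CD.Nt.natDegree := ⟨_, rfl⟩
  obtain ⟨m, hm⟩ : ∃ m, m = CD.Dt.natDegree := ⟨_, rfl⟩
  rw [← hn] at hN1 hN hD1 h0 ⊢
  rw [← hm] at hD h0 ⊢
  have key : ∀ (p : F) (j : ℕ), x * (p * (j * x ^ (j - 1))) = p * (j * x ^ j) := by
    intro p j
    rcases j with _ | j
    · simp
    · rw [Nat.add_sub_cancel, pow_succ]
      ring
  have i3 : io F ((ta : 𝓞 K) ^ 3) = tF F ^ 3 := by rw [map_pow, io_ta]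
  have i2 : io F ((ta : 𝓞 K) ^ 2) = tF F ^ 2 := by rw [map_pow, io_ta]
  have hNF : NF F = Polynomial.X ^ n + C (tF F ^ 3) * N₁.map (io F) := by
    rw [NF, hN]
    simp only [Polynomial.map_add, Polynomial.map_pow, Polynomial.map_mul, Polynomial.map_X,
      Polynomial.map_C, i3]
  have hDF : DF F = C (tF F ^ 2) * Polynomial.X ^ m + C (tF F ^ 3) * D₁.map (io F) := by
    rw [DF, hD]
    simp only [Polynomial.map_add, Polynomial.map_pow, Polynomial.map_mul, Polynomial.map_X,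
      Polynomial.map_C, i3, i2]
  refine ⟨(N₁.map (io F)).eval x, ((derivative N₁).map (io F)).eval x, (D₁.map (io F)).eval x,
    ((derivative D₁).map (io F)).eval x, v_eval_le v hx.le N₁ hN1,
    v_eval_le v hx.le _ (kt_der hN1), v_eval_le v hx.le D₁ hD1,
    v_eval_le v hx.le _ (kt_der hD1), ?_, ?_, ?_, ?_⟩
  · rw [hNF]
    simp only [eval_add, eval_mul, eval_pow, eval_X, eval_C]
  · rw [hDF]
    simp only [eval_add, eval_mul, eval_pow, eval_X, eval_C]
    rw [← h0, pow_succ]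
    ring
  · rw [hNF]
    simp only [derivative_add, derivative_mul, derivative_C, derivative_X_pow,
      zero_mul, zero_add, eval_add, eval_mul, eval_pow, eval_X, eval_C, derivative_map]
    have h1 := key 1 n
    simp only [one_mul] at h1
    rw [mul_add, h1]
    ring
  · rw [hDF]
    simp only [derivative_add, derivative_mul, derivative_C, derivative_X_pow,
      zero_mul, zero_add, eval_add, eval_mul, eval_pow, eval_X, eval_C, derivative_map]
    have h1 := key (tF F ^ 2) m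
    rw [← h0, pow_succ x m]
    linear_combination x * h1

private theorem kt_tt {x z w : F} (hx : 1 < v x) (hw : v w ≠ 0) (h : v z * v x ≤ v w) :
    v (tF F ^ 3 * z) < v (tF F ^ 2 * w) := by
  have e : tF F ^ 3 * z = tF F ^ 2 * (tF F * z) := by ring
  have h1 : v (tF F * z) < v w := kt_lt hx hw (kt_smul v (kt_t v) h)
  rw [e, v.map_mul (tF F ^ 2) (tF F * z), v.map_mul (tF F ^ 2) w]
  refine mul_lt_mul_of_pos_left h1 (zero_lt_iff.2 ?_)
  rw [map_pow]
  exact pow_ne_zero 2 (kt_t0 v)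

/-- steps (1), (2) -/
theorem v_NF {x : F} (hx : 1 < v x) : v ((NF F).eval x) = v x ^ CD.Nt.natDegree ∧
    v ((DF F).eval x) * v x = v (tF F) ^ 2 * v x ^ CD.Nt.natDegree := by
  obtain ⟨N₁, N₁', D₁, D₁', h1, h2, h3, h4, e1, e2, e3, e4⟩ := kt_vals v hx
  have hA : v x ^ CD.Nt.natDegree ≠ 0 := pow_ne_zero _ (zero_lt_one.trans hx).ne'
  constructor
  · have h5 : v (tF F ^ 3 * N₁) < v (x ^ CD.Nt.natDegree) := by
      rw [map_pow v x]
      refine kt_lt hx hA ?_
      rw [pow_one] at h1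
      exact kt_smul v (by rw [map_pow]; exact pow_le_one' (kt_t v) 3) h1
    rw [e1, v.map_add_eq_of_lt_left h5, map_pow]
  · have h5 : v (tF F ^ 3 * (x * D₁)) < v (tF F ^ 2 * x ^ CD.Nt.natDegree) := by
      refine kt_tt v hx (by rw [map_pow]; exact hA) ?_
      have h6 := kt_x v 1 h3
      rwa [pow_one, ← map_pow] at h6
    rw [mul_comm, ← map_mul, e2, v.map_add_eq_of_lt_left h5, map_mul, map_pow, map_pow]

/-- step (3) -/
theorem v_WF {x : F} (hx : 1 < v x) : v ((WF F).eval x) * v x ^ 2 =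
    v (tF F) ^ 2 * v x ^ (2 * CD.Nt.natDegree) := by
  obtain ⟨N₁, N₁', D₁, D₁', h1, h2, h3, h4, e1, e2, e3, e4⟩ := kt_vals v hx
  have h0 := CD.Dt_deg
  have h0' : (CD.Dt.natDegree : F) + 1 = (CD.Nt.natDegree : F) := by
    rw [← h0, Nat.cast_add, Nat.cast_one]
  obtain ⟨n, hn⟩ : ∃ n, n = CD.Nt.natDegree := ⟨_, rfl⟩
  rw [← hn] at h1 h2 h3 h4 e1 e2 e3 e4 h0' ⊢
  have hA : v x ^ (2 * n) ≠ 0 := pow_ne_zero _ (zero_lt_one.trans hx).ne'
  have w0 : v (x ^ n) * v x ^ 0 ≤ v x ^ n := by rw [map_pow, pow_zero, mul_one]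
  have w1 := kt_x v 1 h3
  have w2 := kt_x v 1 h2
  have w3 := kt_x v 1 (kt_x v 2 h4)
  rw [← mul_assoc, ← pow_two] at w3
  have u1 : v (x * D₁) * v x ^ 0 ≤ v x ^ n := by
    rw [pow_zero]
    rw [pow_one] at w1
    exact kt_one hx.le w1
  have u2 : v N₁ * v x ^ 0 ≤ v x ^ n := by
    rw [pow_zero]
    rw [pow_one] at h1
    exact kt_one hx.le h1
  have ht1 : v (tF F) ≤ 1 := kt_t v
  have ht2 : v (tF F ^ 2) ≤ 1 := by rw [map_pow]; exact pow_le_one' ht1 2
  have ht3 : v (tF F ^ 3) ≤ 1 := by rw [map_pow]; exact pow_le_one' ht1 3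
  have hmt : v ((CD.Dt.natDegree : F) * tF F ^ 2) ≤ 1 := by
    rw [map_mul]
    exact mul_le_one' (v_nat_le v _) ht2
  obtain ⟨B, hB⟩ : ∃ B : F, B = (n : F) * (x ^ n * (x * D₁)) + tF F ^ 2 * (x ^ n * (x * N₁')) +
      tF F ^ 3 * ((x * D₁) * (x * N₁')) - x ^ n * (x ^ 2 * D₁') -
      ((CD.Dt.natDegree : F) * tF F ^ 2) * (x ^ n * N₁) - tF F ^ 3 * (N₁ * (x ^ 2 * D₁')) :=
    ⟨_, rfl⟩
  have hB1 : v B * (v x ^ 0 * v x ^ 1) ≤ v x ^ n * v x ^ n := by
    rw [hB]
    refine kt_sub v (kt_sub v (kt_sub v (kt_add v (kt_add v ?_ ?_) ?_) ?_) ?_) ?_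
    · exact kt_smul v (v_nat_le v n) (kt_mul v w0 w1)
    · exact kt_smul v ht2 (kt_mul v w0 w2)
    · exact kt_smul v ht3 (kt_mul v u1 w2)
    · exact kt_mul v w0 w3
    · exact kt_smul v hmt (kt_mul v w0 h1)
    · exact kt_smul v ht3 (kt_mul v u2 w3)
  rw [pow_zero, one_mul, pow_one, ← pow_add, ← two_mul] at hB1
  have h5 : v (tF F ^ 3 * B) < v (tF F ^ 2 * x ^ (2 * n)) := by
    refine kt_tt v hx (by rw [map_pow]; exact hA) ?_
    rw [map_pow]
    exact hB1
  have h6 : (WF F).eval x * x ^ 2 = tF F ^ 2 * x ^ (2 * n) + tF F ^ 3 * B := by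
    rw [WF, eval_sub, eval_mul, eval_mul, hB]
    have h7 : ((derivative (NF F)).eval x * (DF F).eval x -
        (NF F).eval x * (derivative (DF F)).eval x) * x ^ 2 =
        (x * (derivative (NF F)).eval x) * (x * (DF F).eval x) -
        (NF F).eval x * (x ^ 2 * (derivative (DF F)).eval x) := by ring
    rw [h7, e1, e2, e3, e4, ← h0', two_mul, pow_add]
    ring
  rw [← map_pow, ← map_mul, h6, v.map_add_eq_of_lt_left h5, map_mul, map_pow, map_pow]

private theorem kt_Dne {x : F} (hx : 1 < v x) : (DF F).eval x ≠ 0 := by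
  intro h
  have h1 := (v_NF v hx).2
  rw [h, map_zero, zero_mul] at h1
  exact (mul_ne_zero (pow_ne_zero 2 (kt_t0 v)) (pow_ne_zero _ (zero_lt_one.trans hx).ne')) h1.symm

theorem ker_taF {P : Pt F} (hP : Ker v P) : Ker v (taF P) := by
  rcases hP with rfl | hx
  · exact Or.inl taF_zero
  · rcases cases_pt P with rfl | ⟨x, y, h, rfl⟩
    · exact Or.inl taF_zero
    · right
      rw [xc_mk] at hx
      have hD := kt_Dne v hx
      rw [taF_of_ne h hD, xc_mk]
      obtain ⟨h1, h2⟩ := v_NF v hx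
      have hD0 : v ((DF F).eval x) ≠ 0 := v.ne_zero_iff.2 hD
      rw [map_div₀, one_lt_div₀ (zero_lt_iff.2 hD0), h1]
      refine kt_lt hx (pow_ne_zero _ (zero_lt_one.trans hx).ne') ?_
      rw [h2]
      exact mul_le_of_le_one_left zero_le (pow_le_one' (kt_t v) 2)

private theorem kt_G {x : F} (hx : 1 < v x) :
    v ((NF F).eval x * (DF F).eval x - x * (WF F).eval x) * v x ^ 3 ≤
      v (tF F) ^ 2 * v x ^ (2 * CD.Nt.natDegree) := by
  obtain ⟨G₁, hG, hG1⟩ := G_div
  have h0 := CD.Dt_deg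
  have w1 := v_eval_le v hx.le (derivative CD.Nt) (k := 1) (m := CD.Nt.natDegree)
    (kt_der (k := 0) (Or.inr le_rfl))
  have w2 := v_eval_le v hx.le G₁ hG1
  have w3 := v_eval_le v hx.le CD.Nt (k := 0) (m := CD.Nt.natDegree) (Or.inr le_rfl)
  have w4 := v_eval_le v hx.le (derivative G₁) (kt_der hG1)
  have hGF : C (tF F ^ 2) * NF F - Polynomial.X * DF F = C (tF F ^ 2) * G₁.map (io F) := by
    have h1 := congrArg (Polynomial.map (io F)) hG
    have i2 : io F ((ta : 𝓞 K) ^ 2) = tF F ^ 2 := by rw [map_pow, io_ta]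
    simp only [Polynomial.map_sub, Polynomial.map_mul, Polynomial.map_X, Polynomial.map_C,
      i2] at h1
    exact h1
  have hGd := congrArg derivative hGF
  simp only [derivative_sub, derivative_mul, derivative_C, derivative_X, zero_mul, zero_add,
    one_mul, derivative_map] at hGd
  have g1 := congrArg (Polynomial.eval x) hGF
  have g2 := congrArg (Polynomial.eval x) hGd
  simp only [eval_sub, eval_mul, eval_add, eval_C, eval_X] at g1 g2
  have key : (NF F).eval x * (DF F).eval x - x * (WF F).eval x =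
      tF F ^ 2 * ((derivative (NF F)).eval x * (G₁.map (io F)).eval x -
        (NF F).eval x * ((derivative G₁).map (io F)).eval x) := by
    rw [WF, eval_sub, eval_mul, eval_mul]
    linear_combination (derivative (NF F)).eval x * g1 - (NF F).eval x * g2
  have w5 := kt_mul v w1 w2
  have w6 := kt_mul v w3 w4
  rw [← pow_add, ← pow_add, ← two_mul] at w5 w6
  have w7 := kt_sub v w5 w6
  rw [key, map_mul, map_pow, mul_assoc]
  refine mul_le_mul' le_rfl ?_
  have e : (derivative (NF F)) = (derivative CD.Nt).map (io F) := by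
    rw [NF, derivative_map]
  rw [e]
  exact w7

theorem taF_t {P : Pt F} (hP : Ker v P) :
    v (tc (taF P) - tF F * tc P) ≤ v (tc P) ^ 4 := by
  by_cases hP0 : P = 0
  · rw [hP0, taF_zero, tc_zero, mul_zero, sub_zero, map_zero]
    exact zero_le
  · obtain ⟨k1, k2, k3, k4⟩ := ker_tc v hP hP0
    have hx := hP.resolve_left hP0
    rcases cases_pt P with h | ⟨x, y, h, rfl⟩
    · exact absurd h hP0
    · rw [xc_mk] at hx k3
      rw [yc_mk] at k4
      have hD := kt_Dne v hx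
      have hW := v_WF v hx
      have hG := kt_G v hx
      have hx0 : v x ≠ 0 := (zero_lt_one.trans hx).ne'
      have hxx : x ≠ 0 := v.ne_zero_iff.1 hx0
      have hy0 : v y ≠ 0 := by
        intro h'
        rw [h', zero_mul] at k4
        exact zero_ne_one k4
      have hyy : y ≠ 0 := v.ne_zero_iff.1 hy0
      have hW0 : v ((WF F).eval x) ≠ 0 := by
        intro h'
        rw [h', zero_mul] at hW
        exact (mul_ne_zero (pow_ne_zero 2 (kt_t0 v)) (pow_ne_zero _ hx0)) hW.symm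
      have hWW : (WF F).eval x ≠ 0 := v.ne_zero_iff.1 hW0
      have ht := tF_ne (F := F)
      obtain ⟨d, hd⟩ : ∃ d, d = tc (taF (mkPt x y h)) - tF F * tc (mkPt x y h) := ⟨_, rfl⟩
      have e1 : d * y * (WF F).eval x =
          -(tF F * ((NF F).eval x * (DF F).eval x - x * (WF F).eval x)) := by
        rw [hd, taF_of_ne h hD, tc, tc, xc_mk, yc_mk, xc_mk, yc_mk]
        field_simp
        ring
      rw [← hd]
      -- the estimate `v d * v y * v x ≤ 1`
      have e2 : v d * v y * v x ≤ 1 := by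
        have e3 : v d * v y * v x * (v ((WF F).eval x) * v x ^ 2) ≤
            1 * (v ((WF F).eval x) * v x ^ 2) := by
          have e4 : v d * v y * v x * (v ((WF F).eval x) * v x ^ 2) =
              v (d * y * (WF F).eval x) * v x ^ 3 := by
            rw [map_mul, map_mul, pow_succ' (v x) 2]
            exact mul_mul_mul_comm _ _ _ _
          rw [e4, e1, Valuation.map_neg, map_mul, mul_assoc, hW]
          exact mul_le_mul' (kt_t v) hG
        refine le_of_mul_le_mul_right e3 (zero_lt_iff.2 (mul_ne_zero hW0 (pow_ne_zero 2 hx0)))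
      obtain ⟨τ, hτ⟩ : ∃ τ, τ = v (tc (mkPt x y h)) := ⟨_, rfl⟩
      rw [← hτ] at k1 k2 k3 k4 ⊢
      have e5 : v d = v d * v y * v x * τ ^ 5 := by
        have e6 : v d * v y * v x * τ ^ 5 = v d * (v x * τ ^ 2) * (v y * τ ^ 3) := by
          rw [show (5 : ℕ) = 2 + 3 from rfl, pow_add]
          ac_rfl
        rw [e6, k3, k4, mul_one, mul_one]
      rw [e5]
      refine (mul_le_of_le_one_left zero_le e2).trans ?_
      rw [pow_succ τ 4]
      exact mul_le_of_le_one_right zero_le k1.le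

end

end Pool.Agent.Lib.MP_1a91b9_nuX.DB
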