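import Pool.Agent.Lib.MP_1a91b9_nuX.DB.ValC
import Pool.Agent.Lib.MP_1a91b9_nuX.DB.AddK
import Pool.Agent.Lib.MP_1a91b9_nuX.DB.KerT
import Pool.Agent.Lib.MP_1a91b9_nuX.DB.Om

/-!
# The local parameter of the multiples `sm a P`, torsion and the kernel

PROOF. Port of Pool/Agent/Lib/MP_1a91b9_ntX/DB/ValE.lean (on main). `a = m + n ta` (`CD.gen`, `sm_coords`), `sm a P = m • P + n • taF P`; `taF P` is in the kernel (`ker_taF`) and
`v (tc (taF P) - tF tc P) ≤ v (tc P) ^ 4` (`taF_t`), so `v (tc (taF P)) ≤ v (tc P)` (`v (tF F) ≤ 1`: `v_alg_le`). The rest word by word (with `tF F` in place of `omF F`).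
`ker_sm` from `ker_add`, `ker_zsmul`, `ker_taF`.
-/

set_option autoImplicit false

namespace Pool.Agent.Lib.MP_1a91b9_nuX.DB

open NumberField IsDedekindDomain WeierstrassCurve Pool.Agent.Lib.MP_1a91b9_nuT

variable [CD]

section
variable {F : Type*} [Field F] [Algebra K F] [DecidableEq F] {Γ : Type*}
  [LinearOrderedCommGroupWithZero Γ] (v : Valuation F Γ)

omit [DecidableEq F] in
private theorem ValE_coords (a : 𝓞 K) : ∃ m n : ℤ, a = (m : 𝓞 K) + n * ta ∧
    algebraMap K F (a : K) = m + n * tF F := by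
  obtain ⟨m, n, h⟩ := CD.gen a
  refine ⟨m, n, h, ?_⟩
  rw [h]
  simp only [map_add, map_mul, map_intCast]
  rfl

omit [DecidableEq F] in
private theorem ValE_tF_le : v (tF F) ≤ 1 := v_alg_le v ta

omit [CD] in
private theorem ValE_pow_le {a : Γ} (ha : a ≤ 1) : a ^ 4 ≤ a := by
  calc a ^ 4 ≤ a ^ 1 := pow_le_pow_right_of_le_one' ha (by norm_num)
    _ = a := pow_one a

private theorem ValE_nsmul {P : Pt F} (hP : Ker v P) (n : ℕ) : v (tc (n • P)) ≤ v (tc P) := by
  have h1 := (ker_nsmul v hP n).2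
  have h2 : tc (n • P) = (tc (n • P) - n * tc P) + n * tc P := by ring
  rw [h2]
  refine v.map_add_le (h1.trans (ValE_pow_le (ker_tc_lt v hP).le)) ?_
  rw [map_mul]
  exact mul_le_of_le_one_left zero_le (v_nat_le v n)

private theorem ValE_zsmul {P : Pt F} (hP : Ker v P) (n : ℤ) : Ker v (n • P) ∧
    v (tc (n • P) - n * tc P) ≤ v (tc P) ^ 4 ∧ v (tc (n • P)) ≤ v (tc P) := by
  have key : Ker v (n • P) ∧ v (tc (n • P) - n * tc P) ≤ v (tc P) ^ 4 := by
    obtain ⟨m, rfl | rfl⟩ := n.eq_nat_or_neg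
    · rw [natCast_zsmul, Int.cast_natCast]
      exact ker_nsmul v hP m
    · obtain ⟨h1, h2⟩ := ker_nsmul v hP m
      rw [neg_zsmul, natCast_zsmul, Int.cast_neg, Int.cast_natCast]
      refine ⟨ker_neg v h1, ?_⟩
      have h5 : tc (-(m • P)) - -(m : F) * tc P = -(tc (m • P) - m * tc P) := by
        rw [tc_neg]
        ring
      rw [h5, v.map_neg]
      exact h2
  refine ⟨key.1, key.2, ?_⟩
  have h2 : tc (n • P) = (tc (n • P) - n * tc P) + n * tc P := by ring
  rw [h2]
  refine v.map_add_le (key.2.trans (ValE_pow_le (ker_tc_lt v hP).le)) ?_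
  rw [map_mul]
  exact mul_le_of_le_one_left zero_le (v_int_le v n)

omit [DecidableEq F] in
private theorem ValE_taF_le {P : Pt F} (hP : Ker v P) : v (tc (taF P)) ≤ v (tc P) := by
  have h1 := taF_t v hP
  have h2 : tc (taF P) = (tc (taF P) - tF F * tc P) + tF F * tc P := by ring
  rw [h2]
  refine v.map_add_le (h1.trans (ValE_pow_le (ker_tc_lt v hP).le)) ?_
  rw [map_mul]
  exact mul_le_of_le_one_left zero_le (ValE_tF_le v)

private theorem ValE_sm (P : Pt F) (a : 𝓞 K) (m n : ℤ) (h : a = (m : 𝓞 K) + n * ta) :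
    sm F a P = m • P + n • taF P := sm_coords a m n h P

theorem ker_sm {P : Pt F} (hP : Ker v P) (a : 𝓞 K) : Ker v (sm F a P) := by
  obtain ⟨m, n, h1, -⟩ := ValE_coords (F := F) a
  rw [ValE_sm P a m n h1]
  exact (ker_add v (ker_zsmul v hP m) (ker_zsmul v (ker_taF v hP) n)).1

theorem ker_sm_t {P : Pt F} (hP : Ker v P) (a : 𝓞 K) :
    v (tc (sm F a P) - algebraMap K F (a : K) * tc P) ≤ v (tc P) ^ 4 := by
  obtain ⟨m, n, h1, h2⟩ := ValE_coords (F := F) a
  have e1 : sm F a P = m • P + n • taF P := ValE_sm P a m n h1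
  have hO : Ker v (taF P) := ker_taF v hP
  have hvO : v (tc (taF P)) ≤ v (tc P) := ValE_taF_le v hP
  obtain ⟨a1, a2, a3⟩ := ValE_zsmul v hP m
  obtain ⟨b1, b2, b3⟩ := ValE_zsmul v hO n
  have b2' := b2.trans (pow_le_pow_left' hvO 4)
  have b3' := b3.trans hvO
  have c1 := (ker_add v a1 b1).2
  have c2 : (max (v (tc (m • P))) (v (tc (n • taF P)))) ^ 4 ≤ v (tc P) ^ 4 :=
    pow_le_pow_left' (max_le a3 b3') 4
  have c3 : v ((n : F) * (tc (taF P) - tF F * tc P)) ≤ v (tc P) ^ 4 := by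
    rw [map_mul]
    exact (mul_le_of_le_one_left zero_le (v_int_le v n)).trans (taF_t v hP)
  have e2 : tc (sm F a P) - algebraMap K F (a : K) * tc P =
      (tc (m • P + n • taF P) - tc (m • P) - tc (n • taF P)) +
        ((tc (m • P) - m * tc P) + ((tc (n • taF P) - n * tc (taF P)) +
          (n : F) * (tc (taF P) - tF F * tc P))) := by
    rw [e1, h2]
    ring
  rw [e2]
  exact v.map_add_le (c1.trans c2) (v.map_add_le a2 (v.map_add_le b2' c3))

theorem ker_sm_le {P : Pt F} (hP : Ker v P) (a : 𝓞 K) : v (tc (sm F a P)) ≤ v (tc P) := by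
  have h1 := ker_sm_t v hP a
  have h2 : tc (sm F a P) = (tc (sm F a P) - algebraMap K F (a : K) * tc P) +
      algebraMap K F (a : K) * tc P := by ring
  rw [h2]
  refine v.map_add_le (h1.trans (ValE_pow_le (ker_tc_lt v hP).le)) ?_
  rw [map_mul]
  exact mul_le_of_le_one_left zero_le (v_alg_le v a)

theorem ker_torsO {P : Pt F} (hP : Ker v P) {a : 𝓞 K} (ha : v (algebraMap K F (a : K)) = 1)
    (h : sm F a P = 0) : P = 0 := by
  by_contra h0
  obtain ⟨h1, h2, -, -⟩ := ker_tc v hP h0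
  have h3 := ker_sm_t v hP a
  rw [h, tc_zero, zero_sub, v.map_neg, map_mul, ha, one_mul] at h3
  have h4 : v (tc P) ^ 4 < v (tc P) := by
    have h5 : v (tc P) ^ 3 < 1 := pow_lt_one₀ zero_le h1 (by norm_num)
    calc v (tc P) ^ 4 = v (tc P) * v (tc P) ^ 3 := pow_succ' _ _
      _ < v (tc P) * 1 := mul_lt_mul_of_pos_left h5 (zero_lt_iff.mpr h2)
      _ = v (tc P) := mul_one _
  exact absurd h3 (not_le.mpr h4)

theorem not_ker_torsO {P : Pt F} (hP0 : P ≠ 0) {a : 𝓞 K} (ha : v (algebraMap K F (a : K)) = 1)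
    (h : sm F a P = 0) : ¬ Ker v P := by
  exact fun hK => hP0 (ker_torsO v hK ha h)

private theorem ValE_mix {a b : 𝓞 K} (hab : IsCoprime a b) (ha : v (algebraMap K F (a : K)) = 1)
    {S Q : Pt F} (hS : sm F a S = 0) (hS0 : S ≠ 0) (hQ : sm F b Q = 0) : ¬ Ker v (S + Q) := by
  intro hK
  obtain ⟨x, y, hxy⟩ := hab
  have h1 : sm F b (S + Q) = sm F b S := by
    rw [map_add, hQ, add_zero]
  have h2 : Ker v (sm F b S) := by
    rw [← h1]
    exact ker_sm v hK b
  have h3 : sm F a (sm F b S) = 0 := by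
    have e1 : sm F a (sm F b S) = sm F (a * b) S := by
      rw [map_mul]
      rfl
    have e2 : sm F (b * a) S = sm F b (sm F a S) := by
      rw [map_mul]
      rfl
    rw [e1, mul_comm, e2, hS, map_zero]
  have h4 : sm F b S = 0 := ker_torsO v h2 ha h3
  apply hS0
  have e3 : sm F (x * a + y * b) S = sm F x (sm F a S) + sm F y (sm F b S) := by
    rw [map_add, map_mul, map_mul]
    rfl
  rw [hxy, hS, h4, map_zero, map_zero, add_zero, map_one] at e3
  exact e3

/-- the sum of two torsion points of coprime orders is in no kernel of reduction -/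
theorem not_ker_mixO {a b : 𝓞 K} (hab : IsCoprime a b) {S Q : Pt F} (hS : sm F a S = 0)
    (hS0 : S ≠ 0) (hQ : sm F b Q = 0) (hQ0 : Q ≠ 0) : ¬ Ker v (S + Q) := by
  rcases lt_or_eq_of_le (v_alg_le v a) with ha | ha
  · rcases lt_or_eq_of_le (v_alg_le v b) with hb | hb
    · exfalso
      obtain ⟨x, y, hxy⟩ := hab
      have h1 : algebraMap K F (x : K) * algebraMap K F (a : K) +
          algebraMap K F (y : K) * algebraMap K F (b : K) = 1 := by
        have h2 := congrArg (fun z : 𝓞 K => algebraMap K F (z : K)) hxy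
        have e1 : algebraMap K F ((x * a + y * b : 𝓞 K) : K) =
            algebraMap K F (x : K) * algebraMap K F (a : K) +
          algebraMap K F (y : K) * algebraMap K F (b : K) := by
          change algebraMap K F (algebraMap (𝓞 K) K (x * a + y * b)) = _
          rw [map_add, map_mul, map_mul, map_add, map_mul, map_mul]
        have e2 : algebraMap K F ((1 : 𝓞 K) : K) = 1 := by
          change algebraMap K F (algebraMap (𝓞 K) K 1) = _
          rw [map_one, map_one]
        rw [← e1, ← e2]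
        exact h2
      have h3 : v 1 < 1 := by
        rw [← h1]
        refine v.map_add_lt ?_ ?_
        · rw [map_mul]
          exact lt_of_le_of_lt (mul_le_of_le_one_left zero_le (v_alg_le v x)) ha
        · rw [map_mul]
          exact lt_of_le_of_lt (mul_le_of_le_one_left zero_le (v_alg_le v y)) hb
      rw [map_one] at h3
      exact lt_irrefl _ h3
    · rw [add_comm]
      exact ValE_mix v hab.symm hb hQ hQ0 hS
  · exact ValE_mix v hab ha hS hS0 hQ

theorem not_ker_mix {m n : ℕ} (h : m.Coprime n) {S Q : Pt F} (hS : m • S = 0) (hS0 : S ≠ 0)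
    (hQ : n • Q = 0) (hQ0 : Q ≠ 0) : ¬ Ker v (S + Q) := by
  have h1 : IsCoprime (m : 𝓞 K) (n : 𝓞 K) := Nat.Coprime.cast h
  refine not_ker_mixO v h1 ?_ hS0 ?_ hQ0
  · rw [sm_nat]
    exact hS
  · rw [sm_nat]
    exact hQ

end

end Pool.Agent.Lib.MP_1a91b9_nuX.DB
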