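import Pool.Agent.Lib.MP_1a91b9_nuX.DB.Gal
import Pool.Agent.Lib.MP_1a91b9_nuX.DB.ValE
import Pool.Agent.Lib.MP_1a91b9_nuX.DB.DistX
import Pool.Agent.Lib.MP_1a91b9_nuX.DB.Uni

/-!
# Torsion points over algebraically closed fields, the field generated by a torsion point
-/

set_option autoImplicit false

namespace Pool.Agent.Lib.MP_1a91b9_nuX.DB

open NumberField IsDedekindDomain WeierstrassCurve Pool.Agent.Lib.MP_1a91b9_nuT

variable [CD]

universe u

/-- a point with coordinates in a subfield -/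
private theorem ext_pull {F : Type*} [Field F] [Algebra K F] [DecidableEq F]
    (L : IntermediateField K F) [DecidableEq L] (P : Pt F)
    (hx : xc P ∈ L) (hy : yc P ∈ L) : ∃ P' : Pt L, pm L.val P' = P := by
  rcases cases_pt P with rfl | ⟨x, y, h, rfl⟩
  · exact ⟨0, map_zero _⟩
  · have hx' : x ∈ L := hx
    have hy' : y ∈ L := hy
    have h' : (⟨y, hy'⟩ : L) ^ 2 = (⟨x, hx'⟩ : L) ^ 3 + cA L * (⟨x, hx'⟩ : L) + cB L := by
      apply L.val.toRingHom.injective
      have e1 : L.val.toRingHom (cA L) = cA F := map_intCast _ _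
      have e2 : L.val.toRingHom (cB L) = cB F := map_intCast _ _
      rw [map_add, map_add, map_mul, map_pow, map_pow, e1, e2]
      exact h
    obtain ⟨h2, e⟩ := pm_mk L.val (⟨x, hx'⟩ : L) (⟨y, hy'⟩ : L) h'
    exact ⟨mkPt _ _ h', e⟩

private theorem ext_sm_mul {F : Type*} [Field F] [Algebra K F] [DecidableEq F] (a b : 𝓞 K)
    (R : Pt F) : sm F (a * b) R = sm F a (sm F b R) := by
  rw [map_mul]
  rfl

/-- a natural number greater than one does not divide `1` -/
private theorem ext_nat {ℓ : ℕ} (h : 2 ≤ ℓ) : ¬ ((ℓ : 𝓞 K) ∣ 1) := by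
  rintro ⟨a, ha⟩
  obtain ⟨m, n, rfl⟩ := CD.gen a
  have h1 : (((1 : ℤ) : 𝓞 K) + ((0 : ℤ) : 𝓞 K) * ta) =
      (((ℓ : ℤ) * m : ℤ) : 𝓞 K) + (((ℓ : ℤ) * n : ℤ) : 𝓞 K) * ta := by
    push_cast
    linear_combination ha
  obtain ⟨h2, -⟩ := co_unique _ _ _ _ h1
  have h3 : (ℓ : ℤ) ∣ 1 := ⟨m, h2⟩
  have h4 := Int.le_of_dvd one_pos h3
  omega

/-- a prime number which is coprime to a nonzero element -/
private theorem ext_prime {c : 𝓞 K} (hc : c ≠ 0) : ∃ ℓ : ℕ, 2 ≤ ℓ ∧ IsCoprime (ℓ : 𝓞 K) c := by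
  have hN : Ideal.absNorm (Ideal.span {c}) ≠ 0 := by
    rw [Ne, Ideal.absNorm_eq_zero_iff, Ideal.span_singleton_eq_bot]
    exact hc
  obtain ⟨ℓ, hℓ, hp⟩ := Nat.exists_infinite_primes (Ideal.absNorm (Ideal.span {c}) + 1)
  refine ⟨ℓ, hp.two_le, ?_⟩
  have h1 : ℓ.Coprime (Ideal.absNorm (Ideal.span {c})) := by
    rw [Nat.Prime.coprime_iff_not_dvd hp]
    intro hd
    have := Nat.le_of_dvd (Nat.pos_of_ne_zero hN) hd
    omega
  have h2 : IsCoprime (ℓ : 𝓞 K) ((Ideal.absNorm (Ideal.span {c}) : ℕ) : 𝓞 K) :=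
    Nat.Coprime.cast h1
  refine h2.of_isCoprime_of_dvd_right ?_
  rw [← Ideal.mem_span_singleton]
  exact Ideal.absNorm_mem _

/-- the coordinates of a point which is in no kernel of reduction are algebraic -/
private theorem ext_int [DecidableEq ℂ] [DecidableEq (algebraicClosure K ℂ)] {T : Pt ℂ}
    (h : ∀ A : ValuationSubring ℂ, ¬ Ker A.valuation T) :
    ∃ T' : Pt (algebraicClosure K ℂ), pm (algebraicClosure K ℂ).val T' = T := by
  have key : ∀ z : ℂ, (∀ A : ValuationSubring ℂ, A.valuation z ≤ 1) →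
      z ∈ algebraicClosure K ℂ := by
    intro z hz
    have h1 : IsIntegral ℤ z := mem_all_integral fun A =>
      (ValuationSubring.valuation_le_one_iff A z).1 (hz A)
    rw [mem_algebraicClosure_iff]
    have h2 : IsIntegral (𝓞 K) z := h1.tower_top
    have h3 : IsAlgebraic (𝓞 K) z := h2.isAlgebraic
    exact h3.extendScalars (FaithfulSMul.algebraMap_injective (𝓞 K) K)
  refine ext_pull _ T (key _ fun A => ?_) (key _ fun A => ?_)
  · exact (not_ker A.valuation (h A)).2.1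
  · exact (not_ker A.valuation (h A)).2.2

theorem alg_pt [DecidableEq ℂ] [DecidableEq (algebraicClosure K ℂ)] {γ : 𝓞 K} (hγ : γ ≠ 0)
    {R : Pt ℂ} (hR : sm ℂ γ R = 0) :
    ∃ R0 : Pt (algebraicClosure K ℂ), pm (algebraicClosure K ℂ).val R0 = R := by
  rcases eq_or_ne R 0 with rfl | hR0
  · exact ⟨0, map_zero _⟩
  have h2 : (2 : 𝓞 K) ≠ 0 := two_ne_zero
  have hc : 2 * γ ≠ 0 := mul_ne_zero h2 hγ
  obtain ⟨ℓ, hℓ, hcop⟩ := ext_prime hc
  have hℓ0 : (ℓ : 𝓞 K) ≠ 0 := Nat.cast_ne_zero.2 (by omega)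
  obtain ⟨S, hS⟩ := exists_ord_C hℓ0
  have hS1 : sm ℂ (ℓ : 𝓞 K) S = 0 := (hS _).2 dvd_rfl
  have hS0 : S ≠ 0 := by
    rintro rfl
    exact ext_nat hℓ ((hS 1).1 (map_zero _))
  obtain ⟨u, hs, -, -, -⟩ := exists_uni
  obtain ⟨z, rfl⟩ := hs R
  have hR' : u (z / 2) + u (z / 2) = u z := by
    rw [← map_add]
    congr 1
    ring
  have h3 : sm ℂ (2 * γ) (u (z / 2)) = 0 := by
    rw [mul_comm, ext_sm_mul]
    have e : sm ℂ (2 : 𝓞 K) (u (z / 2)) = u z := by
      have h4 : ((2 : ℕ) : 𝓞 K) = 2 := by norm_num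
      have h5 := sm_int (F := ℂ) ((2 : ℕ) : ℤ) (u (z / 2))
      rw [Int.cast_natCast, h4] at h5
      rw [h5, natCast_zsmul, two_nsmul, hR']
    rw [e, hR]
  have hR'0 : u (z / 2) ≠ 0 := by
    intro h
    rw [h, add_zero] at hR'
    exact hR0 hR'.symm
  have hT1 : ∀ A : ValuationSubring ℂ, ¬ Ker A.valuation (S + u (z / 2)) := fun A =>
    not_ker_mixO A.valuation hcop hS1 hS0 h3 hR'0
  have hT2 : ∀ A : ValuationSubring ℂ, ¬ Ker A.valuation (-S + u (z / 2)) := fun A =>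
    not_ker_mixO A.valuation hcop (by rw [map_neg, hS1, neg_zero]) (neg_ne_zero.2 hS0) h3 hR'0
  obtain ⟨T1, h5⟩ := ext_int hT1
  obtain ⟨T2, h6⟩ := ext_int hT2
  refine ⟨T1 + T2, ?_⟩
  rw [map_add, h5, h6, ← hR']
  abel

theorem ext_point (Ω : Type u) [Field Ω] [Algebra K Ω] [IsAlgClosed Ω] [DecidableEq Ω]
    {β : 𝓞 K} (hβ : β ≠ 0) : ∃ R : Pt Ω, Ord β R := by
  classical
  obtain ⟨R, hR⟩ := exists_ord_C hβ
  obtain ⟨R0, h0⟩ := alg_pt hβ ((hR β).2 dvd_rfl)
  rw [← h0] at hR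
  have h1 : Ord β R0 := (Ord.map _).1 hR
  have hA : Algebra.IsAlgebraic K (algebraicClosure K ℂ) := inferInstance
  let g : algebraicClosure K ℂ →ₐ[K] Ω := IsAlgClosed.lift
  exact ⟨pm g R0, (Ord.map g).2 h1⟩

theorem ext_div {Ω : Type u} [Field Ω] [Algebra K Ω] [IsAlgClosed Ω] [DecidableEq Ω]
    (f : Ω →ₐ[K] ℂ) {γ γ' : 𝓞 K} (hγ : γ ≠ 0) (hγ' : γ' ≠ 0) {Q : Pt Ω} (hQ : sm Ω γ Q = 0) :
    ∃ Q' : Pt Ω, sm Ω γ' Q' = Q ∧ sm Ω (γ * γ') Q' = 0 := by
  obtain ⟨R, hR⟩ := ext_point Ω (mul_ne_zero hγ hγ')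
  have h1 : Ord γ (sm Ω γ' R) := by
    intro c
    rw [← ext_sm_mul, hR]
    exact mul_dvd_mul_iff_right hγ'
  obtain ⟨c, hc⟩ := ord_cases f hγ h1 hQ
  refine ⟨sm Ω c R, ?_, ?_⟩
  · rw [← ext_sm_mul, mul_comm, ext_sm_mul, hc]
  · rw [← ext_sm_mul, mul_comm, ext_sm_mul, (hR _).2 dvd_rfl, map_zero]

private theorem exb_tower {k Ω : Type u} [Field k] [Algebra K k] [Field Ω] [Algebra K Ω]
    [Algebra k Ω] [IsScalarTower K k Ω] (L : IntermediateField k Ω) : IsScalarTower K L Ω :=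
  IsScalarTower.of_algebraMap_eq fun _ => rfl

/-- the subfield generated by the coordinates of a point -/
private theorem exb_mem {k Ω : Type u} [Field k] [Algebra K k] [Field Ω] [Algebra K Ω]
    [Algebra k Ω] [IsScalarTower K k Ω] [DecidableEq Ω] (L : IntermediateField k Ω)
    {R : Pt Ω} (hx : xc R ∈ L) (hy : yc R ∈ L) (c : 𝓞 K) :
    xc (sm Ω c R) ∈ L ∧ yc (sm Ω c R) ∈ L := by
  classical
  have hsc : IsScalarTower K L Ω := exb_tower L
  let f : L →ₐ[K] Ω := IsScalarTower.toAlgHom K L Ω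
  rcases cases_pt R with rfl | ⟨x, y, h, rfl⟩
  · rw [map_zero, xc_zero, yc_zero]
    exact ⟨L.zero_mem, L.zero_mem⟩
  · rw [xc_mk] at hx
    rw [yc_mk] at hy
    have h0 : (⟨y, hy⟩ : L) ^ 2 = (⟨x, hx⟩ : L) ^ 3 + cA L * (⟨x, hx⟩ : L) + cB L := Subtype.ext (by
      push_cast
      exact h)
    have e : pm f (mkPt (⟨x, hx⟩ : L) ⟨y, hy⟩ h0) = mkPt x y h := by
      obtain ⟨h', e'⟩ := pm_mk f (⟨x, hx⟩ : L) ⟨y, hy⟩ h0
      rw [e', mk_inj]
      exact ⟨rfl, rfl⟩
    rw [← e, ← pm_sm, xc_pm, yc_pm]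
    exact ⟨Subtype.property _, Subtype.property _⟩

/-- stability of the generated field under automorphisms over `k0` -/
private theorem exb_stable {k0 k Ω : Type u} [Field k0] [Algebra K k0] [Field k]
    [Algebra K k] [Algebra k0 k] [IsScalarTower K k0 k] [Normal k0 k] [Field Ω] [Algebra K Ω]
    [Algebra k Ω] [Algebra k0 Ω] [IsScalarTower K k Ω] [IsScalarTower K k0 Ω]
    [IsScalarTower k0 k Ω] [DecidableEq Ω] (g : Ω →ₐ[K] ℂ) {β : 𝓞 K} (hβ : β ≠ 0)
    {R : Pt Ω} (hR : Ord β R) (σ : Ω ≃ₐ[k0] Ω) {z : Ω}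
    (hz : z ∈ IntermediateField.adjoin k {xc R, yc R}) :
    σ z ∈ IntermediateField.adjoin k {xc R, yc R} := by
  have hxm : xc R ∈ IntermediateField.adjoin k {xc R, yc R} :=
    IntermediateField.subset_adjoin _ _ (by simp)
  have hym : yc R ∈ IntermediateField.adjoin k {xc R, yc R} :=
    IntermediateField.subset_adjoin _ _ (by simp)
  have hσR : sm Ω β (ga σ R) = 0 := ((Ord.ga σ hR) β).2 dvd_rfl
  obtain ⟨c, hc⟩ := ord_cases g hβ hR hσR
  have hm := exb_mem (IntermediateField.adjoin k {xc R, yc R}) hxm hym c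
  rw [← hc, xc_ga, yc_ga] at hm
  induction hz using IntermediateField.adjoin_induction with
  | mem z hz =>
    rcases hz with rfl | hz
    · exact hm.1
    · rw [Set.mem_singleton_iff] at hz
      rw [hz]
      exact hm.2
  | algebraMap x =>
    rw [← AlgEquiv.restrictNormal_commutes]
    exact IntermediateField.algebraMap_mem _ _
  | add x y hx hy h1 h2 => rw [map_add]; exact add_mem h1 h2
  | inv x hx h1 => rw [map_inv₀]; exact inv_mem h1
  | mul x y hx hy h1 h2 => rw [map_mul]; exact mul_mem h1 h2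

open scoped Classical in
/-- the field generated over `k` by a point with annihilator `(β)` -/
theorem exists_ext (k0 k : Type u) [Field k0] [NumberField k0] [Algebra K k0] [Field k]
    [NumberField k] [Algebra K k] [Algebra k0 k] [IsScalarTower K k0 k] [IsGalois k0 k]
    {β : 𝓞 K} (hβ : β ≠ 0) :
    ∃ (L : Type u) (_ : Field L) (_ : NumberField L) (_ : Algebra K L) (_ : Algebra k0 L)
      (_ : Algebra k L) (_ : IsScalarTower K k0 L) (_ : IsScalarTower K k L)
      (_ : IsScalarTower k0 k L), IsGalois k0 L ∧ IsGalois k L ∧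
      ∃ R : Pt L, Ord β R ∧ ∀ σ : Gal(L/k), ga σ R = R → σ = 1 := by
  have hKk : Algebra.IsAlgebraic K k := by
    have : FiniteDimensional K k := Module.Finite.of_restrictScalars_finite ℚ K k
    exact Algebra.IsAlgebraic.of_finite K k
  have hk0k : Algebra.IsAlgebraic k0 k := by
    have h1 : Normal k0 k := IsGalois.to_normal
    exact h1.toIsAlgebraic
  have hT : IsScalarTower K k0 (AlgebraicClosure k) := by
    refine IsScalarTower.of_algebraMap_eq fun x => ?_
    rw [IsScalarTower.algebraMap_apply K k (AlgebraicClosure k),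
      IsScalarTower.algebraMap_apply k0 k (AlgebraicClosure k),
      IsScalarTower.algebraMap_apply K k0 k]
  have hKΩ : Algebra.IsAlgebraic K (AlgebraicClosure k) := Algebra.IsAlgebraic.trans K k _
  have hk0Ω : Algebra.IsAlgebraic k0 (AlgebraicClosure k) := Algebra.IsAlgebraic.trans k0 k _
  have hC : IsAlgClosure k0 (AlgebraicClosure k) := ⟨inferInstance, hk0Ω⟩
  have hN : Normal k0 (AlgebraicClosure k) := IsAlgClosure.normal k0 _
  let g : AlgebraicClosure k →ₐ[K] ℂ := IsAlgClosed.lift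
  obtain ⟨R, hR⟩ := ext_point (AlgebraicClosure k) hβ
  rcases eq_or_ne R 0 with hRz | hR0
  · have h1 : β ∣ 1 := (hR 1).1 (by rw [hRz, map_zero])
    refine ⟨k, inferInstance, inferInstance, inferInstance, inferInstance, Algebra.id k,
      inferInstance, inferInstance, inferInstance, inferInstance, IsGalois.self k, 0, ?_, ?_⟩
    · intro c
      rw [map_zero]
      exact ⟨fun _ => h1.trans (one_dvd c), fun _ => rfl⟩
    · intro σ _
      ext x
      exact σ.commutes x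
  obtain ⟨hE, hRe⟩ := exists_mk hR0
  set L0 : IntermediateField k (AlgebraicClosure k) :=
    IntermediateField.adjoin k {xc R, yc R} with hL0
  have hxm : xc R ∈ L0 := IntermediateField.subset_adjoin _ _ (by simp)
  have hym : yc R ∈ L0 := IntermediateField.subset_adjoin _ _ (by simp)
  have hfin : FiniteDimensional k L0 := by
    refine IntermediateField.finiteDimensional_adjoin fun x _ => ?_
    exact (Algebra.IsAlgebraic.isAlgebraic (R := k) x).isIntegral
  have hNF : NumberField L0 := NumberField.of_module_finite k L0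
  have t1 : IsScalarTower K k L0 := by
    refine IsScalarTower.of_algebraMap_eq fun x => Subtype.ext ?_
    exact IsScalarTower.algebraMap_apply K k (AlgebraicClosure k) x
  have t2 : IsScalarTower k0 k L0 := by
    refine IsScalarTower.of_algebraMap_eq fun x => Subtype.ext ?_
    exact IsScalarTower.algebraMap_apply k0 k (AlgebraicClosure k) x
  have t3 : IsScalarTower K k0 L0 := by
    refine IsScalarTower.of_algebraMap_eq fun x => Subtype.ext ?_
    exact IsScalarTower.algebraMap_apply K k0 (AlgebraicClosure k) x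
  have t4 : IsScalarTower K L0 (AlgebraicClosure k) := exb_tower L0
  have hNL : Normal k0 (L0.restrictScalars k0) := by
    rw [IntermediateField.normal_iff_forall_map_le']
    intro σ z hz
    rw [IntermediateField.mem_map] at hz
    obtain ⟨w, hw, rfl⟩ := hz
    exact exb_stable g hβ hR σ hw
  have hNL' : Normal k0 L0 := hNL
  have hG0 : IsGalois k0 L0 := ⟨⟩
  have hG : IsGalois k L0 := IsGalois.tower_top_of_isGalois k0 k L0
  let dL : DecidableEq L0 := fun a b => Classical.propDecidable (a = b)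
  refine ⟨L0, L0.toField, hNF, L0.algebra', L0.algebra', L0.algebra', t3, t1, t2, hG0, hG,
    ?_⟩
  have h0 : (⟨yc R, hym⟩ : L0) ^ 2 = (⟨xc R, hxm⟩ : L0) ^ 3 + cA L0 * (⟨xc R, hxm⟩ : L0) + cB L0 := Subtype.ext (by
    push_cast
    exact hE)
  refine ⟨mkPt (⟨xc R, hxm⟩ : L0) ⟨yc R, hym⟩ h0, ?_, ?_⟩
  · rw [← Ord.map (IsScalarTower.toAlgHom K L0 (AlgebraicClosure k))]
    obtain ⟨h', e'⟩ := pm_mk (IsScalarTower.toAlgHom K L0 (AlgebraicClosure k))
      (⟨xc R, hxm⟩ : L0) ⟨yc R, hym⟩ h0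
    rw [e']
    have e2 : mkPt ((IsScalarTower.toAlgHom K L0 (AlgebraicClosure k)) ⟨xc R, hxm⟩)
      ((IsScalarTower.toAlgHom K L0 (AlgebraicClosure k)) ⟨yc R, hym⟩) h' = R := by
      refine (mk_inj.2 ⟨rfl, rfl⟩ : _ = mkPt (xc R) (yc R) hE).trans hRe.symm
    rw [e2]
    exact hR
  · intro σ hσ
    have hx := congrArg xc hσ
    have hy := congrArg yc hσ
    rw [xc_ga, xc_mk] at hx
    rw [yc_ga, yc_mk] at hy
    have key : (σ : L0 →ₐ[k] L0) = AlgHom.id k L0 := by
      refine IntermediateField.algHom_ext_of_eq_adjoin k hL0 ?_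
      intro z hz
      rcases hz with rfl | hz
      · exact hx
      · rw [Set.mem_singleton_iff] at hz
        subst hz
        exact hy
    ext z
    exact congrArg Subtype.val (DFunLike.congr_fun key z)

end Pool.Agent.Lib.MP_1a91b9_nuX.DB
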