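import Pool.Agent.Lib.MP_1a91b9_nuX.DB.FrobB
import Pool.Agent.Lib.MP_1a91b9_nuX.GL.AbsU
import Pool.Agent.Lib.MP_1a91b9_nuT.DB.Od
import Pool.Agent.Lib.MP_1a91b9_nuT.CF.Frob

/-!
# The Frobenius acts on the torsion points prime to the place as the Hecke character

`frob`: embed `N` in the algebraic closure `Ω` of `K`, extend the valuation of `w` to `Ω` (`exists_val_ext`), take a
Frobenius automorphism `φ` of `Ω` over `K` (`GL.exists_fr`); a power of `φ` acts on the residue field as `σ` on the one of `w`.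
-/

set_option autoImplicit false

namespace Pool.Agent.Lib.MP_1a91b9_nuX.DB

open NumberField IsDedekindDomain WeierstrassCurve Pool.Agent.Lib.MP_1a91b9_nuT
open Pool.Agent.Lib.MP_1a91b9_nuT.DB (exists_val_lt_of_int gpl gpl_mul gpl_one gpl_val)

universe u

variable [CD]

section
variable {k N : Type u} [Field k] [NumberField k] [Field N] [NumberField N] [Algebra k N]

/-- an automorphism which is a power map modulo `w` fixes `w` -/
theorem frb_gpl (w : HeightOneSpectrum (𝓞 N)) (σ : Gal(N/k)) {m : ℕ} (hm : 0 < m)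
    (hσ : ∀ x : 𝓞 N, σ • x - x ^ m ∈ w.asIdeal) : gpl σ w = w := by
  have hgp : gpl σ⁻¹ w = w := by
    apply HeightOneSpectrum.ext
    have hle : w.asIdeal ≤ (gpl σ⁻¹ w).asIdeal := by
      intro y hy
      change (σ⁻¹)⁻¹ • y ∈ w.asIdeal
      rw [inv_inv]
      have h1 := hσ y
      have h2 : y ^ m ∈ w.asIdeal := Ideal.pow_mem_of_mem _ hy _ hm
      have h3 := Ideal.add_mem _ h1 h2
      rwa [sub_add_cancel] at h3
    exact (w.isMaximal.eq_of_le (gpl σ⁻¹ w).isPrime.ne_top hle).symm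
  have h1 := gpl_mul σ σ⁻¹ w
  rw [mul_inv_cancel, gpl_one, hgp] at h1
  exact h1.symm

/-- the Frobenius on integral elements -/
theorem frb_le (w : HeightOneSpectrum (𝓞 N)) (σ : Gal(N/k)) {m : ℕ} (hm : 0 < m)
    (hσ : ∀ x : 𝓞 N, σ • x - x ^ m ∈ w.asIdeal) {a : N} (ha : w.valuation N a ≤ 1) :
    w.valuation N (σ a - a ^ m) < 1 := by
  obtain ⟨x, hx⟩ := exists_val_lt_of_int w ha 1
  have hx1 : w.valuation N (a - (x : N)) < 1 := by
    refine hx.trans_lt ?_
    rw [← WithZero.exp_zero, WithZero.exp_lt_exp]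
    norm_num
  have hxi : w.valuation N (x : N) ≤ 1 := w.valuation_le_one x
  have hvσ : ∀ y : N, w.valuation N (σ y) = w.valuation N y := by
    intro y
    have h1 := gpl_val σ w y
    rw [frb_gpl w σ hm hσ] at h1
    exact h1
  have hE : w.valuation N (σ (x : N) - (x : N) ^ m) < 1 := by
    have h1 := (w.valuation_lt_one_iff_mem (K := N) (σ • x - x ^ m)).2 (hσ x)
    exact h1
  have e : σ a - a ^ m = σ (a - (x : N)) + (σ (x : N) - (x : N) ^ m) -
      (a ^ m - (x : N) ^ m) := by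
    rw [map_sub]
    ring
  rw [e]
  refine Valuation.map_sub_lt _ (Valuation.map_add_lt _ ?_ hE) (frb_pow _ ha hxi hx1 m)
  rw [hvσ]
  exact hx1

end

section
variable {V : ValuationSubring (AlgebraicClosure K)}
  {φ : AlgebraicClosure K ≃ₐ[K] AlgebraicClosure K}

private theorem frc_fr {q : ℕ} (hφ : GL.IsFr V q φ) (f : ℕ) : GL.IsFr V (q ^ f) (φ ^ f) := by
  induction f with
  | zero =>
    intro x hx
    rw [pow_zero, pow_zero, pow_one, AlgEquiv.one_apply, sub_self, map_zero]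
    exact zero_lt_one
  | succ f ih =>
    intro x hx
    have h1 := ih x hx
    have h2 := hφ ((φ ^ f) x) (GL.fr_le ih hx)
    have h3 : V.valuation (x ^ q ^ f) ≤ 1 := by
      rw [map_pow]
      exact pow_le_one' hx _
    have h4 := frb_pow V.valuation (GL.fr_le ih hx) h3 h1 q
    rw [pow_succ' φ, AlgEquiv.mul_apply, pow_succ, pow_mul]
    have e : φ ((φ ^ f) x) - (x ^ q ^ f) ^ q = (φ ((φ ^ f) x) - ((φ ^ f) x) ^ q) +
        (((φ ^ f) x) ^ q - (x ^ q ^ f) ^ q) := by ring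
    rw [e]
    exact V.valuation.map_add_lt h2 h4

variable [HC] [DecidableEq (AlgebraicClosure K)] {P : HeightOneSpectrum (𝓞 K)}

private theorem frc_abs (hP : ((CD.bad : ℤ) : 𝓞 K) ∉ P.asIdeal) (hV : GL.Abv P V)
    (hφ : GL.IsFr V (Ideal.absNorm P.asIdeal) φ) {γ : 𝓞 K}
    (hγ : V.valuation (algebraMap K (AlgebraicClosure K) (γ : K)) = 1)
    {X : Pt (AlgebraicClosure K)} (hX : sm _ γ X = 0) (f : ℕ) :
    ga (φ ^ f) X = sm _ (ps P.asIdeal ^ f) X := by
  induction f with
  | zero =>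
    rw [pow_zero, pow_zero, ga_one, map_one]
    rfl
  | succ f ih =>
    rw [pow_succ' φ, ga_mul, ih, pow_succ', map_mul]
    refine frob_abs hP hV hφ hγ ?_
    change (sm (AlgebraicClosure K) γ * sm (AlgebraicClosure K) (ps P.asIdeal ^ f)) X = 0
    rw [← map_mul, mul_comm, map_mul]
    change sm (AlgebraicClosure K) (ps P.asIdeal ^ f) (sm (AlgebraicClosure K) γ X) = 0
    rw [hX, map_zero]

end

variable [HC]

section
variable {k N : Type u} [Field k] [NumberField k] [Algebra K k] [Field N] [NumberField N]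
  [Algebra K N] [Algebra k N] [IsScalarTower K k N] [DecidableEq N] [IsGalois k N]

omit [IsGalois k N] in
/-- the Frobenius at a place `w` prime to `bad` acts as `ψ` on the points killed by `γ` prime to
`w` -/
theorem frob (w : HeightOneSpectrum (𝓞 N)) (hb : w.valuation N (bD N) = 1) (σ : Gal(N/k))
    (hσ : ∀ x : 𝓞 N, σ • x - x ^ (Ideal.absNorm (w.under (𝓞 k)).asIdeal) ∈ w.asIdeal)
    {γ : 𝓞 K} (hγ : w.valuation N (algebraMap K N (γ : K)) = 1) {P : Pt N}
    (hP : sm N γ P = 0) : ga σ P = sm N (psi k (w.under (𝓞 k)).asIdeal) P := by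
  classical
  rcases eq_or_ne P 0 with rfl | hP0
  · rw [map_zero, map_zero]
  have hm0 : 0 < Ideal.absNorm (w.under (𝓞 k)).asIdeal := by
    rw [Nat.pos_iff_ne_zero, Ne, Ideal.absNorm_eq_zero_iff]
    exact (w.under (𝓞 k)).ne_bot
  have halg : Algebra.IsAlgebraic K N := Algebra.IsAlgebraic.tower_top (K := ℚ) K
  let g : N →ₐ[K] AlgebraicClosure K := IsAlgClosed.lift
  let _ : Algebra N (AlgebraicClosure K) := g.toRingHom.toAlgebra
  have hga : ∀ x : N, algebraMap N (AlgebraicClosure K) x = g x := fun x => rfl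
  obtain ⟨V, hVw⟩ := exists_val_ext (F' := AlgebraicClosure K) (w.valuation N)
  have hgK : ∀ x : K, algebraMap K (AlgebraicClosure K) x = g (algebraMap K N x) := fun x =>
    (g.commutes x).symm
  have hu : (w.under (𝓞 k)).under (𝓞 K) = w.under (𝓞 K) := by
    apply HeightOneSpectrum.ext
    exact Ideal.under_under w.asIdeal
  have htow : IsScalarTower K N (AlgebraicClosure K) := IsScalarTower.of_algebraMap_eq hgK
  have hV : GL.Abv (w.under (𝓞 K)) V := GL.abv_res (k := K) (M := N) hVw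
  have hbV : V.valuation (bD (AlgebraicClosure K)) = 1 := by
    have e : bD (AlgebraicClosure K) = algebraMap N (AlgebraicClosure K) (bD N) :=
      (map_intCast _ _).symm
    rw [e]
    exact (val_ext_eq (w.valuation N) V.valuation hVw _).2 hb
  have hPb : ((CD.bad : ℤ) : 𝓞 K) ∉ (w.under (𝓞 K)).asIdeal := by
    intro h
    have h1 : (w.under (𝓞 K)).valuation K (algebraMap (𝓞 K) K ((CD.bad : ℤ) : 𝓞 K)) < 1 :=
      ((w.under (𝓞 K)).valuation_lt_one_iff_mem (K := K) _).2 h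
    have h2 : (w.under (𝓞 K)).valuation K (bD K) = 1 := by
      rw [← GL.abv_eq hV]
      have e : algebraMap K (AlgebraicClosure K) (bD K) = bD (AlgebraicClosure K) :=
        map_intCast _ _
      rw [e]
      exact hbV
    rw [map_intCast] at h1
    exact absurd h2 h1.ne
  obtain ⟨φ, hφ⟩ := GL.exists_fr hV
  obtain ⟨f, hf⟩ : ∃ f, f = (w.under (𝓞 k)).asIdeal.inertiaDeg (𝓞 K) := ⟨_, rfl⟩
  have hN : Ideal.absNorm (w.under (𝓞 K)).asIdeal ^ f =
      Ideal.absNorm (w.under (𝓞 k)).asIdeal := by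
    have h1 : (w.under (𝓞 k)).asIdeal.LiesOver (w.under (𝓞 K)).asIdeal := by
      rw [← hu]
      exact ⟨rfl⟩
    have h0 : (w.under (𝓞 K)).asIdeal.IsMaximal := (w.under (𝓞 K)).isMaximal
    rw [hf]
    exact Ideal.absNorm_pow_inertiaDeg (w.under (𝓞 K)).asIdeal (w.under (𝓞 k)).asIdeal
  have hfr := frc_fr hφ f
  rw [hN] at hfr
  have hps : psi k (w.under (𝓞 k)).asIdeal = ps (w.under (𝓞 K)).asIdeal ^ f := by
    rw [psi_pow, hf, hu]
  have hγV : V.valuation (algebraMap K (AlgebraicClosure K) (γ : K)) = 1 := by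
    rw [hgK, ← hga]
    exact (val_ext_eq (w.valuation N) V.valuation hVw _).2 hγ
  have hX : sm (AlgebraicClosure K) γ (pm g P) = 0 := by
    rw [← pm_sm, hP, map_zero]
  have key := frc_abs hPb hV hφ hγV hX f
  rw [← hps, ← pm_sm] at key
  apply pm_inj g
  rw [← key]
  -- the two points have the same reduction
  have k1 : sm (AlgebraicClosure K) γ (pm g (ga σ P)) = 0 := by
    rw [← pm_sm, ← ga_sm, hP, map_zero, map_zero]
  have k2 : sm (AlgebraicClosure K) γ (ga (φ ^ f) (pm g P)) = 0 := by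
    rw [← ga_sm, hX, map_zero]
  have n0 : ¬ Ker (w.valuation N) P := not_ker_torsO (w.valuation N) hP0 hγ hP
  have n1 : ¬ Ker V.valuation (pm g (ga σ P)) := by
    refine not_ker_torsO V.valuation ?_ hγV k1
    intro h
    exact hP0 (pm_inj _ ((pm_inj g (h.trans (map_zero _).symm)).trans (map_zero _).symm))
  have n2 : ¬ Ker V.valuation (ga (φ ^ f) (pm g P)) := by
    refine not_ker_torsO V.valuation ?_ hγV k2
    intro h
    exact hP0 (pm_inj g ((pm_inj _ (h.trans (map_zero _).symm)).trans (map_zero _).symm))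
  have hc : ∀ z : N, w.valuation N z ≤ 1 → V.valuation (g (σ z) - (φ ^ f) (g z)) < 1 := by
    intro z hz
    have h1 : V.valuation (g (σ z - z ^ Ideal.absNorm (w.under (𝓞 k)).asIdeal)) < 1 := by
      rw [← hga]
      exact (val_ext_lt (w.valuation N) V.valuation hVw _).2 (frb_le w σ hm0 hσ hz)
    have h2 : V.valuation (g z) ≤ 1 := by
      rw [← hga]
      exact (hVw z).2 hz
    have h3 := hfr (g z) h2
    have e : g (σ z) - (φ ^ f) (g z) = g (σ z - z ^ Ideal.absNorm (w.under (𝓞 k)).asIdeal) -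
        ((φ ^ f) (g z) - g z ^ Ideal.absNorm (w.under (𝓞 k)).asIdeal) := by
      rw [map_sub, map_pow]
      ring
    rw [e]
    exact V.valuation.map_sub_lt h1 h3
  obtain ⟨-, xP, yP⟩ := not_ker (w.valuation N) n0
  have hk := red_inj V.valuation hbV n1 n2
    (by
      rw [xc_pm, xc_ga, xc_ga, xc_pm]
      exact hc _ xP)
    (by
      rw [yc_pm, yc_ga, yc_ga, yc_pm]
      exact hc _ yP)
  exact sub_eq_zero.1 (ker_torsO V.valuation hk hγV (by rw [map_sub, k1, k2, sub_zero]))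

omit [IsGalois k N] in
theorem frob_psi (w : HeightOneSpectrum (𝓞 N)) (hb : w.valuation N (bD N) = 1) (σ : Gal(N/k))
    (hσ : ∀ x : 𝓞 N, σ • x - x ^ (Ideal.absNorm (w.under (𝓞 k)).asIdeal) ∈ w.asIdeal)
    {n : ℕ} (hn : w.valuation N (n : N) = 1) {P : Pt N} (hP : n • P = 0) :
    ga σ P = sm N (psi k (w.under (𝓞 k)).asIdeal) P := by
  refine frob w hb σ hσ (γ := (n : 𝓞 K)) ?_ ?_
  · have e : (((n : 𝓞 K)) : K) = (n : K) := map_natCast (algebraMap (𝓞 K) K) n
    rw [e, map_natCast]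
    exact hn
  · rw [sm_nat]
    exact hP

omit [HC] [Algebra K k] [Algebra K N] [IsScalarTower K k N] [DecidableEq N] in
theorem exists_frobW (w : HeightOneSpectrum (𝓞 N)) : ∃ σ : Gal(N/k),
    (∀ x : 𝓞 N, σ • x - x ^ (Ideal.absNorm (w.under (𝓞 k)).asIdeal) ∈ w.asIdeal) ∧
    gpl σ w = w := by
  obtain ⟨σ, hσ⟩ := CF.exists_fr (k := k) w
  have hm0 : 0 < Ideal.absNorm (w.under (𝓞 k)).asIdeal := by
    rw [Nat.pos_iff_ne_zero, Ne, Ideal.absNorm_eq_zero_iff]
    exact (w.under (𝓞 k)).ne_bot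
  have hσ' : ∀ x : 𝓞 N, σ • x - x ^ (Ideal.absNorm (w.under (𝓞 k)).asIdeal) ∈ w.asIdeal := by
    intro x
    have h := hσ x
    rwa [MP_1a91b9_nt.nrm_eq] at h
  exact ⟨σ, hσ', frb_gpl w σ hm0 hσ'⟩

end

end Pool.Agent.Lib.MP_1a91b9_nuX.DB
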