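import Pool.Agent.Lib.MP_1a91b9_nuT.Nrm
import Pool.Agent.Lib.MP_1a91b9_nuT.DB.Od

/-!
# The prime element `ϖ` above a good prime number `ℓ`
-/

set_option autoImplicit false

namespace Pool.Agent.Lib.MP_1a91b9_nuX.DB

open NumberField IsDedekindDomain Pool.Agent.Lib.MP_1a91b9_nuT
open Pool.Agent.Lib.MP_1a91b9_nuT.DB (od val_lt_one_iff)

universe u

variable [CD]

noncomputable section

/-- the prime element `ϖ` above `ℓ`, `ℓ` a good prime number -/
structure PD (ϖ : 𝓞 K) (ℓ q : ℕ) : Prop where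
  hl : ℓ.Prime
  five : 5 ≤ ℓ
  prime : Prime ϖ
  dvd : ϖ ∣ (ℓ : 𝓞 K)
  sq : ¬ ϖ ^ 2 ∣ (ℓ : 𝓞 K)
  norm : Ideal.absNorm (Ideal.span {ϖ}) = q
  alt : q = ℓ ∨ q = ℓ ^ 2
  inert : q = ℓ ^ 2 → ϖ = (ℓ : 𝓞 K)
  good : ¬ (ℓ : ℤ) ∣ CD.bad

private theorem elb_le_one {F : Type u} [Field F] [NumberField F] [Algebra K F]
    (w : HeightOneSpectrum (𝓞 F)) (d : 𝓞 K) :
    w.valuation F (algebraMap K F (d : K)) ≤ 1 := by
  have h1 : algebraMap K F (d : K) = ((algebraMap (𝓞 K) (𝓞 F) d : 𝓞 F) : F) :=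
    IsScalarTower.algebraMap_apply K K F (d : K)
  rw [h1]
  exact w.valuation_le_one _

private theorem elb_mul {F : Type u} [Field F] [Algebra K F] (a b : 𝓞 K) :
    algebraMap K F ((a * b : 𝓞 K) : K) = algebraMap K F (a : K) * algebraMap K F (b : K) := by
  rw [← map_mul]
  rfl

private theorem elb_sub {F : Type u} [Field F] [Algebra K F] (a b : 𝓞 K) :
    algebraMap K F ((a - b : 𝓞 K) : K) = algebraMap K F (a : K) - algebraMap K F (b : K) := by
  rw [← map_sub]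
  rfl

private theorem elb_one {F : Type u} [Field F] [Algebra K F] :
    algebraMap K F ((1 : 𝓞 K) : K) = 1 := map_one (algebraMap K F)

private theorem elb_nat {F : Type u} [Field F] [Algebra K F] (n : ℕ) :
    algebraMap K F ((n : 𝓞 K) : K) = (n : F) := by
  have : ((n : 𝓞 K) : K) = (n : K) := map_natCast (algebraMap (𝓞 K) K) n
  rw [this, map_natCast]

private theorem elb_le (a : WithZero (Multiplicative ℤ)) (h : a < 1) :
    a ≤ WithZero.exp (-1 : ℤ) := by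
  rcases eq_or_ne a 0 with h0 | h0
  · rw [h0]
    exact zero_le
  · rw [← WithZero.exp_log h0] at h ⊢
    rw [← WithZero.exp_zero, WithZero.exp_lt_exp] at h
    rw [WithZero.exp_le_exp]
    omega

section
variable {ϖ : 𝓞 K} {ℓ q : ℕ} (h : PD ϖ ℓ q)
include h

theorem PD.dvd_int_iff (n : ℤ) : ϖ ∣ (n : 𝓞 K) ↔ (ℓ : ℤ) ∣ n := by
  constructor
  · intro hn
    by_contra hcon
    have hp : Prime (ℓ : ℤ) := Nat.prime_iff_prime_int.1 h.hl
    obtain ⟨a, b, hab⟩ := (hp.coprime_iff_not_dvd.2 hcon)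
    apply h.prime.not_isUnit
    apply isUnit_of_dvd_one
    have e : (1 : 𝓞 K) = (a : 𝓞 K) * (ℓ : 𝓞 K) + (b : 𝓞 K) * (n : 𝓞 K) := by
      have := congrArg (Int.cast : ℤ → 𝓞 K) hab
      push_cast at this
      exact this.symm
    rw [e]
    exact dvd_add (h.dvd.mul_left _) (hn.mul_left _)
  · rintro ⟨m, rfl⟩
    push_cast
    exact h.dvd.mul_right _

theorem PD.q_five : 5 ≤ q := by
  have h5 := h.five
  rcases h.alt with e | e
  · rw [e]
    exact h5
  · rw [e]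
    nlinarith

theorem PD.dvd_q : (ℓ - 1) ∣ (q - 1) := by
  rcases h.alt with e | e
  · rw [e]
  · rw [e]
    obtain ⟨m, hm⟩ : ∃ m, ℓ = m + 1 := ⟨ℓ - 1, by have := h.five; omega⟩
    rw [hm]
    refine ⟨m + 2, ?_⟩
    have : (m + 1) ^ 2 = m * (m + 2) + 1 := by ring
    rw [this, Nat.add_sub_cancel, Nat.add_sub_cancel]

theorem PD.coprime_q : Nat.Coprime (q - 1) ℓ := by
  apply Nat.Coprime.symm
  rw [h.hl.coprime_iff_not_dvd]
  intro hd
  have hq : ℓ ∣ q := by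
    rcases h.alt with e | e
    · rw [e]
    · rw [e]
      exact dvd_pow_self _ two_ne_zero
  have h1 : ℓ ∣ q - (q - 1) := Nat.dvd_sub hq hd
  have h2 := h.q_five
  have h3 : q - (q - 1) = 1 := by omega
  rw [h3, Nat.dvd_one] at h1
  exact h.hl.one_lt.ne' h1

/-- inverses modulo `ϖ` -/
theorem PD.inv {c : 𝓞 K} (hc : ¬ ϖ ∣ c) : ∃ d : 𝓞 K, ϖ ∣ c * d - 1 := by
  have h1 : (Ideal.span {ϖ}).IsPrime := (Ideal.span_singleton_prime h.prime.ne_zero).2 h.prime
  have h2 : (Ideal.span {ϖ}).IsMaximal := h1.isMaximal (by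
    rw [Ne, Ideal.span_singleton_eq_bot]
    exact h.prime.ne_zero)
  obtain ⟨d, i, hi, e⟩ := h2.exists_inv (x := c) (by
    rw [Ideal.mem_span_singleton]
    exact hc)
  rw [Ideal.mem_span_singleton] at hi
  refine ⟨d, ?_⟩
  have : c * d - 1 = -i := by linear_combination e
  rw [this]
  exact (dvd_neg).2 hi

variable {F : Type u} [Field F] [NumberField F] [Algebra K F] {w : HeightOneSpectrum (𝓞 F)}
  (hw : w.valuation F (algebraMap K F (ϖ : K)) < 1)
include hw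

theorem PD.val {c : 𝓞 K} (hc : ϖ ∣ c) : w.valuation F (algebraMap K F (c : K)) ≤
    w.valuation F (algebraMap K F (ϖ : K)) := by
  obtain ⟨d, rfl⟩ := hc
  rw [elb_mul, map_mul]
  exact mul_le_of_le_one_right' (elb_le_one w d)

theorem PD.val_iff (c : 𝓞 K) : w.valuation F (algebraMap K F (c : K)) < 1 ↔ ϖ ∣ c := by
  constructor
  · intro hv
    by_contra hc
    obtain ⟨d, e, he⟩ := h.inv hc
    have h1 : w.valuation F (algebraMap K F ((c * d - 1 : 𝓞 K) : K)) < 1 :=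
      (h.val hw ⟨e, he⟩).trans_lt hw
    have h2 : w.valuation F (algebraMap K F ((c * d : 𝓞 K) : K)) < 1 := by
      rw [elb_mul, map_mul]
      exact (mul_le_of_le_one_right' (elb_le_one w d)).trans_lt hv
    have h3 : (1 : F) = algebraMap K F ((c * d : 𝓞 K) : K)
        - algebraMap K F ((c * d - 1 : 𝓞 K) : K) := by
      rw [← elb_sub, sub_sub_cancel, elb_one]
    have h4 : w.valuation F (1 : F) < 1 := by
      rw [h3]
      exact Valuation.map_sub_lt _ h2 h1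
    rw [map_one] at h4
    exact lt_irrefl _ h4
  · intro hc
    exact (h.val hw hc).trans_lt hw

theorem PD.val_ell : w.valuation F (ℓ : F) = w.valuation F (algebraMap K F (ϖ : K)) := by
  obtain ⟨d, hd⟩ := h.dvd
  have hnd : ¬ ϖ ∣ d := by
    rintro ⟨e, rfl⟩
    exact h.sq ⟨e, by rw [hd]; ring⟩
  have h1 : w.valuation F (algebraMap K F (d : K)) = 1 := by
    rcases (elb_le_one w d).lt_or_eq with h2 | h2
    · exact absurd ((h.val_iff hw d).1 h2) hnd
    · exact h2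
  rw [← elb_nat (F := F) ℓ, hd, elb_mul, map_mul, h1, mul_one]

/-- an `ℓ`-th power which is `1` modulo `w` is `1` modulo `w ^ 2` -/
theorem pow_loc {z : F} (hz : w.valuation F (z ^ ℓ - 1) < 1) :
    w.valuation F (z ^ ℓ - 1) ≤ WithZero.exp (-2 : ℤ) := by
  have hℓ0 : ℓ ≠ 0 := h.hl.ne_zero
  have hℓv : w.valuation F (ℓ : F) < 1 := by
    rw [h.val_ell hw]
    exact hw
  -- `z` is integral
  have hz1 : w.valuation F z ≤ 1 := by
    have h1 : w.valuation F (z ^ ℓ) ≤ 1 := by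
      have e : z ^ ℓ = (z ^ ℓ - 1) + 1 := by ring
      rw [e]
      exact (Valuation.map_add _ _ _).trans (max_le hz.le (by rw [map_one]))
    rw [map_pow] at h1
    by_contra hcon
    exact absurd h1 (not_le.2 (one_lt_pow₀ (not_le.1 hcon) hℓ0))
  have hu1 : w.valuation F (z - 1) ≤ 1 :=
    (Valuation.map_sub _ _ _).trans (max_le hz1 (by rw [map_one]))
  obtain ⟨r, hr⟩ := exists_add_pow_prime_eq h.hl
    (⟨z - 1, hu1⟩ : (w.valuation F).integer) (1 : (w.valuation F).integer)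
  have hr' : z ^ ℓ - 1 = (z - 1) ^ ℓ + (ℓ : F) * (z - 1) * (r : F) := by
    have := congrArg (Subtype.val : (w.valuation F).integer → F) hr
    simp only [Subring.coe_add, Subring.coe_pow, Subring.coe_mul, Subring.coe_one,
      Subring.coe_natCast, one_pow, mul_one, sub_add_cancel] at this
    linear_combination this
  have hrv : w.valuation F (r : F) ≤ 1 := r.2
  have hlu : w.valuation F ((ℓ : F) * (z - 1) * (r : F)) ≤ w.valuation F (ℓ : F) := by
    rw [map_mul, map_mul, mul_assoc]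
    exact mul_le_of_le_one_right' (mul_le_one' hu1 hrv)
  have hu : w.valuation F (z - 1) < 1 := by
    have h1 : w.valuation F ((z - 1) ^ ℓ) < 1 := by
      have e : (z - 1) ^ ℓ = (z ^ ℓ - 1) - (ℓ : F) * (z - 1) * (r : F) := by
        rw [hr']
        ring
      rw [e]
      exact Valuation.map_sub_lt _ hz (hlu.trans_lt hℓv)
    rw [map_pow] at h1
    exact (pow_lt_one_iff_of_nonneg zero_le hℓ0).1 h1
  have hue := elb_le _ hu
  have hle := elb_le _ hℓv
  rw [hr']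
  refine (Valuation.map_add _ _ _).trans (max_le ?_ ?_)
  · rw [map_pow]
    calc w.valuation F (z - 1) ^ ℓ ≤ w.valuation F (z - 1) ^ 2 :=
          pow_le_pow_of_le_one zero_le hu.le (by have := h.five; omega)
      _ ≤ WithZero.exp (-1 : ℤ) ^ 2 := pow_le_pow_left₀ zero_le hue _
      _ = WithZero.exp (-2 : ℤ) := by
          rw [pow_two, ← WithZero.exp_add]
          norm_num
  · rw [map_mul, map_mul]
    calc w.valuation F (ℓ : F) * w.valuation F (z - 1) * w.valuation F (r : F)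
        ≤ w.valuation F (ℓ : F) * w.valuation F (z - 1) := mul_le_of_le_one_right' hrv
      _ ≤ WithZero.exp (-1 : ℤ) * WithZero.exp (-1 : ℤ) := mul_le_mul' hle hue
      _ = WithZero.exp (-2 : ℤ) := by
          rw [← WithZero.exp_add]
          norm_num

end

private theorem elb_int_le {F : Type u} [Field F] [NumberField F] (w : HeightOneSpectrum (𝓞 F))
    (n : ℤ) : w.valuation F (n : F) ≤ 1 := by
  have h1 : (n : F) = ((n : 𝓞 F) : F) := (map_intCast (algebraMap (𝓞 F) F) n).symm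
  rw [h1]
  exact w.valuation_le_one _

section
variable {ϖ : 𝓞 K} {ℓ q : ℕ} (h : PD ϖ ℓ q) {F : Type u} [Field F] [NumberField F] [Algebra K F]
  {w : HeightOneSpectrum (𝓞 F)}
include h

/-- `bad` is a unit at the places above `ℓ` -/
theorem PD.bad_ell (hw : w.valuation F (ℓ : F) < 1) : w.valuation F (bD F) = 1 := by
  refine le_antisymm (elb_int_le _ _) ?_
  by_contra hc
  rw [not_le] at hc
  have hp : IsCoprime (ℓ : ℤ) (CD.bad) :=
    ((Nat.prime_iff_prime_int.1 h.hl).coprime_iff_not_dvd).2 h.good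
  obtain ⟨a, b, hab⟩ := hp
  have h1 : (1 : F) = (a : F) * (ℓ : F) + (b : F) * bD F := by
    have := congrArg (fun n : ℤ => (n : F)) hab
    push_cast at this
    push_cast
    exact this.symm
  have h2 : w.valuation F (1 : F) < 1 := by
    rw [h1]
    refine Valuation.map_add_lt _ ?_ ?_
    · rw [map_mul]
      exact (mul_le_of_le_one_left' (elb_int_le _ _)).trans_lt hw
    · rw [map_mul]
      exact (mul_le_of_le_one_left' (elb_int_le _ _)).trans_lt hc
  rw [map_one] at h2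
  exact lt_irrefl _ h2

theorem PD.bad_pi (hw : w.valuation F (algebraMap K F (ϖ : K)) < 1) :
    w.valuation F (bD F) = 1 :=
  h.bad_ell (by rw [h.val_ell hw]; exact hw)

theorem PD.bad_od (hw : od w (algebraMap K F (ϖ : K)) = 1) :
    w.valuation F (bD F) = 1 := by
  refine h.bad_pi ?_
  have h0 : algebraMap K F (ϖ : K) ≠ 0 := by
    intro h0
    rw [h0] at hw
    unfold od at hw
    rw [map_zero] at hw
    simp at hw
  rw [val_lt_one_iff w h0, hw]
  norm_num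

end

end

end Pool.Agent.Lib.MP_1a91b9_nuX.DB

namespace Pool.Agent.Lib.MP_1a91b9_nuX.DX

open NumberField IsDedekindDomain Pool.Agent.Lib.MP_1a91b9_nuT
open Pool.Agent.Lib.MP_1a91b9_nuX.DB
open Pool.Agent.Lib.MP_1a91b9_nuT.DB (od od_mul val_eq_one_iff)

universe u

variable [CD]

noncomputable section

theorem dvd_bad : 6 * (4 * (CD.A : ℤ) ^ 3 + 27 * CD.B ^ 2) * CD.nm * (CD.tr ^ 2 - 4 * CD.nm) ∣
    (CD.bad : ℤ) := CD.bad_dvd

theorem good_five {ℓ : ℕ} (hl : ℓ.Prime) (hg : ¬ (ℓ : ℤ) ∣ CD.bad) : 5 ≤ ℓ := by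
  have h6 : (6 : ℤ) ∣ CD.bad :=
    (((Dvd.intro _ rfl : (6 : ℤ) ∣ 6 * (4 * (CD.A : ℤ) ^ 3 + 27 * CD.B ^ 2)).mul_right _).mul_right
      _).trans dvd_bad
  have h2 : ℓ ≠ 2 := by
    rintro rfl
    exact hg ((by norm_num : ((2 : ℕ) : ℤ) ∣ 6).trans h6)
  have h3 : ℓ ≠ 3 := by
    rintro rfl
    exact hg ((by norm_num : ((3 : ℕ) : ℤ) ∣ 6).trans h6)
  have h4 : ℓ ≠ 4 := by
    rintro rfl
    exact absurd hl (by norm_num)
  have := hl.two_le
  omega

theorem good_disc {ℓ : ℕ} (hg : ¬ (ℓ : ℤ) ∣ CD.bad) :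
    ¬ (ℓ : ℤ) ∣ CD.tr ^ 2 - 4 * CD.nm := fun h => hg ((h.mul_left _).trans dvd_bad)

/-- a good prime number: the prime element above it -/
theorem exists_pd {ℓ : ℕ} (hl : ℓ.Prime) (hg : ¬ (ℓ : ℤ) ∣ CD.bad) :
    ∃ (ϖ : 𝓞 K) (q : ℕ), PD ϖ ℓ q := by
  have h5 := good_five hl hg
  have hℓ0 : (ℓ : 𝓞 K) ≠ 0 := Nat.cast_ne_zero.2 hl.ne_zero
  have hnl : Ideal.absNorm (Ideal.span {(ℓ : 𝓞 K)}) = ℓ ^ 2 := by
    have h1 : Ideal.absNorm (Ideal.span {(ℓ : 𝓞 K)}) = (Algebra.norm ℤ (ℓ : 𝓞 K)).natAbs :=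
      Ideal.absNorm_span_singleton _
    have h2 : Algebra.norm ℤ ((ℓ : ℕ) : 𝓞 K) = (ℓ : ℤ) ^ Module.finrank ℤ (𝓞 K) := by
      have := Algebra.norm_algebraMap (S := 𝓞 K) (ℓ : ℤ)
      simpa using this
    rw [h1, h2, finrank_O, Int.natAbs_pow, Int.natAbs_natCast]
  have hne : Ideal.span {(ℓ : 𝓞 K)} ≠ ⊤ := by
    intro h
    rw [h, Ideal.absNorm_top] at hnl
    have : 1 < ℓ ^ 2 := Nat.one_lt_pow (by norm_num) hl.one_lt
    omega
  obtain ⟨M, hM, hle⟩ := Ideal.exists_le_maximal _ hne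
  have hMl : (ℓ : 𝓞 K) ∈ M := hle (Ideal.mem_span_singleton_self _)
  obtain ⟨ϖ, hϖ⟩ := (IsPrincipalIdealRing.principal M).principal
  have hs : Ideal.span {ϖ} = M := hϖ.symm
  have hM0 : M ≠ ⊥ := by
    intro h
    rw [h, Ideal.mem_bot] at hMl
    exact hℓ0 hMl
  have hϖ0 : ϖ ≠ 0 := by
    rintro rfl
    apply hM0
    rw [← hs, Ideal.span_singleton_eq_bot]
  have hp : Prime ϖ := by
    rw [← Ideal.span_singleton_prime hϖ0, hs]
    exact hM.isPrime
  have hd : ϖ ∣ (ℓ : 𝓞 K) := by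
    rw [← Ideal.mem_span_singleton, hs]
    exact hMl
  obtain ⟨u, hu⟩ := hd
  have hmul : Ideal.absNorm (Ideal.span {ϖ}) * Ideal.absNorm (Ideal.span {u}) = ℓ ^ 2 := by
    rw [← hnl, hu, ← map_mul, Ideal.span_singleton_mul_span_singleton]
  have hq1 : Ideal.absNorm (Ideal.span {ϖ}) ≠ 1 := by
    intro h
    rw [Ideal.absNorm_eq_one_iff] at h
    rw [hs] at h
    exact hM.ne_top h
  have hpos : 0 < ℓ ^ 2 := pow_pos hl.pos 2
  have hlt : 1 < ℓ ^ 2 := Nat.one_lt_pow (by norm_num) hl.one_lt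
  have hne2 : ℓ ≠ ℓ ^ 2 := by
    intro h
    have h1 := hl.one_lt
    nlinarith
  have hcase : Ideal.absNorm (Ideal.span {ϖ}) = ℓ ∨ Ideal.absNorm (Ideal.span {ϖ}) = ℓ ^ 2 := by
    obtain ⟨i, hi, he⟩ := (Nat.dvd_prime_pow hl).1 (Dvd.intro _ hmul)
    interval_cases i
    · exact absurd (by simpa using he) hq1
    · left
      simpa using he
    · right
      exact he
  rcases hcase with hq | hq
  · refine ⟨ϖ, ℓ, hl, h5, hp, ⟨u, hu⟩, ?_, hq, Or.inl rfl, fun h => absurd h hne2, hg⟩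
    rintro ⟨c, hc⟩
    have hm := mul_cj ϖ
    rw [hq] at hm
    have h1 : cj ϖ = ϖ * c := by
      apply mul_left_cancel₀ hϖ0
      rw [hm, hc]
      ring
    obtain ⟨m, n, hmn⟩ := exists_coords ϖ
    have hnorm := absNorm_form m n
    rw [← hmn, hq] at hnorm
    have hsum : ϖ + cj ϖ = ((2 * m + n * CD.tr : ℤ) : 𝓞 K) := by
      rw [hmn, cj_coords]
      push_cast
      ring
    have hdv : ϖ ∣ ((2 * m + n * CD.tr : ℤ) : 𝓞 K) := by
      rw [← hsum, h1]
      exact dvd_add dvd_rfl (Dvd.intro _ rfl)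
    have hlp : Prime (ℓ : ℤ) := Nat.prime_iff_prime_int.1 hl
    have ha : (ℓ : ℤ) ∣ 2 * m + n * CD.tr := by
      by_contra hcon
      obtain ⟨a, b, hab⟩ := hlp.coprime_iff_not_dvd.2 hcon
      apply hp.not_isUnit
      apply isUnit_of_dvd_one
      have e : (1 : 𝓞 K) = (a : 𝓞 K) * (ℓ : 𝓞 K) +
          (b : 𝓞 K) * ((2 * m + n * CD.tr : ℤ) : 𝓞 K) := by
        have := congrArg (Int.cast : ℤ → 𝓞 K) hab
        push_cast at this ⊢
        exact this.symm
      rw [e]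
      exact dvd_add ((Dvd.intro _ hu.symm).mul_left _) (hdv.mul_left _)
    have h4 : (2 * m + n * CD.tr) ^ 2 - (CD.tr ^ 2 - 4 * CD.nm) * n ^ 2 = 4 * (ℓ : ℤ) := by
      rw [hnorm]
      ring
    have hn2 : (ℓ : ℤ) ∣ (CD.tr ^ 2 - 4 * CD.nm) * n ^ 2 := by
      have e : (CD.tr ^ 2 - 4 * CD.nm) * n ^ 2 = (2 * m + n * CD.tr) ^ 2 - 4 * (ℓ : ℤ) := by
        linear_combination -h4
      rw [e]
      exact dvd_sub (dvd_pow ha two_ne_zero) (Dvd.intro_left _ rfl)
    have hn : (ℓ : ℤ) ∣ n :=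
      hlp.dvd_of_dvd_pow ((hlp.dvd_or_dvd hn2).resolve_left (good_disc hg))
    obtain ⟨a', ha'⟩ := ha
    obtain ⟨n', hn'⟩ := hn
    have h6 : (ℓ : ℤ) * ((ℓ : ℤ) * (a' ^ 2 - (CD.tr ^ 2 - 4 * CD.nm) * n' ^ 2)) =
        (ℓ : ℤ) * 4 := by
      rw [ha', hn'] at h4
      linear_combination h4
    have h7 := mul_left_cancel₀ hlp.ne_zero h6
    have h8 : (ℓ : ℤ) ∣ 4 := ⟨_, h7.symm⟩
    have h9 : (ℓ : ℤ) ≤ 4 := Int.le_of_dvd (by norm_num) h8
    have : (5 : ℤ) ≤ ℓ := by exact_mod_cast h5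
    omega
  · -- the inert case
    have hu1 : Ideal.absNorm (Ideal.span {u}) = 1 := by
      rw [hq] at hmul
      exact Nat.eq_of_mul_eq_mul_left hpos (hmul.trans (mul_one _).symm)
    rw [Ideal.absNorm_eq_one_iff, Ideal.span_singleton_eq_top] at hu1
    have has : Associated ϖ (ℓ : 𝓞 K) := by
      obtain ⟨v, hv⟩ := hu1
      exact ⟨v, by rw [hv, hu]⟩
    have hlp : Prime (ℓ : 𝓞 K) := has.prime hp
    refine ⟨(ℓ : 𝓞 K), ℓ ^ 2, hl, h5, hlp, dvd_rfl, ?_, hnl, Or.inr rfl, fun _ => rfl, hg⟩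
    rintro ⟨c, hc⟩
    apply hlp.not_isUnit
    refine IsUnit.of_mul_eq_one c ?_
    apply mul_left_cancel₀ hℓ0
    rw [mul_one, ← mul_assoc, ← pow_two]
    exact hc.symm

private theorem cjc_form_aux {ℓ : ℕ} [Fact ℓ.Prime] {Q : Type*} [AddCommGroup Q]
    [Module (ZMod ℓ) Q] {x : Q} (hx : x ≠ 0) : ∃ f : Q →+ ZMod ℓ, f x ≠ 0 := by
  by_contra hcon
  push Not at hcon
  exact hx ((Module.forall_dual_apply_eq_zero_iff (ZMod ℓ) x).1
    fun f => hcon f.toAddMonoidHom)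

private theorem cjc_form {ℓ : ℕ} [Fact ℓ.Prime] {Q : Type*} [AddCommGroup Q]
    (hQ : ∀ x : Q, ℓ • x = 0) {x : Q} (hx : x ≠ 0) : ∃ f : Q →+ ZMod ℓ, f x ≠ 0 := by
  let _ : Module (ZMod ℓ) Q := AddCommGroup.zmodModule hQ
  exact cjc_form_aux hx

private theorem cjc_le {F : Type u} [Field F] [NumberField F] [Algebra K F]
    (w : HeightOneSpectrum (𝓞 F)) (a : 𝓞 K) : w.valuation F (algebraMap K F (a : K)) ≤ 1 := by
  have h1 : algebraMap K F (a : K) = ((algebraMap (𝓞 K) (𝓞 F) a : 𝓞 F) : F) :=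
    IsScalarTower.algebraMap_apply K K F (a : K)
  rw [h1]
  exact w.valuation_le_one _

section
variable {ϖ : 𝓞 K} {ℓ q : ℕ} (h : PD ϖ ℓ q)
include h

theorem pd_cj : PD (cj ϖ) ℓ q := by
  have hinv : ∀ a, cj (cj a) = a := cj_cj
  let e : 𝓞 K ≃+* 𝓞 K := RingEquiv.ofRingHom cj cj (RingHom.ext hinv) (RingHom.ext hinv)
  have he : ∀ a, e a = cj a := fun a => rfl
  have hl : cj (ℓ : 𝓞 K) = (ℓ : 𝓞 K) := map_natCast cj ℓ
  refine ⟨h.hl, h.five, ?_, ?_, ?_, ?_, h.alt, fun hq => by rw [h.inert hq, hl], h.good⟩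
  · have h1 := (MulEquiv.prime_iff (p := ϖ) e.toMulEquiv).2 h.prime
    exact h1
  · have h1 : cj ϖ ∣ cj (ℓ : 𝓞 K) := map_dvd cj h.dvd
    rw [hl] at h1
    exact h1
  · intro h1
    apply h.sq
    have h2 : cj (cj ϖ ^ 2) ∣ cj (ℓ : 𝓞 K) := map_dvd cj h1
    rw [hl, map_pow, cj_cj] at h2
    exact h2
  · rw [absNorm_cj]
    exact h.norm

theorem pd_mul_cj : ϖ * cj ϖ = (q : 𝓞 K) := by
  rw [mul_cj, h.norm]

/-- the split and the inert case -/
theorem pd_cases : (q = ℓ ∧ IsCoprime ϖ (cj ϖ)) ∨ (q = ℓ ^ 2 ∧ cj ϖ = ϖ) := by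
  have hm := pd_mul_cj h
  rcases h.alt with hq | hq
  · left
    refine ⟨hq, ?_⟩
    have h1 : ¬ ϖ ∣ cj ϖ := by
      rintro ⟨c, hc⟩
      apply h.sq
      rw [hq] at hm
      refine ⟨c, ?_⟩
      rw [← hm]
      linear_combination ϖ * hc
    obtain ⟨d, e, he⟩ := h.inv h1
    exact ⟨-e, d, by linear_combination he⟩
  · right
    refine ⟨hq, ?_⟩
    rw [h.inert hq, map_natCast]

section
variable {F : Type u} [Field F] [NumberField F] [Algebra K F] {w : HeightOneSpectrum (𝓞 F)}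

theorem pd_val_coprime (hw : w.valuation F (algebraMap K F (ϖ : K)) < 1) {c : 𝓞 K}
    (hc : ¬ ϖ ∣ c) : w.valuation F (algebraMap K F (c : K)) = 1 := by
  refine le_antisymm (cjc_le w c) ?_
  by_contra hcon
  exact hc ((h.val_iff hw c).1 (not_le.1 hcon))

theorem pd_val_ell_iff : w.valuation F (ℓ : F) < 1 ↔
    w.valuation F (algebraMap K F (ϖ : K)) < 1 ∨
      w.valuation F (algebraMap K F (cj ϖ : K)) < 1 := by
  have hmul : w.valuation F (algebraMap K F (ϖ : K)) * w.valuation F (algebraMap K F (cj ϖ : K)) =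
      w.valuation F (q : F) := by
    rw [← map_mul, ← map_mul]
    congr 1
    have h1 : ((ϖ : K)) * ((cj ϖ : 𝓞 K) : K) = ((ϖ * cj ϖ : 𝓞 K) : K) := rfl
    rw [h1, pd_mul_cj h]
    have h2 : (((q : 𝓞 K)) : K) = (q : K) := map_natCast (algebraMap (𝓞 K) K) q
    rw [h2, map_natCast]
  have hle1 := cjc_le w ϖ
  have hle2 := cjc_le w (cj ϖ)
  have hlel : w.valuation F (ℓ : F) ≤ 1 := by
    have h1 := cjc_le w (ℓ : 𝓞 K)
    have h2 : (((ℓ : 𝓞 K)) : K) = (ℓ : K) := map_natCast (algebraMap (𝓞 K) K) ℓ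
    rwa [h2, map_natCast] at h1
  have hq : w.valuation F (q : F) < 1 ↔ w.valuation F (ℓ : F) < 1 := by
    rcases h.alt with h1 | h1
    · rw [h1]
    · rw [h1, Nat.cast_pow, map_pow]
      constructor
      · intro h2
        by_contra hcon
        have h3 : w.valuation F (ℓ : F) = 1 := le_antisymm hlel (not_lt.1 hcon)
        rw [h3, one_pow] at h2
        exact lt_irrefl _ h2
      · intro h2
        exact pow_lt_one₀ zero_le h2 two_ne_zero
  rw [← hq, ← hmul]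
  constructor
  · intro h1
    by_contra hcon
    push Not at hcon
    have h2 := le_antisymm hle1 hcon.1
    have h3 := le_antisymm hle2 hcon.2
    rw [h2, h3, one_mul] at h1
    exact lt_irrefl _ h1
  · rintro (h1 | h1)
    · exact mul_lt_one_of_nonneg_of_lt_one_left zero_le h1 hle2
    · exact mul_lt_one_of_nonneg_of_lt_one_right hle1 zero_le h1

/-- if `ℓ` has order one at `w` then so has the prime element -/
theorem od_of_un (hw : w.valuation F (algebraMap K F (ϖ : K)) < 1) (hun : od w (ℓ : F) = 1) :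
    od w (algebraMap K F (ϖ : K)) = 1 := by
  obtain ⟨c, hc⟩ := h.dvd
  have hcn : ¬ ϖ ∣ c := by
    rintro ⟨d, rfl⟩
    exact h.sq ⟨d, by rw [hc]; ring⟩
  have h1 : (ℓ : F) = algebraMap K F (ϖ : K) * algebraMap K F (c : K) := by
    rw [← map_mul]
    have h2 : ((ϖ : K)) * ((c : 𝓞 K) : K) = ((ϖ * c : 𝓞 K) : K) := rfl
    rw [h2, ← hc]
    have h3 : (((ℓ : 𝓞 K)) : K) = (ℓ : K) := map_natCast (algebraMap (𝓞 K) K) ℓ
    rw [h3, map_natCast]
  have hl0 : (ℓ : F) ≠ 0 := by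
    have := h.hl.ne_zero
    exact_mod_cast this
  rw [h1] at hl0 hun
  have hc0 : algebraMap K F (c : K) ≠ 0 := right_ne_zero_of_mul hl0
  rw [od_mul w (left_ne_zero_of_mul hl0) hc0] at hun
  have h2 : od w (algebraMap K F (c : K)) = 0 := (val_eq_one_iff w hc0).1 (pd_val_coprime h hw hcn)
  omega

end

/-- a nonzero additive map to `ZMod ℓ` which is zero on the multiples of the conjugate -/
theorem exists_phi : ∃ φ : 𝓞 K →+ ZMod ℓ, φ ≠ 0 ∧ ∀ x : 𝓞 K, cj ϖ ∣ x → φ x = 0 := by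
  have hfact : Fact ℓ.Prime := ⟨h.hl⟩
  have hQ : ∀ x : 𝓞 K ⧸ Ideal.span {cj ϖ}, ℓ • x = 0 := by
    intro x
    obtain ⟨y, rfl⟩ := Ideal.Quotient.mk_surjective x
    rw [← map_nsmul, nsmul_eq_mul, Ideal.Quotient.eq_zero_iff_mem, Ideal.mem_span_singleton]
    exact (pd_cj h).dvd.mul_right y
  have hnt : Nontrivial (𝓞 K ⧸ Ideal.span {cj ϖ}) := by
    apply Ideal.Quotient.nontrivial_iff.2
    intro htop
    rw [Ideal.span_singleton_eq_top] at htop
    exact (pd_cj h).prime.not_isUnit htop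
  obtain ⟨x, hx⟩ := exists_ne (0 : 𝓞 K ⧸ Ideal.span {cj ϖ})
  obtain ⟨f, hf⟩ := cjc_form hQ hx
  obtain ⟨y, rfl⟩ := Ideal.Quotient.mk_surjective x
  refine ⟨f.comp (Ideal.Quotient.mk (Ideal.span {cj ϖ})).toAddMonoidHom, ?_, ?_⟩
  · intro h0
    apply hf
    have h1 := DFunLike.congr_fun h0 y
    exact h1
  · intro z hz
    have h1 : Ideal.Quotient.mk (Ideal.span {cj ϖ}) z = 0 := by
      rw [Ideal.Quotient.eq_zero_iff_mem, Ideal.mem_span_singleton]
      exact hz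
    change f (Ideal.Quotient.mk (Ideal.span {cj ϖ}) z) = 0
    rw [h1, map_zero]

end

end

end Pool.Agent.Lib.MP_1a91b9_nuX.DX
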