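import Pool.Agent.Lib.MP_1a91b9_nuX.DB.El

/-!
# The statements which are carried along the tower
-/

set_option autoImplicit false

namespace Pool.Agent.Lib.MP_1a91b9_nuX.DB

variable [Pool.Agent.Lib.MP_1a91b9_nuT.CD]

open NumberField IsDedekindDomain WeierstrassCurve Pool.Agent.Lib.MP_1a91b9_nuT

universe u

/-- the group `V` over `F` is trivial -/
def VT (ϖ : 𝓞 K) (ℓ : ℕ) (F : Type u) [Field F] [NumberField F] [Algebra K F] : Prop :=
  ∀ (N : Type u) [Field N] [NumberField N] [Algebra K N] [Algebra F N] [IsScalarTower K F N]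
    [DecidableEq N] [IsGalois F N] (P : Pt N), Full F ϖ P → ∀ y : Nˣ, VV F ϖ ℓ P y →
    ∃ z : Nˣ, y = z ^ ℓ

/-- the decomposition groups at the places above `b` are not trivial -/
def DTb (b ϖ : 𝓞 K) (F : Type u) [Field F] [NumberField F] [Algebra K F] : Prop :=
  ∀ (N : Type u) [Field N] [NumberField N] [Algebra K N] [Algebra F N] [IsScalarTower K F N]
    [DecidableEq N] [IsGalois F N] (P : Pt N), Full F ϖ P → ∀ v : HeightOneSpectrum (𝓞 N),
    v.valuation N (algebraMap K N (b : K)) < 1 → ∃ σ : Gal(N/F), σ ≠ 1 ∧ gpl σ v = v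

/-- `CD.bad` as an element of `𝓞 K` -/
noncomputable def bO : 𝓞 K := ((CD.bad : ℤ) : 𝓞 K)

theorem bO_map (N : Type u) [Field N] [Algebra K N] : algebraMap K N ((bO : 𝓞 K) : K) = bD N := by
  have h : ((bO : 𝓞 K) : K) = ((CD.bad : ℤ) : K) := map_intCast (algebraMap (𝓞 K) K) _
  rw [h, map_intCast]

/-- the decomposition groups at the places above `CD.bad` are not trivial -/
def DT (ϖ : 𝓞 K) (F : Type u) [Field F] [NumberField F] [Algebra K F] : Prop :=
  ∀ (N : Type u) [Field N] [NumberField N] [Algebra K N] [Algebra F N] [IsScalarTower K F N]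
    [DecidableEq N] [IsGalois F N] (P : Pt N), Full F ϖ P → ∀ v : HeightOneSpectrum (𝓞 N),
    v.valuation N (bD N) < 1 → ∃ σ : Gal(N/F), σ ≠ 1 ∧ gpl σ v = v

theorem dt_three (ϖ : 𝓞 K) (F : Type u) [Field F] [NumberField F] [Algebra K F] :
    DTb bO ϖ F ↔ DT ϖ F := by
  constructor
  · intro h N _ _ _ _ _ _ _ P hP v hv
    exact h N P hP v (by rw [bO_map]; exact hv)
  · intro h N _ _ _ _ _ _ _ P hP v hv
    rw [bO_map] at hv
    exact h N P hP v hv

end Pool.Agent.Lib.MP_1a91b9_nuX.DB
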