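import Pool.Agent.Lib.MP_1a91b9_nuX.DB.Tor2
import Pool.Agent.Lib.MP_1a91b9_nuT.DB.Bas

/-!
# The action of the Galois group on the points
-/

set_option autoImplicit false

namespace Pool.Agent.Lib.MP_1a91b9_nuX.DB

variable [Pool.Agent.Lib.MP_1a91b9_nuT.CD]

open NumberField IsDedekindDomain WeierstrassCurve Pool.Agent.Lib.MP_1a91b9_nuT

universe u

section
variable {k F : Type u} [Field k] [Algebra K k] [Field F] [Algebra K F] [Algebra k F]
  [IsScalarTower K k F] [DecidableEq F] {β : 𝓞 K}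

theorem ga_sm (σ : F ≃ₐ[k] F) (a : 𝓞 K) (P : Pt F) : ga σ (sm F a P) = sm F a (ga σ P) :=
  pm_sm _ a P

theorem xc_ga (σ : F ≃ₐ[k] F) (P : Pt F) : xc (ga σ P) = σ (xc P) :=
  xc_pm _ P

theorem yc_ga (σ : F ≃ₐ[k] F) (P : Pt F) : yc (ga σ P) = σ (yc P) :=
  yc_pm _ P

theorem ga_mul (σ τ : F ≃ₐ[k] F) (P : Pt F) : ga (σ * τ) P = ga σ (ga τ P) := by
  rcases cases_pt P with rfl | ⟨x, y, h, rfl⟩
  · rw [map_zero, map_zero, map_zero]
  · rfl

theorem ga_one (P : Pt F) : ga (1 : F ≃ₐ[k] F) P = P := by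
  rcases cases_pt P with rfl | ⟨x, y, h, rfl⟩
  · rw [map_zero]
  · rfl

end

section
variable {k F : Type u} [Field k] [NumberField k] [Algebra K k] [Field F] [NumberField F]
  [Algebra K F] [Algebra k F] [IsScalarTower K k F] [DecidableEq F] {β : 𝓞 K}

theorem gal_sm (hβ : β ≠ 0) {R : Pt F} (hR : Ord β R) (σ : Gal(F/k)) :
    ∃ c : 𝓞 K, IsCoprime c β ∧ ga σ R = sm F c R := by
  obtain ⟨f⟩ := exists_emb F
  have h1 : sm F β (ga σ R) = 0 := by
    rw [← ga_sm, (hR β).2 dvd_rfl, map_zero]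
  obtain ⟨c, hc⟩ := ord_cases f hβ hR h1
  refine ⟨c, hR.coprime hβ ?_, hc⟩
  rw [← hc]
  exact hR.ga σ

end

end Pool.Agent.Lib.MP_1a91b9_nuX.DB
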