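import Pool.Agent.Lib.MP_1a91b9_nuX.DB.KerS
import Pool.Agent.Lib.MP_1a91b9_nuX.DB.Gal
import Pool.Agent.Lib.MP_1a91b9_nuT.DB.Od

/-!
# Ramification in the field of the points killed by a prime element
-/

set_option autoImplicit false

namespace Pool.Agent.Lib.MP_1a91b9_nuX.DB

open NumberField IsDedekindDomain WeierstrassCurve Pool.Agent.Lib.MP_1a91b9_nuT

variable [CD]

open Pool.Agent.Lib.MP_1a91b9_nuT.DB (od od_pow od_map ramIdx_pos val_lt_one_iff val_map_eq gpl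
  gpl_under raD_val)

universe u

section
variable {k F : Type u} [Field k] [NumberField k] [Field F] [NumberField F] [Algebra k F]
  [Algebra K k] [Algebra K F] [IsScalarTower K k F] [DecidableEq F] {β : 𝓞 K}

private theorem rac_inj (hβ : Prime β) {R : Pt F} (hR : Ord β R)
    (hgen : ∀ σ : Gal(F/k), ga σ R = R → σ = 1) : ∃ T : Finset (𝓞 K), IsRes β T ∧
    T.card + 1 = Ideal.absNorm (Ideal.span {β}) ∧ ∃ f : Gal(F/k) → T, Function.Injective f ∧
      ∀ σ, ga σ R = sm F ((f σ : 𝓞 K)) R := by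
  obtain ⟨T, hT, hcard⟩ := exists_isRes hβ.ne_zero
  have h1 : ∀ σ : Gal(F/k), ∃ a : T, ga σ R = sm F (a : 𝓞 K) R := by
    intro σ
    obtain ⟨c, hc, e⟩ := gal_sm hβ.ne_zero hR σ
    have hn : ¬ β ∣ c := fun h => hβ.not_isUnit (hc.isUnit_of_dvd' h dvd_rfl)
    obtain ⟨a, ha, hd⟩ := hT.ex c hn
    exact ⟨⟨a, ha⟩, e.trans ((hR.sm_eq_iff c a).2 hd)⟩
  choose f hf using h1
  refine ⟨T, hT, hcard, f, ?_, hf⟩
  intro σ τ h
  have e : ga σ R = ga τ R := by rw [hf σ, hf τ, h]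
  have e2 : ga (τ⁻¹ * σ) R = R := by
    rw [ga_mul, e, ← ga_mul, inv_mul_cancel, ga_one]
  exact (inv_mul_eq_one.1 (hgen _ e2)).symm

private theorem rac_W (hβ : Prime β) {R : Pt F} (hR : Ord β R)
    (W : HeightOneSpectrum (𝓞 F)) (hW : od (W.under (𝓞 k)) (algebraMap K k (β : K)) = 1)
    (hb : W.valuation F (bD F) = 1) :
    ((Ideal.absNorm (Ideal.span {β}) - 1 : ℕ) : ℤ) * od W (tc R)
      = (W.asIdeal.ramificationIdx (𝓞 k) : ℤ) ∧ 1 ≤ od W (tc R) ∧ Ker (W.valuation F) R := by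
  have hbF : algebraMap K F (β : K) = algebraMap k F (algebraMap K k (β : K)) :=
    IsScalarTower.algebraMap_apply K k F (β : K)
  have hb0 : algebraMap K F (β : K) ≠ 0 := by
    rw [Ne, map_eq_zero_iff _ (algebraMap K F).injective]
    intro h
    exact hβ.ne_zero (RingOfIntegers.ext h)
  have h1 : od W (algebraMap K F (β : K)) = (W.asIdeal.ramificationIdx (𝓞 k) : ℤ) := by
    rw [hbF, od_map (k := k) W, hW, mul_one]
  have h2 : W.valuation F (algebraMap K F (β : K)) < 1 := by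
    rw [val_lt_one_iff W hb0, h1]
    exact_mod_cast ramIdx_pos (k := k) W
  have h3 := ker_of_val (W.valuation F) hβ hR h2 hb
  have hR0 : R ≠ 0 := by
    intro h
    have h4 : sm F (1 : 𝓞 K) R = 0 := by rw [h, map_zero]
    exact hβ.not_isUnit (isUnit_of_dvd_one ((hR 1).1 h4))
  obtain ⟨t1, t2, -, -⟩ := ker_tc (W.valuation F) h3 hR0
  have ht0 : tc R ≠ 0 := by
    intro h
    rw [h, map_zero] at t2
    exact t2 rfl
  have h5 := v_tc (W.valuation F) hβ hR h2 hb
  refine ⟨?_, ?_, h3⟩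
  · rw [← h1, ← od_pow]
    unfold od
    rw [map_pow, h5]
  · have := (val_lt_one_iff W ht0).1 t1
    omega

private theorem rac_num {m n g e f : ℕ} {t : ℤ} (h1 : (m : ℤ) * t = e) (ht : 1 ≤ t) (hn : 0 < n)
    (h2 : g * (e * f) = n) (h3 : n ≤ m) : e = n ∧ n = m ∧ t = 1 ∧ g = 1 ∧ f = 1 := by
  have hg : 0 < g := by
    rcases Nat.eq_zero_or_pos g with h | h
    · rw [h, zero_mul] at h2
      omega
    · exact h
  have hf : 0 < f := by
    rcases Nat.eq_zero_or_pos f with h | h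
    · rw [h, mul_zero, mul_zero] at h2
      omega
    · exact h
  have he : e ≤ n := by
    rw [← h2]
    calc e = 1 * (e * 1) := by ring
      _ ≤ g * (e * f) := Nat.mul_le_mul hg (Nat.mul_le_mul_left _ hf)
  have hm : (m : ℤ) ≤ e := by
    rw [← h1]
    nlinarith
  have hm' : m ≤ e := by exact_mod_cast hm
  have e1 : e = n := by omega
  have e2 : n = m := by omega
  have e3 : g * f = 1 := by
    have h5 : n * (g * f) = n * 1 := by
      rw [e1] at h2
      calc n * (g * f) = g * (n * f) := by ring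
        _ = n * 1 := by rw [h2, mul_one]
    exact Nat.eq_of_mul_eq_mul_left hn h5
  refine ⟨e1, e2, ?_, Nat.eq_one_of_mul_eq_one_right e3, Nat.eq_one_of_mul_eq_one_left e3⟩
  have hmp : (0 : ℤ) < m := by omega
  have h6 : (m : ℤ) * t = m * 1 := by
    rw [h1, e1, e2, mul_one]
  exact mul_left_cancel₀ hmp.ne' h6

end

section
variable {k F : Type u} [Field k] [NumberField k] [Field F] [NumberField F] [Algebra k F]

variable [Algebra K k] [Algebra K F] [IsScalarTower K k F] [DecidableEq F] {β : 𝓞 K}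
  [IsGalois k F] (hβ : Prime β) {R : Pt F} (hR : Ord β R)
  (hgen : ∀ σ : Gal(F/k), ga σ R = R → σ = 1)
include hβ hR hgen

theorem card_gal_le : Module.finrank k F + 1 ≤ Ideal.absNorm (Ideal.span {β}) := by
  obtain ⟨T, -, hc, f, hf, -⟩ := rac_inj hβ hR hgen
  have h1 : Nat.card Gal(F/k) ≤ Nat.card T := Nat.card_le_card_of_injective f hf
  rw [IsGalois.card_aut_eq_finrank, Nat.card_eq_fintype_card, Fintype.card_coe] at h1
  omega

/-- total ramification -/
theorem ram (v : HeightOneSpectrum (𝓞 k)) (hv : od v (algebraMap K k (β : K)) = 1)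
    (hb : v.valuation k (bD k) = 1) :
    Module.finrank k F + 1 = Ideal.absNorm (Ideal.span {β}) ∧
    (∀ W : HeightOneSpectrum (𝓞 F), W.under (𝓞 k) = v →
      W.asIdeal.ramificationIdx (𝓞 k) = Module.finrank k F ∧
      W.asIdeal.inertiaDeg (𝓞 k) = 1 ∧ od W (tc R) = 1 ∧ Ker (W.valuation F) R ∧
      ∀ σ : Gal(F/k), gpl σ W = W) ∧
    ∀ c : 𝓞 K, ¬ β ∣ c → ∃ σ : Gal(F/k), ga σ R = sm F c R := by
  have hle := card_gal_le hβ hR hgen
  have hn : 0 < Module.finrank k F := Module.finrank_pos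
  have hvm : v.asIdeal.IsMaximal := v.isMaximal
  have hfund := Ideal.ncard_primesOver_mul_ramificationIdxIn_mul_inertiaDegIn v.asIdeal (𝓞 F)
    Gal(F/k)
  rw [IsGalois.card_aut_eq_finrank] at hfund
  have key : ∀ W : HeightOneSpectrum (𝓞 F), W.under (𝓞 k) = v →
      (W.asIdeal.ramificationIdx (𝓞 k) = Module.finrank k F ∧
        Module.finrank k F = Ideal.absNorm (Ideal.span {β}) - 1 ∧
        od W (tc R) = 1 ∧ (v.asIdeal.primesOver (𝓞 F)).ncard = 1 ∧
        W.asIdeal.inertiaDeg (𝓞 k) = 1) ∧ Ker (W.valuation F) R := by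
    intro W hW
    have hlo : W.asIdeal.LiesOver v.asIdeal := ⟨by rw [← hW]; rfl⟩
    have hWp : W.asIdeal.IsPrime := W.isPrime
    obtain ⟨h1, h2, h3⟩ := rac_W (k := k) hβ hR W (by rw [hW]; exact hv)
      (by
        have e : bD F = algebraMap k F (bD k) := (map_intCast _ _).symm
        rw [e, val_map_eq, hW]
        exact hb)
    rw [Ideal.ramificationIdxIn_eq_ramificationIdx v.asIdeal W.asIdeal Gal(F/k),
      Ideal.inertiaDegIn_eq_inertiaDeg v.asIdeal W.asIdeal Gal(F/k)] at hfund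
    refine ⟨?_, h3⟩
    exact rac_num h1 h2 hn hfund (by omega)
  obtain ⟨Q, hQ1, hQ2⟩ := (inferInstance : Nonempty (v.asIdeal.primesOver (𝓞 F)))
  have hQ0 : Q ≠ ⊥ := by
    intro h
    have h1 := hQ2.over
    rw [h] at h1
    exact v.ne_bot (h1.trans (Ideal.comap_bot_of_injective _
      (FaithfulSMul.algebraMap_injective (𝓞 k) (𝓞 F))))
  let W0 : HeightOneSpectrum (𝓞 F) := ⟨Q, hQ1, hQ0⟩
  have hW0 : W0.under (𝓞 k) = v := HeightOneSpectrum.ext hQ2.over.symm
  obtain ⟨⟨-, hq, -, hg, -⟩, -⟩ := key W0 hW0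
  have hq1 : Module.finrank k F + 1 = Ideal.absNorm (Ideal.span {β}) := by omega
  refine ⟨hq1, ?_, ?_⟩
  · intro W hW
    obtain ⟨⟨k1, -, k3, -, k5⟩, k6⟩ := key W hW
    refine ⟨k1, k5, k3, k6, fun σ => ?_⟩
    obtain ⟨P, hP⟩ := Set.ncard_eq_one.mp hg
    have hm : ∀ W' : HeightOneSpectrum (𝓞 F), W'.under (𝓞 k) = v → W'.asIdeal = P := by
      intro W' hW'
      have h1 : W'.asIdeal ∈ v.asIdeal.primesOver (𝓞 F) :=
        ⟨W'.isPrime, ⟨by rw [← hW']; rfl⟩⟩
      rw [hP] at h1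
      exact h1
    apply HeightOneSpectrum.ext
    rw [hm W hW, hm (gpl σ W) (by rw [gpl_under, hW])]
  · intro c hc
    obtain ⟨T, hT, hTc, f, hf, hfR⟩ := rac_inj hβ hR hgen
    have h1 : Nat.card Gal(F/k) = Nat.card T := by
      rw [IsGalois.card_aut_eq_finrank, Nat.card_eq_fintype_card, Fintype.card_coe]
      omega
    have hb : Function.Bijective f := by
      rw [Nat.bijective_iff_injective_and_card]
      exact ⟨hf, h1⟩
    obtain ⟨a, ha, hd⟩ := hT.ex c hc
    obtain ⟨σ, hσ⟩ := hb.2 ⟨a, ha⟩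
    refine ⟨σ, ?_⟩
    rw [hfR σ, hσ]
    exact ((hR.sm_eq_iff c a).2 hd).symm

/-- the inertia groups act trivially at the places prime to `6 D β` -/
theorem nos (W : HeightOneSpectrum (𝓞 F)) (hb : W.valuation F (bD F) = 1)
    (hW : W.valuation F (algebraMap K F (β : K)) = 1) (σ : Gal(F/k))
    (hσ : ∀ x : 𝓞 F, σ • x - x ∈ W.asIdeal) : σ = 1 := by
  apply hgen
  by_contra hne
  have hQ : Ord β (ga σ R) := Ord.ga σ hR
  have hk1 := not_ker_of_val (W.valuation F) hβ hR hW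
  have hk2 := not_ker_of_val (W.valuation F) hβ hQ hW
  obtain ⟨_, hx, hy⟩ := not_ker (W.valuation F) hk1
  have hker : Ker (W.valuation F) (R - ga σ R) := by
    apply red_inj (W.valuation F) hb hk1 hk2
    · rw [xc_ga]
      exact raD_val W σ hσ hx
    · rw [yc_ga]
      exact raD_val W σ hσ hy
  have h0 : sm F β (R - ga σ R) = 0 := by
    rw [map_sub, (hR β).2 dvd_rfl, (hQ β).2 dvd_rfl, sub_zero]
  have hO : Ord β (R - ga σ R) := ord_of_prime hβ h0 (fun h => hne (sub_eq_zero.1 h).symm)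
  exact not_ker_of_val (W.valuation F) hβ hO hW hker

theorem unram (W : HeightOneSpectrum (𝓞 F)) (hb : W.valuation F (bD F) = 1)
    (hW : W.valuation F (algebraMap K F (β : K)) = 1) :
    W.asIdeal.ramificationIdx (𝓞 k) = 1 := by
  have h1 : W.asIdeal.inertia Gal(F/k) = ⊥ := by
    rw [eq_bot_iff]
    intro σ hσ
    rw [Subgroup.mem_bot]
    exact nos hβ hR hgen W hb hW σ (fun x => hσ x)
  have hp0 : W.asIdeal.under (𝓞 k) ≠ ⊥ := (W.under (𝓞 k)).ne_bot
  have hfin : Finite (𝓞 k ⧸ W.asIdeal.under (𝓞 k)) :=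
    Ring.HasFiniteQuotients.finiteQuotient hp0
  have h2 := Ideal.card_inertia_eq_ramificationIdxIn (G := Gal(F/k)) (W.asIdeal.under (𝓞 k))
    W.asIdeal
  rw [Ideal.ramificationIdxIn_eq_ramificationIdx _ W.asIdeal Gal(F/k)] at h2
  rw [← h2, h1]
  exact Nat.card_unique

end

end Pool.Agent.Lib.MP_1a91b9_nuX.DB
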