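import Pool.Agent.Lib.MP_1a91b9_nuX.GM.VExt
import Pool.Agent.Lib.MP_1a91b9_nuT.Base

/-!
# Extension of valuations: the names of GM
-/

set_option autoImplicit false

namespace Pool.Agent.Lib.MP_1a91b9_nuX.DB

export Pool.Agent.Lib.MP_1a91b9_nuX.GM (exists_val_ext val_ext_lt val_ext_eq)

end Pool.Agent.Lib.MP_1a91b9_nuX.DB
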