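import Pool.Agent.Lib.MP_1a91b9_nuX.DB.Ext
import Pool.Agent.Lib.MP_1a91b9_nuX.DB.VExt

/-!
# The kernel of reduction and the points killed by a prime element, good places

PROOF. `distx_any`: `distx` (DB/DistX) needs an embedding `F →ₐ[K] ℂ`; put the coordinates of `P`, `R`, `Rb` in a subfield `L` with `g : L →ₐ[K] ℂ` (`exists_embC`), `P = pm ι P'` etc. with `ι = L.val`
(`mkPt` with coordinates in `L`), `Ord.map ι`, `pm_inj ι`, apply `distx g` to `P'`, `R'`, `Rb'` and map the identity by `ι` (`xc_pm`, `pm_sm`, `map_prod`).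
`aux` (over a field `F` with points `P2`, `P3` with `Ord 2 P2`, `Ord 3 P3`, `v (bD F) = 1`, so `v 2 = v 3 = 1`: `v_two`, `v_three`; `v β < 1`, `β` prime, `Rb` with `Ord β Rb`): `β` is coprime to `2` and `3` (else `β ∣ 2`, `v 2 < 1`).
Take `distx_any` with `P = P2`, `R = P3`: for every `c` (with `S = sm c Rb`, also `S = 0`): `P2 + S`, `P2 + S - P3`, `P2 + S + P3`, `sm β P2`, `sm β P3`, `sm β P2 ± sm β P3`, `P3` are in no kernel: e.g. if `P2 + S ± P3` is in `Ker v`
then (`ker_sm`) `sm (3 β) (P2 + S ± P3) = sm (3 β) P2` is, and it is killed by `2`, `v 2 = 1`, so it is `0` (`ker_torsO`) and `2 ∣ 3 β` (`Ord`), impossible as `2` and `3 β` are coprime and `2` is not a unit.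
So (`x_unit`) `v (xc P2 - xc P3) = 1`, `v (xc (P2 + sm a Rb) - xc P3) = 1`, `v (xc (sm β P2) - xc (sm β P3)) = 1`, and the identity gives
(*) `v β ^ 2 * ∏_{a ∈ T} v (xc (sm a Rb) - xc P3) = 1`.
If `Rb` is not in `Ker v` no `sm a Rb` (`a ∈ T`) is (`Rb = sm b (sm a Rb)`, `ker_sm`), all the factors are `≤ 1` and `v β < 1`: contradiction. So `Rb`, and all `sm a Rb`, are in `Ker v`,
`v (xc (sm a Rb) - xc P3) = v (xc (sm a Rb)) = v (tc (sm a Rb)) ^ (-2)` (`ker_tc`), `v (tc (sm a Rb)) = v (tc Rb)` (`ker_sm_le` both ways), `T.card + 1 = absNorm`: `v β ^ 2 = (v (tc Rb) ^ (q - 1)) ^ 2`, squares are injective.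
`ker_of_val`, `v_tc` over any `F`: `Ω = AlgebraicClosure F`, `B` from `exists_val_ext v`, `P2`, `P3` from `ext_point Ω`, `aux` for the image of `R` in `Pt Ω` (`Ord.map`), then back with `val_ext_lt`, `val_ext_eq` as in
MP_1a91b9_ntX/DB/Ram.lean (`Ram_tr`, on main).
`not_ker_of_val`: `not_ker_torsO`.
`ker_of_sm`: suppose `Q` is not in `Ker v`, `sm β Q` is. Go to `Ω`, `B` as before, with `Rb` (`Ord β Rb`), `P3`. If `sm β Q = 0`, `Q ≠ 0` then `Ord β Q` (`ord_of_prime`) and `ker_of_val`: contradiction. Else `distx_any` with `P = Q`, `R = P3`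
(`xc (sm β Q) ≠ xc (sm β P3)`: one is not integral, the other is): the left hand side has value `≤ 1` (`Q + sm a Rb` is not in the kernel, `not_ker`), the right hand side has value `1 * v (xc (sm β Q)) > 1` by (*).
-/

set_option autoImplicit false

namespace Pool.Agent.Lib.MP_1a91b9_nuX.DB

open NumberField IsDedekindDomain WeierstrassCurve Pool.Agent.Lib.MP_1a91b9_nuT

variable [CD]


section
variable {F : Type*} [Field F] [Algebra K F] [DecidableEq F]

private theorem kers_lift {L : IntermediateField K F} [DecidableEq L] {P : Pt F} (hx : xc P ∈ L)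
    (hy : yc P ∈ L) : ∃ P' : Pt L, pm L.val P' = P := by
  rcases eq_or_ne P 0 with rfl | hP
  · exact ⟨0, map_zero _⟩
  · obtain ⟨h, hP'⟩ := exists_mk hP
    have h' : (⟨yc P, hy⟩ : L) ^ 2 = (⟨xc P, hx⟩ : L) ^ 3 + cA L * (⟨xc P, hx⟩ : L) + cB L := by
      apply L.val.injective
      rw [map_pow, map_add, map_add, map_pow, map_mul, map_intCast, map_intCast]
      exact h
    obtain ⟨h2, e⟩ := pm_mk L.val (⟨xc P, hx⟩ : L) (⟨yc P, hy⟩ : L) h'
    refine ⟨mkPt _ _ h', ?_⟩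
    rw [e]
    exact hP'.symm

end

theorem distx_any {F : Type*} [Field F] [Algebra K F] [DecidableEq F] {β : 𝓞 K}
    (hβ0 : β ≠ 0) {T : Finset (𝓞 K)} (hT : IsRes β T) {Rb : Pt F} (hRb : Ord β Rb)
    {P R : Pt F} (hP : sm F β P ≠ 0) (hR : 2 • sm F β R ≠ 0)
    (hne : xc (sm F β P) ≠ xc (sm F β R)) :
    (xc P - xc R) * ∏ a ∈ T, (xc (P + sm F a Rb) - xc R) =
      algebraMap K F (β : K) ^ 2 * (∏ a ∈ T, (xc (sm F a Rb) - xc R)) *
        (xc (sm F β P) - xc (sm F β R)) := by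
  classical
  obtain ⟨L, g, hL⟩ := exists_embC
    ({xc P, yc P, xc R, yc R, xc Rb, yc Rb} : Finset F)
  have hm : ∀ x ∈ ({xc P, yc P, xc R, yc R, xc Rb, yc Rb} : Finset F), x ∈ L := hL
  simp only [Finset.mem_insert, Finset.mem_singleton, forall_eq_or_imp, forall_eq] at hm
  obtain ⟨m1, m2, m3, m4, m5, m6⟩ := hm
  obtain ⟨P', rfl⟩ := kers_lift m1 m2
  obtain ⟨R', rfl⟩ := kers_lift m3 m4
  obtain ⟨Rb', rfl⟩ := kers_lift m5 m6
  have h1 := distx g hβ0 hT ((Ord.map L.val).1 hRb) (P := P') (R := R')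
    (by
      intro h
      apply hP
      rw [← pm_sm, h, map_zero])
    (by
      intro h
      apply hR
      rw [← pm_sm, ← map_nsmul, h, map_zero])
    (by
      intro h
      apply hne
      rw [← pm_sm, ← pm_sm, xc_pm, xc_pm, h])
  have h2 := congrArg L.val h1
  simp only [map_mul, map_sub, map_prod, map_pow, ← xc_pm, map_add, pm_sm] at h2
  have e : L.val (algebraMap K L (β : K)) = algebraMap K F (β : K) := rfl
  rw [e] at h2
  exact h2

section
variable {F : Type*} [Field F] [Algebra K F] [DecidableEq F] {β : 𝓞 K}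
  {Γ : Type*} [LinearOrderedCommGroupWithZero Γ] (v : Valuation F Γ)
  (hβ : Prime β) {R : Pt F} (hR : Ord β R)

private theorem kers_mul (a b : 𝓞 K) (P : Pt F) : sm F (a * b) P = sm F a (sm F b P) := by
  rw [map_mul]
  rfl

include hβ

/-- the action of the elements prime to `β` is invertible -/
theorem sm_inv (hR : Ord β R) {a : 𝓞 K} (ha : ¬ β ∣ a) : ∃ b : 𝓞 K, sm F b (sm F a R) = R := by
  have hpid : IsPrincipalIdealRing (𝓞 K) := CD.pidK
  obtain ⟨x, y, hxy⟩ := (hβ.irreducible.coprime_iff_not_dvd.2 ha).symm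
  refine ⟨x, ?_⟩
  have h1 : sm F (x * a + y * β) R = R := by
    rw [hxy, map_one]
    rfl
  rw [map_add] at h1
  have h2 : sm F (x * a) R + sm F (y * β) R = R := h1
  rw [kers_mul, kers_mul, (hR β).2 dvd_rfl, map_zero, add_zero] at h2
  exact h2

omit hβ

private theorem kers_nunit {n : ℤ} (hn : 2 ≤ n) : ¬ ((n : ℤ) : 𝓞 K) ∣ 1 := by
  rintro ⟨e, he⟩
  obtain ⟨m, k, rfl⟩ := CD.gen e
  have h1 : ((1 : ℤ) : 𝓞 K) + ((0 : ℤ) : 𝓞 K) * ta =
      ((n * m : ℤ) : 𝓞 K) + ((n * k : ℤ) : 𝓞 K) * ta := by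
    push_cast
    linear_combination he
  obtain ⟨h2, -⟩ := co_unique _ _ _ _ h1
  have h3 : n ∣ 1 := ⟨m, h2⟩
  have h4 := Int.le_of_dvd one_pos h3
  omega

private theorem kers_v (a : 𝓞 K) (hv : v (algebraMap K F (β : K)) < 1)
    (ha : v (algebraMap K F (a : K)) = 1) : ¬ β ∣ a := by
  rintro ⟨c, rfl⟩
  have h1 : algebraMap K F ((β * c : 𝓞 K) : K) =
      algebraMap K F (β : K) * algebraMap K F (c : K) := by
    rw [← map_mul]
    rfl
  rw [h1, map_mul] at ha
  have h2 := v_alg_le v c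
  have h3 : v (algebraMap K F (β : K)) * v (algebraMap K F (c : K)) < 1 :=
    (mul_le_of_le_one_right' h2).trans_lt hv
  exact absurd ha h3.ne

include hβ in
private theorem kers_nd {n m : ℤ} (hn : 2 ≤ n) (hβn : ¬ β ∣ ((n : ℤ) : 𝓞 K))
    (h : ∃ x y : ℤ, x * m + y * n = 1) : ¬ ((n : ℤ) : 𝓞 K) ∣ ((m : ℤ) : 𝓞 K) * β := by
  rintro ⟨d, hd⟩
  obtain ⟨x, y, hxy⟩ := h
  have h1 : β = ((n : ℤ) : 𝓞 K) * (x * d + y * β) := by
    have h2 : ((x * m + y * n : ℤ) : 𝓞 K) = 1 := by rw [hxy]; exact Int.cast_one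
    push_cast at h2
    linear_combination (-β) * h2 + (x : 𝓞 K) * hd
  have h3 : β ∣ ((n : ℤ) : 𝓞 K) * (x * d + y * β) := ⟨1, by rw [mul_one]; exact h1.symm⟩
  rcases hβ.dvd_or_dvd h3 with h4 | ⟨e, he⟩
  · exact hβn h4
  · apply kers_nunit hn
    refine ⟨e, ?_⟩
    rw [he] at h1
    apply mul_left_cancel₀ hβ.ne_zero
    linear_combination h1

omit [DecidableEq F] in
private theorem kers_int (n : ℤ) : algebraMap K F (((n : ℤ) : 𝓞 K) : K) = n := by
  have h1 : (((n : ℤ) : 𝓞 K) : K) = (n : K) := map_intCast (algebraMap (𝓞 K) K) n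
  rw [h1, map_intCast]

/-- a point with a multiple which is a nonzero point of order two is in no kernel -/
private theorem kers_nk (h2v : v (2 : F) = 1) {P2 Y : Pt F} (h2 : Ord (((2 : ℤ) : 𝓞 K)) P2)
    {d e : 𝓞 K} (h : sm F d Y = sm F e P2) (he : ¬ (((2 : ℤ) : 𝓞 K)) ∣ e) : ¬ Ker v Y := by
  intro hY
  have h3 := ker_sm v hY d
  rw [h] at h3
  have h4 : v (algebraMap K F ((((2 : ℤ) : 𝓞 K)) : K)) = 1 := by
    rw [kers_int]
    exact_mod_cast h2v
  have h5 := ker_torsO v h3 h4 (by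
    rw [← kers_mul, mul_comm, kers_mul, (h2 _).2 dvd_rfl, map_zero])
  exact he ((h2 e).1 h5)

include hβ in
private theorem kers_aux (hv : v (algebraMap K F (β : K)) < 1) (hb : v (bD F) = 1)
    {P2 P3 Rb : Pt F} (h2 : Ord (((2 : ℤ) : 𝓞 K)) P2) (h3 : Ord (((3 : ℤ) : 𝓞 K)) P3)
    (hRb : Ord β Rb) {T : Finset (𝓞 K)} (hT : IsRes β T) :
    v (algebraMap K F (β : K)) ^ 2 * ∏ a ∈ T, v (xc (sm F a Rb) - xc P3) = 1 ∧
      ¬ Ker v P3 ∧ 2 • sm F β P3 ≠ 0 ∧ ¬ Ker v (sm F β P3) := by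
  have h2v := v_two v hb
  have h3v := v_three v hb
  have b2 : ¬ β ∣ (((2 : ℤ) : 𝓞 K)) := kers_v v _ hv (by rw [kers_int]; exact_mod_cast h2v)
  have b3 : ¬ β ∣ (((3 : ℤ) : 𝓞 K)) := kers_v v _ hv (by rw [kers_int]; exact_mod_cast h3v)
  have n1 : ¬ (((2 : ℤ) : 𝓞 K)) ∣ (((3 : ℤ) : 𝓞 K)) * β :=
    kers_nd hβ (by norm_num) b2 ⟨1, -1, by norm_num⟩
  have n2 : ¬ (((3 : ℤ) : 𝓞 K)) ∣ (((2 : ℤ) : 𝓞 K)) * β :=
    kers_nd hβ (by norm_num) b3 ⟨-1, 1, by norm_num⟩
  have n3 : ¬ (((3 : ℤ) : 𝓞 K)) ∣ β := fun h => n2 (h.mul_left _)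
  have e3 : sm F (((3 : ℤ) : 𝓞 K)) P3 = 0 := (h3 _).2 dvd_rfl
  have eb : sm F β Rb = 0 := (hRb _).2 dvd_rfl
  -- the points in no kernel
  have k1 : ∀ c m : 𝓞 K, ¬ Ker v (P2 + sm F c Rb + sm F m P3) := by
    intro c m
    refine kers_nk v h2v h2 (d := ((3 : ℤ) : 𝓞 K) * β) (e := ((3 : ℤ) : 𝓞 K) * β) ?_ n1
    have q1 : sm F (((3 : ℤ) : 𝓞 K) * β) (sm F c Rb) = 0 := by
      rw [← kers_mul, show ((3 : ℤ) : 𝓞 K) * β * c = (((3 : ℤ) : 𝓞 K) * c) * β by ring, kers_mul,
        eb, map_zero]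
    have q2 : sm F (((3 : ℤ) : 𝓞 K) * β) (sm F m P3) = 0 := by
      rw [← kers_mul, show ((3 : ℤ) : 𝓞 K) * β * m = (β * m) * ((3 : ℤ) : 𝓞 K) by ring, kers_mul,
        e3, map_zero]
    rw [map_add, map_add, q1, q2, add_zero, add_zero]
  have k2 : ∀ m : 𝓞 K, ¬ Ker v (sm F β P2 + sm F m P3) := by
    intro m
    refine kers_nk v h2v h2 (d := ((3 : ℤ) : 𝓞 K)) (e := ((3 : ℤ) : 𝓞 K) * β) ?_ n1
    rw [map_add, ← kers_mul _ β, ← kers_mul _ m, mul_comm _ m, kers_mul m, e3, map_zero, add_zero]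
  have k3 : ¬ Ker v P3 := by
    refine not_ker_torsO v ?_ (by rw [kers_int]; exact_mod_cast h3v) e3
    rintro rfl
    exact kers_nunit (by norm_num) ((h3 1).1 (map_zero _))
  have k4 : sm F β P3 ≠ 0 := fun h => n3 ((h3 _).1 h)
  have k5 : ¬ Ker v (sm F β P3) := by
    refine not_ker_torsO v k4 (a := ((3 : ℤ) : 𝓞 K)) (by rw [kers_int]; exact_mod_cast h3v) ?_
    rw [← kers_mul, mul_comm, kers_mul, e3, map_zero]
  have m1 : ∀ Q : Pt F, sm F 1 Q = Q := fun Q => by
    rw [map_one]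
    rfl
  have mn : ∀ (Q : Pt F) (m : 𝓞 K), sm F (-m) Q = - sm F m Q := fun Q m => by
    rw [map_neg]
    rfl
  have u1 : ∀ c : 𝓞 K, v (xc (P2 + sm F c Rb) - xc P3) = 1 := by
    intro c
    refine x_unit v hb ?_ k3 ?_ ?_
    · have := k1 c 0
      rwa [map_zero, AddMonoid.End.zero_apply, add_zero] at this
    · have := k1 c (-1)
      rwa [mn, m1, ← sub_eq_add_neg] at this
    · have := k1 c 1
      rwa [m1] at this
  have u2 : v (xc P2 - xc P3) = 1 := by
    have := u1 0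
    rwa [map_zero, AddMonoid.End.zero_apply, add_zero] at this
  have u3 : v (xc (sm F β P2) - xc (sm F β P3)) = 1 := by
    refine x_unit v hb ?_ k5 ?_ ?_
    · have := k2 0
      rwa [map_zero, AddMonoid.End.zero_apply, add_zero] at this
    · have := k2 (-β)
      rwa [mn, ← sub_eq_add_neg] at this
    · exact k2 β
  have k6 : 2 • sm F β P3 ≠ 0 := by
    intro h
    have h4 : sm F (((2 : ℤ) : 𝓞 K) * β) P3 = 0 := by
      rw [kers_mul, sm_int]
      exact_mod_cast h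
    exact n2 ((h3 _).1 h4)
  have key := distx_any hβ.ne_zero hT hRb (P := P2) (R := P3)
    (by
      intro h
      have := k2 0
      rw [map_zero, AddMonoid.End.zero_apply, add_zero, h] at this
      exact this (Or.inl rfl)) k6
    (by
      intro h
      rw [h, sub_self, map_zero] at u3
      exact zero_ne_one u3)
  have key2 := congrArg v key
  rw [map_mul, map_mul, map_mul, map_prod, map_prod, map_pow, u2, u3, one_mul, mul_one,
    Finset.prod_congr rfl (fun a _ => u1 a), Finset.prod_const_one] at key2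
  exact ⟨key2.symm, k3, k6, k5⟩

include hβ in
/-- the points killed by `β`, over a field with points of order two and three -/
private theorem kers_ker (hv : v (algebraMap K F (β : K)) < 1) (hb : v (bD F) = 1)
    {P2 P3 Rb : Pt F} (h2 : Ord (((2 : ℤ) : 𝓞 K)) P2) (h3 : Ord (((3 : ℤ) : 𝓞 K)) P3)
    (hRb : Ord β Rb) : Ker v Rb ∧
      v (tc Rb) ^ (Ideal.absNorm (Ideal.span {β}) - 1) = v (algebraMap K F (β : K)) := by
  obtain ⟨T, hT, hTc⟩ := exists_isRes hβ.ne_zero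
  obtain ⟨hs, k3, -, -⟩ := kers_aux v hβ hv hb h2 h3 hRb hT
  obtain ⟨-, x3, -⟩ := not_ker v k3
  have hK : Ker v Rb := by
    by_contra hn
    have h4 : ∏ a ∈ T, v (xc (sm F a Rb) - xc P3) ≤ 1 := by
      refine Finset.prod_le_one' fun a ha => ?_
      have h5 : ¬ Ker v (sm F a Rb) := by
        intro h6
        obtain ⟨b, hb'⟩ := sm_inv hβ hRb (hT.nz a ha)
        apply hn
        rw [← hb']
        exact ker_sm v h6 b
      obtain ⟨-, h6, -⟩ := not_ker v h5
      exact (v.map_sub _ _).trans (max_le h6 x3)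
    have h7 : v (algebraMap K F (β : K)) ^ 2 < 1 := pow_lt_one' hv two_ne_zero
    have h8 : v (algebraMap K F (β : K)) ^ 2 * ∏ a ∈ T, v (xc (sm F a Rb) - xc P3) < 1 :=
      (mul_le_of_le_one_right' h4).trans_lt h7
    exact absurd hs h8.ne
  refine ⟨hK, ?_⟩
  have hfac : ∀ a ∈ T, v (xc (sm F a Rb) - xc P3) * v (tc Rb) ^ 2 = 1 := by
    intro a ha
    obtain ⟨b, hb'⟩ := sm_inv hβ hRb (hT.nz a ha)
    have h4 := ker_sm v hK a
    have h5 : sm F a Rb ≠ 0 := fun h => hT.nz a ha ((hRb a).1 h)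
    obtain ⟨-, -, h6, -⟩ := ker_tc v h4 h5
    have h7 : v (tc (sm F a Rb)) = v (tc Rb) := by
      refine le_antisymm (ker_sm_le v hK a) ?_
      have h8 := ker_sm_le v h4 b
      rwa [hb'] at h8
    have h9 : 1 < v (xc (sm F a Rb)) := by
      rcases h4 with h4 | h4
      · exact absurd h4 h5
      · exact h4
    rw [Valuation.map_sub_eq_of_lt_left v (x3.trans_lt h9), ← h7]
    exact h6
  have h10 : (∏ a ∈ T, v (xc (sm F a Rb) - xc P3)) * (v (tc Rb) ^ 2) ^ T.card = 1 := by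
    rw [← Finset.prod_const, ← Finset.prod_mul_distrib]
    exact Finset.prod_eq_one hfac
  have h11 : v (algebraMap K F (β : K)) ^ 2 = (v (tc Rb) ^ T.card) ^ 2 := by
    have h12 : v (algebraMap K F (β : K)) ^ 2 *
        ((∏ a ∈ T, v (xc (sm F a Rb) - xc P3)) * (v (tc Rb) ^ 2) ^ T.card) =
        (v (tc Rb) ^ 2) ^ T.card := by
      rw [← mul_assoc, hs, one_mul]
    rw [h10, mul_one] at h12
    rw [h12, ← pow_mul, ← pow_mul, mul_comm]
  have h13 : Ideal.absNorm (Ideal.span {β}) - 1 = T.card := by omega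
  rw [h13]
  exact ((pow_left_inj₀ zero_le zero_le two_ne_zero).1 h11).symm

private theorem kers_beta (hβ : β ≠ 0) : algebraMap K F (β : K) ≠ 0 := by
  rw [Ne, map_eq_zero_iff _ (algebraMap K F).injective]
  intro h0
  exact hβ (RingOfIntegers.ext h0)

omit hβ hR [DecidableEq F] in
/-- the algebraic closure, with an extension of the valuation -/
private theorem kers_alg : ∃ B : ValuationSubring (AlgebraicClosure F),
    (∀ x : F, B.valuation (algebraMap F (AlgebraicClosure F) x) ≤ 1 ↔ v x ≤ 1) :=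
  exists_val_ext (F' := AlgebraicClosure F) v

private theorem kers_tr {F' : Type*} [Field F'] [Algebra K F'] [DecidableEq F'] {Γ' : Type*}
    [LinearOrderedCommGroupWithZero Γ'] (v' : Valuation F' Γ') (f : F →ₐ[K] F')
    (h : ∀ x : F, v' (f x) ≤ 1 ↔ v x ≤ 1) (P : Pt F) : Ker v' (pm f P) ↔ Ker v P := by
  unfold Ker
  rw [xc_pm, map_eq_zero_iff _ (pm_inj f), ← not_le, ← not_le, h]

private theorem kers_trb {F' : Type*} [Field F'] [Algebra K F'] {Γ' : Type*}
    [LinearOrderedCommGroupWithZero Γ'] (v' : Valuation F' Γ') (f : F →ₐ[K] F')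
    (h : ∀ x : F, v' (f x) ≤ 1 ↔ v x ≤ 1) (x : F) :
    (v' (f x) < 1 ↔ v x < 1) ∧ (v' (f x) = 1 ↔ v x = 1) := by
  let _ : Algebra F F' := f.toRingHom.toAlgebra
  exact ⟨val_ext_lt v v' h x, val_ext_eq v v' h x⟩

omit hβ hR [DecidableEq F] in
private theorem kers_two {n : ℤ} (hn : 2 ≤ n) : ((n : ℤ) : 𝓞 K) ≠ 0 := by
  rw [Ne, Int.cast_eq_zero]
  omega

include hβ

omit [DecidableEq F] in
private theorem kers_setup [DecidableEq (AlgebraicClosure F)]
    (hv : v (algebraMap K F (β : K)) < 1) (hb : v (bD F) = 1) :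
    ∃ B : ValuationSubring (AlgebraicClosure F),
      (∀ x : F, B.valuation (IsScalarTower.toAlgHom K F (AlgebraicClosure F) x) ≤ 1 ↔ v x ≤ 1) ∧
      B.valuation (algebraMap K (AlgebraicClosure F) (β : K)) < 1 ∧
      B.valuation (bD (AlgebraicClosure F)) = 1 ∧
      ∃ P2 P3 Rb : Pt (AlgebraicClosure F), Ord (((2 : ℤ) : 𝓞 K)) P2 ∧
        Ord (((3 : ℤ) : 𝓞 K)) P3 ∧ Ord β Rb := by
  obtain ⟨B, hB⟩ := kers_alg v
  obtain ⟨P2, h2⟩ := ext_point (AlgebraicClosure F) (β := ((2 : ℤ) : 𝓞 K)) (kers_two (le_refl 2))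
  obtain ⟨P3, h3⟩ := ext_point (AlgebraicClosure F) (β := ((3 : ℤ) : 𝓞 K))
    (kers_two (by norm_num))
  obtain ⟨Rb, h4⟩ := ext_point (AlgebraicClosure F) hβ.ne_zero
  refine ⟨B, hB, ?_, ?_, P2, P3, Rb, h2, h3, h4⟩
  · rw [IsScalarTower.algebraMap_apply K F (AlgebraicClosure F)]
    exact (val_ext_lt v B.valuation hB _).2 hv
  · have e : bD (AlgebraicClosure F) = algebraMap F (AlgebraicClosure F) (bD F) :=
      (map_intCast _ _).symm
    rw [e]
    exact (val_ext_eq v B.valuation hB _).2 hb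

private theorem kers_all (hR : Ord β R) (hv : v (algebraMap K F (β : K)) < 1)
    (hb : v (bD F) = 1) : Ker v R ∧
    v (tc R) ^ (Ideal.absNorm (Ideal.span {β}) - 1) = v (algebraMap K F (β : K)) := by
  classical
  obtain ⟨B, hB, hv', hb', P2, P3, -, h2, h3, -⟩ := kers_setup v hβ hv hb
  set f : F →ₐ[K] AlgebraicClosure F := IsScalarTower.toAlgHom K F (AlgebraicClosure F) with hf
  obtain ⟨k1, k2⟩ := kers_ker B.valuation hβ hv' hb' h2 h3 ((Ord.map f).2 hR)
  refine ⟨(kers_tr v B.valuation f hB R).1 k1, ?_⟩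
  have e : algebraMap K (AlgebraicClosure F) (β : K) = f (algebraMap K F (β : K)) :=
    IsScalarTower.algebraMap_apply K F (AlgebraicClosure F) _
  have hβ0 := kers_beta (F := F) hβ.ne_zero
  have h1 : B.valuation (f (tc R ^ (Ideal.absNorm (Ideal.span {β}) - 1) /
      algebraMap K F (β : K))) = 1 := by
    rw [map_div₀, map_div₀, map_pow, map_pow, ← tc_pm, k2, e]
    refine div_self ((Valuation.ne_zero_iff _).2 ?_)
    rwa [Ne, map_eq_zero]
  have h4 := (kers_trb v B.valuation f hB _).2.1 h1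
  rw [map_div₀, map_pow] at h4
  rwa [div_eq_one_iff_eq ((Valuation.ne_zero_iff v).2 hβ0)] at h4

theorem ker_of_val (hR : Ord β R) (hv : v (algebraMap K F (β : K)) < 1) (hb : v (bD F) = 1) :
    Ker v R :=
  (kers_all v hβ hR hv hb).1

theorem not_ker_of_val (hR : Ord β R) (hv : v (algebraMap K F (β : K)) = 1) : ¬ Ker v R := by
  refine not_ker_torsO v ?_ hv ((hR β).2 dvd_rfl)
  rintro rfl
  exact hβ.not_isUnit (isUnit_of_dvd_one ((hR 1).1 (map_zero _)))

theorem v_tc (hR : Ord β R) (hv : v (algebraMap K F (β : K)) < 1) (hb : v (bD F) = 1) :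
    v (tc R) ^ (Ideal.absNorm (Ideal.span {β}) - 1) = v (algebraMap K F (β : K)) :=
  (kers_all v hβ hR hv hb).2

/-- a point whose multiple by `β` is in the kernel of reduction at a place above `β` -/
theorem ker_of_sm (hv : v (algebraMap K F (β : K)) < 1) (hb : v (bD F) = 1) {Q : Pt F}
    (h : Ker v (sm F β Q)) : Ker v Q := by
  classical
  obtain ⟨B, hB, hv', hb', P2, P3, Rb, h2, h3, h4⟩ := kers_setup v hβ hv hb
  set f : F →ₐ[K] AlgebraicClosure F := IsScalarTower.toAlgHom K F (AlgebraicClosure F) with hf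
  rw [← kers_tr v B.valuation f hB]
  rw [← kers_tr v B.valuation f hB, pm_sm] at h
  by_contra hn
  obtain ⟨k1, -⟩ := kers_ker B.valuation hβ hv' hb' h2 h3 h4
  obtain ⟨T, hT, -⟩ := exists_isRes hβ.ne_zero
  obtain ⟨hs, k3, k6, k5⟩ := kers_aux B.valuation hβ hv' hb' h2 h3 h4 hT
  obtain ⟨-, x3, -⟩ := not_ker B.valuation k3
  obtain ⟨-, x5, -⟩ := not_ker B.valuation k5
  obtain ⟨-, x1, -⟩ := not_ker B.valuation hn
  set Q' := pm f Q with hQ'
  rcases h with h | h
  · have h5 : Q' ≠ 0 := by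
      intro h0
      exact hn (Or.inl h0)
    exact hn (kers_ker B.valuation hβ hv' hb' h2 h3 (ord_of_prime hβ h h5)).1
  · have h6 : B.valuation (xc (sm _ β Q') - xc (sm _ β P3)) = B.valuation (xc (sm _ β Q')) :=
      Valuation.map_sub_eq_of_lt_left _ (x5.trans_lt h)
    have key := distx_any hβ.ne_zero hT h4 (P := Q') (R := P3)
      (by
        intro h0
        rw [h0] at h
        have e0 : xc (0 : Pt (AlgebraicClosure F)) = 0 := rfl
        rw [e0, map_zero] at h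
        exact absurd h (not_lt.2 zero_le_one)) k6
      (by
        intro h0
        rw [h0] at h
        exact absurd h (not_lt.2 x5))
    have key2 := congrArg B.valuation key
    rw [map_mul, map_mul, map_mul, map_prod, map_prod, map_pow, hs, one_mul, h6] at key2
    have h7 : ∀ a ∈ T, B.valuation (xc (Q' + sm _ a Rb) - xc P3) ≤ 1 := by
      intro a _
      have h8 : ¬ Ker B.valuation (Q' + sm _ a Rb) := by
        intro h9
        have h10 := ker_sub B.valuation h9 (ker_sm B.valuation k1 a)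
        rw [add_sub_cancel_right] at h10
        exact hn h10
      obtain ⟨-, h9, -⟩ := not_ker B.valuation h8
      exact (B.valuation.map_sub _ _).trans (max_le h9 x3)
    have h11 := Finset.prod_le_one' h7
    have h12 : B.valuation (xc Q' - xc P3) ≤ 1 := (B.valuation.map_sub _ _).trans (max_le x1 x3)
    rw [← key2] at h
    exact absurd h (not_lt.2 (mul_le_one' h12 h11))

end

end Pool.Agent.Lib.MP_1a91b9_nuX.DB
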