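import Pool.Agent.Lib.MP_1a91b9_nuT.S3.Grp
import Pool.Agent.Lib.MP_1a91b9_nuX.DB.Defs

/-!
# DB: the uniformisation `ℂ / (ℤ + ℤ zt) ≅ E(ℂ)`
-/

set_option autoImplicit false

namespace Pool.Agent.Lib.MP_1a91b9_nuX.DB

open NumberField IsDedekindDomain WeierstrassCurve Pool.Agent.Lib.MP_1a91b9_nuT S3

variable [CD]

theorem mk_uni {z : ℂ} (hz : z ∉ PP.lattice) :
    (Y z / 2) ^ 2 = X z ^ 3 + cA ℂ * X z + cB ℂ := by
  linear_combination (1 / 4) * Y_sq hz

open Filter Topology Ell in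
private theorem una_line {z w : ℂ} (hz : z ∉ PP.lattice) (hw : w ∉ PP.lattice)
    (h1 : z - w ∉ PP.lattice) (h2 : z + w ∉ PP.lattice) :
    Y z - Y w = 2 * sl z w * (X z - X w) ∧
    -Y (z + w) = 2 * sl z w * X (z + w) + (Y z - 2 * sl z w * X z) ∧
    X z * X w + X z * X (z + w) + X w * X (z + w) =
      cA ℂ - sl z w * (Y z - 2 * sl z w * X z) ∧
    4 * (X z * X w * X (z + w)) = (Y z - 2 * sl z w * X z) ^ 2 - 4 * cB ℂ := by
  have cX : ∀ {u : ℂ}, u ∉ PP.lattice → ContinuousAt X u := fun hu =>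
    (hasDerivAt_P hu).continuousAt.div_const _
  have cY : ∀ {u : ℂ}, u ∉ PP.lattice → ContinuousAt Y u := fun {u} hu =>
    (PP.analyticOnNhd_derivWeierstrassP u hu).continuousAt.div_const _
  -- the moving points
  obtain ⟨f, hf⟩ : ∃ f : ℂ → ℂ, f = fun t => t - (z - w) := ⟨_, rfl⟩
  have hfz : f z = w := by rw [hf]; simp
  have hfc : ContinuousAt f z := by rw [hf]; fun_prop
  have hgc : ContinuousAt (fun t => t + f t) z := continuousAt_id.add hfc
  have hgz : z + f z = z + w := by rw [hfz]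
  have htf : Tendsto f (𝓝[≠] z) (𝓝[≠] w) := by
    have h := tendsto_sub_ne z (z - w)
    rw [sub_sub_cancel] at h
    rw [hf]
    exact h
  have ev1 : ∀ᶠ t in 𝓝[≠] z, 2 * t ∉ PP.lattice := eventually_mul_notMem two_ne_zero z
  have ev2 : ∀ᶠ t in 𝓝[≠] z, 2 * f t ∉ PP.lattice :=
    htf.eventually (eventually_mul_notMem two_ne_zero w)
  have ev3 : ∀ᶠ t in 𝓝[≠] z, t + f t ∉ PP.lattice := by
    have ho : IsOpen ((PP.lattice : Set ℂ)ᶜ) := isOpen_compl
    have hm : ((PP.lattice : Set ℂ)ᶜ) ∈ 𝓝 (z + f z) := by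
      rw [hgz]
      exact ho.mem_nhds h2
    exact (hgc.tendsto.eventually (p := fun x => x ∈ ((PP.lattice : Set ℂ)ᶜ)) hm).filter_mono
      nhdsWithin_le_nhds
  have ev4 : ∀ t, t - f t ∉ PP.lattice := by
    intro t
    rw [hf]
    simpa using h1
  have key : ∀ᶠ t in 𝓝[≠] z,
      (Y t - Y (f t) = 2 * sl t (f t) * (X t - X (f t))) ∧
      (-Y (t + f t) = 2 * sl t (f t) * X (t + f t) + (Y t - 2 * sl t (f t) * X t)) ∧
      (X t * X (f t) + X t * X (t + f t) + X (f t) * X (t + f t) =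
        cA ℂ - sl t (f t) * (Y t - 2 * sl t (f t) * X t)) ∧
      (4 * (X t * X (f t) * X (t + f t)) =
        (Y t - 2 * sl t (f t) * X t) ^ 2 - 4 * cB ℂ) := by
    filter_upwards [ev1, ev2, ev3] with t e1 e2 e3
    have hX : X t ≠ X (f t) := by
      intro h
      have hP : PP.weierstrassP t = PP.weierstrassP (f t) := by
        rw [X, X] at h
        have := Om_ne_zero
        field_simp at h
        exact h
      rcases Per.P_inj e2 (notMem_of_two_mul e1) hP with h' | h'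
      · exact ev4 t h'
      · exact e3 h'
    obtain ⟨l1, l2, l3⟩ := line_chord e1 e2 (ev4 t) e3 hX
    exact ⟨chord e1 e2 (ev4 t) e3, l1, l2, l3⟩
  have c1 : ContinuousAt (fun t => X t) z := cX hz
  have c2 : ContinuousAt (fun t => Y t) z := cY hz
  have c3 : ContinuousAt (fun t => X (f t)) z :=
    ContinuousAt.comp (g := X) (by rw [hfz]; exact cX hw) hfc
  have c4 : ContinuousAt (fun t => Y (f t)) z :=
    ContinuousAt.comp (g := Y) (by rw [hfz]; exact cY hw) hfc
  have c5 : ContinuousAt (fun t => X (t + f t)) z :=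
    ContinuousAt.comp (g := X) (f := fun t => t + f t) (by rw [hgz]; exact cX h2) hgc
  have c6 : ContinuousAt (fun t => Y (t + f t)) z :=
    ContinuousAt.comp (g := Y) (f := fun t => t + f t) (by rw [hgz]; exact cY h2) hgc
  have c7 : ContinuousAt (fun t => sl t (f t)) z := by
    have d1 : ContinuousAt (fun t => E1 (t + f t)) z :=
      ContinuousAt.comp (g := E1) (f := fun t => t + f t)
        (by rw [hgz]; exact continuousAt_E1 h2) hgc
    have d2 : ContinuousAt (fun t => E1 t) z := continuousAt_E1 hz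
    have d3 : ContinuousAt (fun t => E1 (f t)) z :=
      ContinuousAt.comp (g := E1) (by rw [hfz]; exact continuousAt_E1 hw) hfc
    exact ((d1.sub d2).sub d3).div_const _
  have lim : ∀ F G : ℂ → ℂ, ContinuousAt F z → ContinuousAt G z →
      (∀ᶠ t in 𝓝[≠] z, F t = G t) → F z = G z := fun F G hF hG hFG =>
    tendsto_nhds_unique_of_eventuallyEq (hF.tendsto.mono_left nhdsWithin_le_nhds)
      (hG.tendsto.mono_left nhdsWithin_le_nhds) hFG
  refine ⟨?_, ?_, ?_, ?_⟩
  · have h := lim (fun t => Y t - Y (f t)) (fun t => 2 * sl t (f t) * (X t - X (f t)))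
      (c2.sub c4) ((continuousAt_const.mul c7).mul (c1.sub c3)) (key.mono fun t ht => ht.1)
    simpa only [hfz] using h
  · have h := lim (fun t => -Y (t + f t))
      (fun t => 2 * sl t (f t) * X (t + f t) + (Y t - 2 * sl t (f t) * X t))
      c6.neg (((continuousAt_const.mul c7).mul c5).add
        (c2.sub ((continuousAt_const.mul c7).mul c1))) (key.mono fun t ht => ht.2.1)
    simpa only [hfz] using h
  · have h := lim (fun t => X t * X (f t) + X t * X (t + f t) + X (f t) * X (t + f t))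
      (fun t => cA ℂ - sl t (f t) * (Y t - 2 * sl t (f t) * X t))
      (((c1.mul c3).add (c1.mul c5)).add (c3.mul c5))
      (continuousAt_const.sub (c7.mul (c2.sub ((continuousAt_const.mul c7).mul c1))))
      (key.mono fun t ht => ht.2.2.1)
    simpa only [hfz] using h
  · have h := lim (fun t => 4 * (X t * X (f t) * X (t + f t)))
      (fun t => (Y t - 2 * sl t (f t) * X t) ^ 2 - 4 * cB ℂ)
      (continuousAt_const.mul ((c1.mul c3).mul c5))
      (((c2.sub ((continuousAt_const.mul c7).mul c1)).pow 2).sub continuousAt_const)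
      (key.mono fun t ht => ht.2.2.2)
    simpa only [hfz] using h

open Ell in
private theorem una_ne {z w : ℂ} (hz : z ∉ PP.lattice) (hw : w ∉ PP.lattice)
    (h1 : z - w ∉ PP.lattice) (h2 : z + w ∉ PP.lattice) : X z ≠ X w := by
  intro h
  have hP : PP.weierstrassP z = PP.weierstrassP w := by
    rw [X, X] at h
    have := Om_ne_zero
    field_simp at h
    exact h
  by_cases hw2 : 2 * w ∈ PP.lattice
  · by_cases hz2 : 2 * z ∈ PP.lattice
    · obtain ⟨-, hB, hC, hD⟩ := una_line hz hw h1 h2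
      have hY1 : Y z = 0 := by rw [Y, Q_half hz2, zero_div]
      have hzw : 2 * (z + w) ∈ PP.lattice := by
        rw [mul_add]; exact add_mem hz2 hw2
      have hY3 : Y (z + w) = 0 := by rw [Y, Q_half hzw, zero_div]
      have hs := sl_sq hz hw h2
      rw [hY1] at hB hC hD
      rw [hY3] at hB
      rw [← h] at hs hC hD
      have h3 : sl z w * (X (z + w) - X z) = 0 := by linear_combination -hB / 2
      refine dsc_ne (F := ℂ) ?_
      rcases mul_eq_zero.1 h3 with h4 | h4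
      · rw [h4] at hs hC hD
        have h5 : X (z + w) = -2 * X z := by linear_combination hs
        rw [h5] at hC hD
        have h6 : cA ℂ = -3 * X z ^ 2 := by linear_combination -hC
        have h7 : cB ℂ = 2 * X z ^ 3 := by linear_combination hD / 4
        rw [h6, h7]
        ring
      · have h5 : X (z + w) = X z := by linear_combination h4
        rw [h5] at hs hC hD
        have h6 : cA ℂ = -3 * X z ^ 2 := by linear_combination -hC + 2 * X z * hs
        have h7 : cB ℂ = 2 * X z ^ 3 := by linear_combination hD / 4 - X z ^ 2 * hs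
        rw [h6, h7]
        ring
    · rcases Per.P_inj hz2 hw hP.symm with h' | h'
      · exact h1 (by simpa using neg_mem h')
      · exact h2 (by rwa [add_comm])
  · rcases Per.P_inj hw2 hz hP with h' | h'
    · exact h1 h'
    · exact h2 h'

theorem add_generic {z w : ℂ} (hz : z ∉ PP.lattice) (hw : w ∉ PP.lattice)
    (h1 : z - w ∉ PP.lattice) (h2 : z + w ∉ PP.lattice) : X z ≠ X w ∧
    X (z + w) = ((Y z - Y w) / (2 * (X z - X w))) ^ 2 - X z - X w ∧
    Y (z + w) / 2 = -((Y z - Y w) / (2 * (X z - X w)) * (X (z + w) - X z) + Y z / 2) := by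
  have hX := una_ne hz hw h1 h2
  obtain ⟨hA, hB, -⟩ := una_line hz hw h1 h2
  have hs := Ell.sl_sq hz hw h2
  have hX0 : X z - X w ≠ 0 := sub_ne_zero.2 hX
  have hsl : (Y z - Y w) / (2 * (X z - X w)) = Ell.sl z w := by
    rw [hA]
    field_simp
  refine ⟨hX, ?_, ?_⟩
  · rw [hsl]
    linear_combination hs
  · rw [hsl]
    linear_combination (-1 / 2) * hB

theorem add_double {z : ℂ} (hz : 2 * z ∉ PP.lattice) : Y z ≠ 0 ∧
    X (2 * z) = ((3 * X z ^ 2 + cA ℂ) / Y z) ^ 2 - X z - X z ∧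
    Y (2 * z) / 2 = -((3 * X z ^ 2 + cA ℂ) / Y z * (X (2 * z) - X z) + Y z / 2) := by
  have hY : Y z ≠ 0 := by
    rw [Y]
    exact div_ne_zero (Per.Q_ne hz) (pow_ne_zero 3 Om_ne_zero)
  have hl := Ell.line_tangent hz
  have hs := Ell.tangent hz
  have hz1 := notMem_of_two_mul hz
  have e := Ell.sl_sq hz1 hz1 (by rwa [← two_mul])
  have h1 : (3 * X z ^ 2 + cA ℂ) / Y z = Ell.sl z z := by
    rw [← hs]
    field_simp
  rw [← two_mul z] at e hl
  refine ⟨hY, ?_, ?_⟩
  · rw [h1]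
    linear_combination e
  · rw [h1]
    linear_combination (-1 / 2) * hl

private theorem unb_fun [DecidableEq ℂ] : ∃ u : ℂ → Pt ℂ, (∀ z ∈ PP.lattice, u z = 0) ∧
    ∀ (z : ℂ) (hz : z ∉ PP.lattice), u z = mkPt (X z) (Y z / 2) (mk_uni hz) := by
  classical
  exact ⟨fun z => if hz : z ∈ PP.lattice then 0 else mkPt (X z) (Y z / 2) (mk_uni hz),
    fun z hz => dif_pos hz, fun z hz => dif_neg hz⟩

private theorem unb_per [DecidableEq ℂ] {u : ℂ → Pt ℂ} (h0 : ∀ z ∈ PP.lattice, u z = 0)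
    (h1 : ∀ (z : ℂ) (hz : z ∉ PP.lattice), u z = mkPt (X z) (Y z / 2) (mk_uni hz))
    {l : ℂ} (hl : l ∈ PP.lattice) (z : ℂ) : u (z + l) = u z := by
  by_cases hz : z ∈ PP.lattice
  · rw [h0 z hz, h0 (z + l) (add_mem hz hl)]
  · have hz' : z + l ∉ PP.lattice := fun h => hz (by simpa using sub_mem h hl)
    rw [h1 z hz, h1 (z + l) hz', mk_inj, Ell.X_add hl, Ell.Y_add hl]
    exact ⟨rfl, rfl⟩

private theorem unb_neg [DecidableEq ℂ] {u : ℂ → Pt ℂ} (h0 : ∀ z ∈ PP.lattice, u z = 0)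
    (h1 : ∀ (z : ℂ) (hz : z ∉ PP.lattice), u z = mkPt (X z) (Y z / 2) (mk_uni hz))
    (z : ℂ) : u (-z) = -u z := by
  by_cases hz : z ∈ PP.lattice
  · rw [h0 z hz, h0 (-z) (neg_mem hz), neg_zero]
  · have hz' : -z ∉ PP.lattice := fun h => hz (by simpa using neg_mem h)
    rw [h1 z hz, h1 (-z) hz', neg_mk, mk_inj, Ell.X_neg, Ell.Y_neg]
    refine ⟨rfl, ?_⟩
    ring

private theorem unb_add [DecidableEq ℂ] {u : ℂ → Pt ℂ} (h0 : ∀ z ∈ PP.lattice, u z = 0)
    (h1 : ∀ (z : ℂ) (hz : z ∉ PP.lattice), u z = mkPt (X z) (Y z / 2) (mk_uni hz))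
    (z w : ℂ) : u (z + w) = u z + u w := by
  by_cases hw : w ∈ PP.lattice
  · rw [unb_per h0 h1 hw, h0 w hw, add_zero]
  by_cases hz : z ∈ PP.lattice
  · rw [add_comm z w, unb_per h0 h1 hz, h0 z hz, zero_add]
  by_cases hs : z + w ∈ PP.lattice
  · have e1 : u w = -u z := by
      rw [← unb_neg h0 h1 z, ← unb_per h0 h1 hs (-z)]
      congr 1
      ring
    rw [h0 _ hs, e1, add_neg_cancel]
  by_cases hd : z - w ∈ PP.lattice
  · have e1 : u z = u w := by
      rw [← unb_per h0 h1 hd w]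
      congr 1
      ring
    have e2 : u (z + w) = u (2 * w) := by
      rw [← unb_per h0 h1 hd (2 * w)]
      congr 1
      ring
    have h2 : 2 * w ∉ PP.lattice := by
      intro h
      apply hs
      have h3 := add_mem h hd
      have h4 : 2 * w + (z - w) = z + w := by ring
      rwa [h4] at h3
    obtain ⟨hY, hX2, hY2⟩ := add_double h2
    have h5 : 2 * (Y w / 2) = Y w := by ring
    obtain ⟨h', e3⟩ := mk_dbl (X w) (Y w / 2) (mk_uni hw)
      (fun h0 => hY (by rw [← h5, h0, mul_zero]))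
    rw [e2, e1, h1 w hw, h1 (2 * w) h2, e3, mk_inj, h5]
    refine ⟨hX2, ?_⟩
    rw [← hX2]
    exact hY2
  · obtain ⟨hne, hXs, hYs⟩ := add_generic hz hw hd hs
    obtain ⟨h', e3⟩ := mk_add (X z) (Y z / 2) (X w) (Y w / 2) (mk_uni hz) (mk_uni hw) hne
    have h6 : (Y z / 2 - Y w / 2) / (X z - X w) = (Y z - Y w) / (2 * (X z - X w)) := by
      have h7 : X z - X w ≠ 0 := sub_ne_zero.mpr hne
      field_simp
    rw [h1 z hz, h1 w hw, h1 (z + w) hs, e3, mk_inj, h6]
    refine ⟨hXs, ?_⟩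
    rw [← hXs]
    exact hYs

/-- the uniformisation as a homomorphism -/
theorem exists_uniA [DecidableEq ℂ] : ∃ u : ℂ →+ Pt ℂ, Function.Surjective u ∧
    (∀ z, u z = 0 ↔ z ∈ PP.lattice) ∧
    (∀ z, z ∉ PP.lattice → xc (u z) = X z ∧ yc (u z) = Y z / 2) := by
  obtain ⟨u0, h0, h1⟩ := unb_fun
  obtain ⟨u, hu⟩ : ∃ u : ℂ →+ Pt ℂ, ∀ z, u z = u0 z :=
    ⟨AddMonoidHom.mk' u0 (unb_add h0 h1), fun _ => rfl⟩
  have hO := Om_ne_zero
  refine ⟨u, ?_, ?_, ?_⟩
  · intro Q
    rcases cases_pt Q with rfl | ⟨x, y, h, rfl⟩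
    · exact ⟨0, map_zero u⟩
    · obtain ⟨z, hz, hPz⟩ := Per.P_surj (x * Om ^ 2)
      have hX : X z = x := by
        rw [X, hPz]
        field_simp
      have hsq : (Y z - 2 * y) * (Y z + 2 * y) = 0 := by
        have h2 := Y_sq hz
        rw [hX] at h2
        linear_combination h2 - 4 * h
      rcases mul_eq_zero.mp hsq with h3 | h3
      · refine ⟨z, ?_⟩
        rw [hu, h1 z hz, mk_inj]
        refine ⟨hX, ?_⟩
        linear_combination h3 / 2
      · refine ⟨-z, ?_⟩
        rw [hu, unb_neg h0 h1, h1 z hz, neg_mk, mk_inj]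
        refine ⟨hX, ?_⟩
        linear_combination -h3 / 2
  · intro z
    rw [hu]
    constructor
    · intro h
      by_contra hz
      rw [h1 z hz] at h
      exact mk_ne_zero _ _ _ h
    · exact h0 z
  · intro z hz
    rw [hu, h1 z hz]
    exact ⟨rfl, rfl⟩

end Pool.Agent.Lib.MP_1a91b9_nuX.DB
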