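import Pool.Agent.Lib.MP_1a91b9_nuT.DB.TrD
import Pool.Agent.Lib.MP_1a91b9_nuT.DB.UnAlg
import Pool.Agent.Lib.MP_1a91b9_nuT.DB.UnMin
import Pool.Agent.Lib.MP_1a91b9_nuT.DB.ThA
import Pool.Agent.Lib.MP_1a91b9_nuT.DB.Dens
import Pool.Agent.Lib.MP_1a91b9_nuT.DB.Cl

/-!
# Names of MP_1a91b9_nuT/DB which do not depend on the curve
-/

set_option autoImplicit false

namespace Pool.Agent.Lib.MP_1a91b9_nuX.DB

export Pool.Agent.Lib.MP_1a91b9_nuT.DB (od od_one od_mul od_inv od_pow od_zpow od_prod val_eq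
  val_lt_one_iff val_le_one_iff val_eq_one_iff val_le_val_iff od_eq_ord od_finite exists_od_one
  exists_unit_of_od exists_val_lt_of_int od_map ramIdx_pos val_map_lt val_map_le val_map_eq gpl
  gpl_val gpl_od gpl_mul gpl_one gpl_under gpl_trans od_norm PrincZero autZ_res od_gen thaine
  exists_kummer not_pow_up dvd_nrm spl_of_pow rc_of_princ exists_place)

export Pool.Agent.Lib.MP_1a91b9_nuT.DB (dv dv_apply CC finite_cc tauD tauD_apply tauD_dv tauC
  tauC_single naka exists_fun IsRes El el el_surj el_mul el_one el_inv el_zpow el_pow el_prod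
  el_eq_zero el_eq nsmul_el zsmul_el el_coprime pow_coprime sg sg_coe sg_mul sg_pow sg_inv sg_sg
  WLoc mem_all_integral exists_emb raD_gpl raD_val exists_prim exists_isRes isRes_deg1 Deg1
  Deg1.exists_int Deg1.dvd_int_iff Deg1.isPrime TrD exists_trD TrD.zero TrD.sum_zero TrD.reindex
  exists_primgen det_quad card_le_of_det inf_places unit_rank)

end Pool.Agent.Lib.MP_1a91b9_nuX.DB
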