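import Pool.Agent.Lib.MP_1a91b9_nuX.DB.KerS

/-!
# The multiplication by a prime element modulo a place above it

`(x(Q) - x(R)) ^ q` is congruent to `u (x(β Q) - x(β R))` with a unit `u` which does not depend on the points.
-/

set_option autoImplicit false

namespace Pool.Agent.Lib.MP_1a91b9_nuX.DB

open NumberField IsDedekindDomain WeierstrassCurve Pool.Agent.Lib.MP_1a91b9_nuT

variable [CD]

section
variable {F : Type*} [Field F] {Γ : Type*} [LinearOrderedCommGroupWithZero Γ]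
  (v : Valuation F Γ)

omit [CD] in
/-- congruent products -/
theorem frb_prod {ι : Type*} (T : Finset ι) (f g : ι → F) (hf : ∀ a ∈ T, v (f a) ≤ 1)
    (hg : ∀ a ∈ T, v (g a) ≤ 1) (h : ∀ a ∈ T, v (f a - g a) < 1) :
    v (∏ a ∈ T, f a - ∏ a ∈ T, g a) < 1 := by
  classical
  induction T using Finset.induction_on with
  | empty =>
    rw [Finset.prod_empty, Finset.prod_empty, sub_self, map_zero]
    exact zero_lt_one
  | insert a T ha ih =>
    rw [Finset.prod_insert ha, Finset.prod_insert ha]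
    have h1 := ih (fun b hb => hf b (Finset.mem_insert_of_mem hb))
      (fun b hb => hg b (Finset.mem_insert_of_mem hb))
      (fun b hb => h b (Finset.mem_insert_of_mem hb))
    have h2 : v (∏ b ∈ T, f b) ≤ 1 := by
      rw [map_prod]
      exact Finset.prod_le_one' fun b hb => hf b (Finset.mem_insert_of_mem hb)
    have e : f a * ∏ b ∈ T, f b - g a * ∏ b ∈ T, g b =
        (f a - g a) * ∏ b ∈ T, f b + g a * (∏ b ∈ T, f b - ∏ b ∈ T, g b) := by ring
    rw [e]
    refine v.map_add_lt ?_ ?_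
    · rw [map_mul]
      exact (mul_le_of_le_one_right' h2).trans_lt (h a (Finset.mem_insert_self a T))
    · rw [map_mul]
      exact (mul_le_of_le_one_left' (hg a (Finset.mem_insert_self a T))).trans_lt h1

omit [CD] in
/-- congruent powers -/
theorem frb_pow {a c : F} (ha : v a ≤ 1) (hc : v c ≤ 1) (h : v (a - c) < 1) (q : ℕ) :
    v (a ^ q - c ^ q) < 1 := by
  have h1 := frb_prod v (Finset.range q) (fun _ => a) (fun _ => c) (fun _ _ => ha)
    (fun _ _ => hc) (fun _ _ => h)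
  rwa [Finset.prod_const, Finset.prod_const, Finset.card_range] at h1

end

section
variable {F : Type*} [Field F] [Algebra K F] [DecidableEq F] {β : 𝓞 K}
  {Γ : Type*} [LinearOrderedCommGroupWithZero Γ] (v : Valuation F Γ) (hβ : Prime β)
  (hv : v (algebraMap K F (β : K)) < 1) (hb : v (bD F) = 1)
include hβ hv hb

/-- the multiplication by `β` does not lead into the kernel -/
theorem not_ker_sm {Q : Pt F} (hQ : ¬ Ker v Q) : ¬ Ker v (sm F β Q) :=
  fun h => hQ (ker_of_sm v hβ hv hb h)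

/-- the unit `u` -/
theorem frb_unit {Rb : Pt F} (hRb : Ord β Rb) {T : Finset (𝓞 K)} (hT : IsRes β T)
    (hTc : T.card + 1 = Ideal.absNorm (Ideal.span {β})) :
    v (algebraMap K F (β : K) ^ 2 * ∏ a ∈ T, xc (sm F a Rb)) = 1 ∧
      ∀ a ∈ T, Ker v (sm F a Rb) ∧ sm F a Rb ≠ 0 := by
  have hK := ker_of_val v hβ hRb hv hb
  have h1 : ∀ a ∈ T, Ker v (sm F a Rb) ∧ sm F a Rb ≠ 0 := fun a ha =>
    ⟨ker_sm v hK a, fun h => hT.nz a ha ((hRb a).1 h)⟩
  refine ⟨?_, h1⟩
  have hfac : ∀ a ∈ T, v (xc (sm F a Rb)) * v (tc Rb) ^ 2 = 1 := by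
    intro a ha
    obtain ⟨b, hb'⟩ := sm_inv hβ hRb (hT.nz a ha)
    obtain ⟨h4, h5⟩ := h1 a ha
    obtain ⟨-, -, h6, -⟩ := ker_tc v h4 h5
    have h7 : v (tc (sm F a Rb)) = v (tc Rb) := by
      refine le_antisymm (ker_sm_le v hK a) ?_
      have h8 := ker_sm_le v h4 b
      rwa [hb'] at h8
    rw [← h7]
    exact h6
  have h10 : (∏ a ∈ T, v (xc (sm F a Rb))) * (v (tc Rb) ^ 2) ^ T.card = 1 := by
    rw [← Finset.prod_const, ← Finset.prod_mul_distrib]
    exact Finset.prod_eq_one hfac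
  have h11 := v_tc v hβ hRb hv hb
  have h12 : Ideal.absNorm (Ideal.span {β}) - 1 = T.card := by omega
  rw [h12] at h11
  rw [map_mul, map_pow, map_prod, ← h11, ← pow_mul, mul_comm T.card 2, pow_mul, mul_comm]
  exact h10

/-- the congruence -/
theorem frb_cong {Rb : Pt F} (hRb : Ord β Rb) {T : Finset (𝓞 K)} (hT : IsRes β T)
    (hTc : T.card + 1 = Ideal.absNorm (Ideal.span {β})) {Q R : Pt F} (hQ : ¬ Ker v Q)
    (hR : ¬ Ker v R) (h2 : 2 • sm F β R ≠ 0) (hne : xc (sm F β Q) ≠ xc (sm F β R)) :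
    v ((xc Q - xc R) ^ (Ideal.absNorm (Ideal.span {β})) -
      (algebraMap K F (β : K) ^ 2 * ∏ a ∈ T, xc (sm F a Rb)) *
        (xc (sm F β Q) - xc (sm F β R))) < 1 := by
  obtain ⟨hu, hS⟩ := frb_unit v hβ hv hb hRb hT hTc
  obtain ⟨-, xQ, -⟩ := not_ker v hQ
  obtain ⟨-, xR, -⟩ := not_ker v hR
  obtain ⟨hQ0, xQb, -⟩ := not_ker v (not_ker_sm v hβ hv hb hQ)
  obtain ⟨-, xRb, -⟩ := not_ker v (not_ker_sm v hβ hv hb hR)
  have hd : v (xc Q - xc R) ≤ 1 := (v.map_sub _ _).trans (max_le xQ xR)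
  have hdb : v (xc (sm F β Q) - xc (sm F β R)) ≤ 1 := (v.map_sub _ _).trans (max_le xQb xRb)
  have key := distx_any hβ.ne_zero hT hRb hQ0 h2 hne
  -- the left hand side
  have hs : ∀ a ∈ T, v (xc (Q + sm F a Rb) - xc R) ≤ 1 ∧
      v ((xc (Q + sm F a Rb) - xc R) - (xc Q - xc R)) < 1 := by
    intro a ha
    obtain ⟨h4, h5⟩ := hS a ha
    obtain ⟨k1, k2, -⟩ := add_ker v hQ h4
    obtain ⟨-, x1, -⟩ := not_ker v k1
    refine ⟨(v.map_sub _ _).trans (max_le x1 xR), ?_⟩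
    have ht := ker_tc_lt v h4
    obtain ⟨-, -, yQ⟩ := not_ker v hQ
    have e : (xc (Q + sm F a Rb) - xc R) - (xc Q - xc R) =
        (xc (Q + sm F a Rb) - xc Q - 2 * yc Q * tc (sm F a Rb)) +
          2 * (yc Q * tc (sm F a Rb)) := by ring
    rw [e]
    refine v.map_add_lt ?_ ?_
    · exact k2.trans_lt (pow_lt_one' ht two_ne_zero)
    · have h6 : v (2 : F) ≤ 1 := by
        have := v_int_le v 2
        exact_mod_cast this
      rw [map_mul, map_mul]
      exact (mul_le_of_le_one_left' h6).trans_lt ((mul_le_of_le_one_left' yQ).trans_lt ht)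
  have hL : v ((xc Q - xc R) * ∏ a ∈ T, (xc (Q + sm F a Rb) - xc R) -
      (xc Q - xc R) ^ (Ideal.absNorm (Ideal.span {β}))) < 1 := by
    rw [← hTc, pow_succ', ← mul_sub, map_mul]
    refine (mul_le_of_le_one_left' hd).trans_lt ?_
    rw [← Finset.prod_const]
    exact frb_prod v T _ _ (fun a ha => (hs a ha).1) (fun _ _ => hd) (fun a ha => (hs a ha).2)
  -- the right hand side
  have hx0 : ∀ a ∈ T, xc (sm F a Rb) ≠ 0 := by
    intro a ha h0
    obtain ⟨h4, h5⟩ := hS a ha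
    rcases h4 with h4 | h4
    · exact h5 h4
    · rw [h0, map_zero] at h4
      exact absurd h4 (not_lt.2 zero_le_one)
  have hq : ∀ a ∈ T, v (xc R / xc (sm F a Rb)) < 1 := by
    intro a ha
    obtain ⟨h4, h5⟩ := hS a ha
    have h6 : 1 < v (xc (sm F a Rb)) := h4.resolve_left h5
    rw [map_div₀]
    have h7 : v (xc R) < v (xc (sm F a Rb)) := xR.trans_lt h6
    exact (div_lt_one₀ (zero_lt_one.trans h6)).2 h7
  have hP : v (∏ a ∈ T, (1 - xc R / xc (sm F a Rb)) - ∏ _a ∈ T, (1 : F)) < 1 := by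
    refine frb_prod v T _ _ (fun a ha => ?_) (fun _ _ => (map_one v).le) (fun a ha => ?_)
    · exact (v.map_sub _ _).trans (max_le (map_one v).le (hq a ha).le)
    · rw [sub_right_comm, sub_self, zero_sub, Valuation.map_neg]
      exact hq a ha
  rw [Finset.prod_const_one] at hP
  have e1 : ∏ a ∈ T, (xc (sm F a Rb) - xc R) =
      (∏ a ∈ T, xc (sm F a Rb)) * ∏ a ∈ T, (1 - xc R / xc (sm F a Rb)) := by
    rw [← Finset.prod_mul_distrib]
    refine Finset.prod_congr rfl fun a ha => ?_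
    have := hx0 a ha
    field_simp
  rw [key, e1] at hL
  have e2 : (xc Q - xc R) ^ (Ideal.absNorm (Ideal.span {β})) -
      (algebraMap K F (β : K) ^ 2 * ∏ a ∈ T, xc (sm F a Rb)) *
        (xc (sm F β Q) - xc (sm F β R)) =
      (algebraMap K F (β : K) ^ 2 * ∏ a ∈ T, xc (sm F a Rb)) *
        ((∏ a ∈ T, (1 - xc R / xc (sm F a Rb)) - 1) *
        (xc (sm F β Q) - xc (sm F β R))) -
      (algebraMap K F (β : K) ^ 2 *
        ((∏ a ∈ T, xc (sm F a Rb)) * ∏ a ∈ T, (1 - xc R / xc (sm F a Rb))) *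
        (xc (sm F β Q) - xc (sm F β R)) - (xc Q - xc R) ^ (Ideal.absNorm (Ideal.span {β}))) := by
    ring
  rw [e2]
  refine v.map_sub_lt ?_ hL
  rw [map_mul, hu, one_mul, map_mul]
  exact (mul_le_of_le_one_right' hdb).trans_lt hP

end

end Pool.Agent.Lib.MP_1a91b9_nuX.DB
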