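import Pool.Agent.Lib.MP_1a91b9_nuX.DB.FrobA
import Pool.Agent.Lib.MP_1a91b9_nuX.DB.Gal
import Pool.Agent.Lib.MP_1a91b9_nuX.HD
import Pool.Agent.Lib.MP_1a91b9_nuX.GL.AbsF

/-!
# The Frobenius automorphisms of the algebraic closure act on all the torsion points prime to the place as the Hecke
character

`HC.hd.frob` is the case of the points of order prime to the residue characteristic.
-/

set_option autoImplicit false

namespace Pool.Agent.Lib.MP_1a91b9_nuX.DB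

open NumberField IsDedekindDomain WeierstrassCurve Pool.Agent.Lib.MP_1a91b9_nuT

variable [CD]

private theorem frb_mul {F : Type*} [Field F] [Algebra K F] [DecidableEq F] (a b : 𝓞 K)
    (P : Pt F) : sm F (a * b) P = sm F a (sm F b P) := by
  rw [map_mul]
  rfl

private theorem frb_nunit {n : ℤ} (hn : 2 ≤ n) : ¬ ((n : ℤ) : 𝓞 K) ∣ 1 := by
  rintro ⟨e, he⟩
  obtain ⟨m, k, rfl⟩ := CD.gen e
  have h1 : ((1 : ℤ) : 𝓞 K) + ((0 : ℤ) : 𝓞 K) * ta =
      ((n * m : ℤ) : 𝓞 K) + ((n * k : ℤ) : 𝓞 K) * ta := by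
    push_cast
    linear_combination he
  obtain ⟨h2, -⟩ := co_unique _ _ _ _ h1
  have h3 : n ∣ 1 := ⟨m, h2⟩
  have h4 := Int.le_of_dvd one_pos h3
  omega

private theorem frb_nd {β : 𝓞 K} (hβ : Prime β) {n m : ℤ} (hn : 2 ≤ n)
    (hβn : ¬ β ∣ ((n : ℤ) : 𝓞 K)) (h : ∃ x y : ℤ, x * m + y * n = 1) :
    ¬ ((n : ℤ) : 𝓞 K) ∣ ((m : ℤ) : 𝓞 K) * β := by
  rintro ⟨d, hd⟩
  obtain ⟨x, y, hxy⟩ := h
  have h1 : β = ((n : ℤ) : 𝓞 K) * (x * d + y * β) := by
    have h2 : ((x * m + y * n : ℤ) : 𝓞 K) = 1 := by rw [hxy]; exact Int.cast_one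
    push_cast at h2
    linear_combination (-β) * h2 + (x : 𝓞 K) * hd
  have h3 : β ∣ ((n : ℤ) : 𝓞 K) * (x * d + y * β) := ⟨1, by rw [mul_one]; exact h1.symm⟩
  rcases hβ.dvd_or_dvd h3 with h4 | ⟨e, he⟩
  · exact hβn h4
  · apply frb_nunit hn
    refine ⟨e, ?_⟩
    rw [he] at h1
    apply mul_left_cancel₀ hβ.ne_zero
    linear_combination h1

section
variable {F : Type*} [Field F] [Algebra K F] {Γ : Type*} [LinearOrderedCommGroupWithZero Γ]
  (v : Valuation F Γ)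

private theorem frb_int (n : ℤ) : algebraMap K F (((n : ℤ) : 𝓞 K) : K) = n := by
  have h1 : (((n : ℤ) : 𝓞 K) : K) = (n : K) := map_intCast (algebraMap (𝓞 K) K) n
  rw [h1, map_intCast]

private theorem frb_v {β : 𝓞 K} (a : 𝓞 K) (hv : v (algebraMap K F (β : K)) < 1)
    (ha : v (algebraMap K F (a : K)) = 1) : ¬ β ∣ a := by
  rintro ⟨c, rfl⟩
  have h1 : algebraMap K F ((β * c : 𝓞 K) : K) =
      algebraMap K F (β : K) * algebraMap K F (c : K) := by
    rw [← map_mul]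
    rfl
  rw [h1, map_mul] at ha
  have h3 : v (algebraMap K F (β : K)) * v (algebraMap K F (c : K)) < 1 :=
    (mul_le_of_le_one_right' (v_alg_le v c)).trans_lt hv
  exact absurd ha h3.ne

end

/-- auxiliary points: of order three and four -/
private theorem frb_pts {F : Type*} [Field F] [Algebra K F] [DecidableEq F] [IsAlgClosed F]
    {Γ : Type*} [LinearOrderedCommGroupWithZero Γ] (v : Valuation F Γ) {β : 𝓞 K} (hβ : Prime β)
    (hv : v (algebraMap K F (β : K)) < 1) (hb : v (bD F) = 1) : ∃ P3 P4 : Pt F,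
    (3 : ℕ) • P3 = 0 ∧ (4 : ℕ) • P4 = 0 ∧ ¬ Ker v P3 ∧ ¬ Ker v P4 ∧
    2 • sm F β P3 ≠ 0 ∧ 2 • sm F β P4 ≠ 0 ∧ v (xc (sm F β P4) - xc (sm F β P3)) = 1 ∧
    v ((3 : ℕ) : F) = 1 ∧ v ((4 : ℕ) : F) = 1 := by
  have h2v := v_two v hb
  have h3v := v_three v hb
  have h4v : v (4 : F) = 1 := by
    have e : (4 : F) = 2 * 2 := by norm_num
    rw [e, map_mul, h2v, one_mul]
  have h3v' : v (algebraMap K F ((((3 : ℤ) : 𝓞 K)) : K)) = 1 := by
    rw [frb_int]; exact_mod_cast h3v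
  have h4v' : v (algebraMap K F ((((4 : ℤ) : 𝓞 K)) : K)) = 1 := by
    rw [frb_int]; exact_mod_cast h4v
  have h2v' : v (algebraMap K F ((((2 : ℤ) : 𝓞 K)) : K)) = 1 := by
    rw [frb_int]; exact_mod_cast h2v
  have b2 := frb_v v _ hv h2v'
  have b3 := frb_v v _ hv h3v'
  have b4 := frb_v v _ hv h4v'
  have n1 : ¬ (((3 : ℤ) : 𝓞 K)) ∣ (((2 : ℤ) : 𝓞 K)) * β :=
    frb_nd hβ (by norm_num) b3 ⟨-1, 1, by norm_num⟩
  have n2 : ¬ (((4 : ℤ) : 𝓞 K)) ∣ (((3 : ℤ) : 𝓞 K)) * β :=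
    frb_nd hβ (by norm_num) b4 ⟨-1, 1, by norm_num⟩
  have n3 : ¬ (((4 : ℤ) : 𝓞 K)) ∣ (((2 : ℤ) : 𝓞 K)) * β := by
    rintro ⟨d, hd⟩
    apply frb_nd hβ (n := 2) (m := 1) (le_refl 2) b2 ⟨1, 0, by norm_num⟩
    refine ⟨d, ?_⟩
    have h2 : (((2 : ℤ) : 𝓞 K)) ≠ 0 := by
      rw [Ne, Int.cast_eq_zero]
      norm_num
    apply mul_left_cancel₀ h2
    push_cast at hd ⊢
    linear_combination hd
  have z3 : (((3 : ℤ) : 𝓞 K)) ≠ 0 := by
    rw [Ne, Int.cast_eq_zero]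
    norm_num
  have z4 : (((4 : ℤ) : 𝓞 K)) ≠ 0 := by
    rw [Ne, Int.cast_eq_zero]
    norm_num
  obtain ⟨P3, h3⟩ := ext_point F z3
  obtain ⟨P4, h4⟩ := ext_point F z4
  have e3 : sm F (((3 : ℤ) : 𝓞 K)) P3 = 0 := (h3 _).2 dvd_rfl
  have e4 : sm F (((4 : ℤ) : 𝓞 K)) P4 = 0 := (h4 _).2 dvd_rfl
  have k3 : ¬ Ker v P3 := by
    refine not_ker_torsO v ?_ h3v' e3
    rintro rfl
    exact frb_nunit (by norm_num) ((h3 1).1 (map_zero _))
  have k4 : ¬ Ker v P4 := by
    refine not_ker_torsO v ?_ h4v' e4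
    rintro rfl
    exact frb_nunit (by norm_num) ((h4 1).1 (map_zero _))
  have kk : ∀ m : 𝓞 K, ¬ Ker v (sm F β P4 + sm F m P3) := by
    intro m hK
    have h5 := ker_sm v hK (((3 : ℤ) : 𝓞 K))
    have q1 : sm F (((3 : ℤ) : 𝓞 K)) (sm F m P3) = 0 := by
      rw [← frb_mul, mul_comm, frb_mul, e3, map_zero]
    rw [map_add, q1, add_zero, ← frb_mul] at h5
    have h6 := ker_torsO v h5 h4v' (by
      rw [← frb_mul, mul_comm, frb_mul, e4, map_zero])
    exact n2 ((h4 _).1 h6)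
  have mn : sm F (-β) P3 = - sm F β P3 := by
    rw [map_neg]
    rfl
  refine ⟨P3, P4, ?_, ?_, k3, k4, ?_, ?_, ?_, ?_, ?_⟩
  · have := e3
    rw [sm_int] at this
    exact_mod_cast this
  · have := e4
    rw [sm_int] at this
    exact_mod_cast this
  · intro h
    apply n1
    rw [← h3, frb_mul, sm_int]
    exact_mod_cast h
  · intro h
    apply n3
    rw [← h4, frb_mul, sm_int]
    exact_mod_cast h
  · refine x_unit v hb (not_ker_sm v hβ hv hb k4) (not_ker_sm v hβ hv hb k3) ?_ (kk β)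
    have := kk (-β)
    rwa [mn, ← sub_eq_add_neg] at this
  · exact_mod_cast h3v
  · exact_mod_cast h4v

section
variable [HC] [DecidableEq (AlgebraicClosure K)] {P : HeightOneSpectrum (𝓞 K)}
  (hP : ((CD.bad : ℤ) : 𝓞 K) ∉ P.asIdeal) {V : ValuationSubring (AlgebraicClosure K)}
  (hV : GL.Abv P V) {φ : AlgebraicClosure K ≃ₐ[K] AlgebraicClosure K}
  (hφ : GL.IsFr V (Ideal.absNorm P.asIdeal) φ)

include hP in
omit [DecidableEq (AlgebraicClosure K)] in
/-- the value of the character at a good place -/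
theorem ps_prime : Prime (ps P.asIdeal) ∧ ps P.asIdeal ∈ P.asIdeal := by
  have hspan := ps_span P hP
  have h0 : ps P.asIdeal ≠ 0 := by
    intro h
    rw [h, Ideal.span_singleton_eq_bot.2 rfl] at hspan
    exact P.ne_bot hspan.symm
  refine ⟨(Ideal.span_singleton_prime h0).1 (by rw [hspan]; exact P.isPrime), ?_⟩
  have h1 := Ideal.mem_span_singleton_self (ps P.asIdeal)
  rwa [hspan] at h1

include hP hV in
omit [DecidableEq (AlgebraicClosure K)] in
private theorem frb_val : V.valuation (algebraMap K (AlgebraicClosure K) (ps P.asIdeal : K)) < 1 ∧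
    V.valuation (bD (AlgebraicClosure K)) = 1 := by
  refine ⟨(GL.abv_lt hV _).2 ((P.valuation_lt_one_iff_mem (K := K) _).2 (ps_prime hP).2), ?_⟩
  have e : bD (AlgebraicClosure K) = algebraMap K (AlgebraicClosure K) (bD K) :=
    (map_intCast _ _).symm
  rw [e, GL.abv_eq hV]
  have h1 : P.valuation K (algebraMap (𝓞 K) K ((CD.bad : ℤ) : 𝓞 K)) ≤ 1 := P.valuation_le_one _
  have h2 : ¬ P.valuation K (algebraMap (𝓞 K) K ((CD.bad : ℤ) : 𝓞 K)) < 1 := fun h =>
    hP ((P.valuation_lt_one_iff_mem (K := K) _).1 h)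
  rw [map_intCast] at h1 h2
  exact le_antisymm h1 (not_lt.1 h2)

include hP hV hφ

/-- the abscissae of `φ Q` and of `ψ Q` are congruent -/
private theorem frb_x {Q : Pt (AlgebraicClosure K)} (hQ : ¬ Ker V.valuation Q) :
    V.valuation (xc (ga φ Q) - xc (sm _ (ps P.asIdeal) Q)) < 1 := by
  obtain ⟨hβ, -⟩ := ps_prime hP
  obtain ⟨hv, hb⟩ := frb_val hP hV
  have hspan := ps_span P hP
  have hf : HC.f ∉ P.asIdeal := fun h => hP (HC.hd.good P h)
  set β := ps P.asIdeal with hβd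
  obtain ⟨P3, P4, z3, z4, k3, k4, m3, m4, hu, v3, v4⟩ := frb_pts V.valuation hβ hv hb
  have f3 : ga φ P3 = sm _ β P3 := HC.hd.frob P hf V hV φ hφ 3 P3 v3 z3
  have f4 : ga φ P4 = sm _ β P4 := HC.hd.frob P hf V hV φ hφ 4 P4 v4 z4
  obtain ⟨Rb, hRb⟩ := ext_point (AlgebraicClosure K) hβ.ne_zero
  obtain ⟨T, hT, hTc⟩ := exists_isRes hβ.ne_zero
  obtain ⟨-, x3, -⟩ := not_ker V.valuation k3
  obtain ⟨-, x4, -⟩ := not_ker V.valuation k4
  obtain ⟨-, xQ, -⟩ := not_ker V.valuation hQ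
  set u : AlgebraicClosure K := algebraMap K (AlgebraicClosure K) (β : K) ^ 2 *
    ∏ a ∈ T, xc (sm _ a Rb) with hud
  have hne : xc (sm _ β P4) ≠ xc (sm _ β P3) := by
    intro h
    rw [h, sub_self, map_zero] at hu
    exact zero_ne_one hu
  have c1 := frb_cong V.valuation hβ hv hb hRb hT hTc k4 k3 m3 hne
  rw [hspan, ← hud] at c1
  have c2 := hφ (xc P4 - xc P3) ((V.valuation.map_sub _ _).trans (max_le x4 x3))
  rw [map_sub φ, ← xc_ga, ← xc_ga, f3, f4] at c2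
  have hu1 : V.valuation (1 - u) < 1 := by
    have e : (1 - u) * (xc (sm _ β P4) - xc (sm _ β P3)) =
        (xc (sm _ β P4) - xc (sm _ β P3) - (xc P4 - xc P3) ^ Ideal.absNorm P.asIdeal) +
        ((xc P4 - xc P3) ^ Ideal.absNorm P.asIdeal - u * (xc (sm _ β P4) - xc (sm _ β P3))) := by
      ring
    have h1 := V.valuation.map_add_lt c2 c1
    rw [← e, map_mul, hu, mul_one] at h1
    exact h1
  have key : ∀ R : Pt (AlgebraicClosure K), ¬ Ker V.valuation R → ga φ R = sm _ β R →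
      2 • sm _ β R ≠ 0 → xc (sm _ β Q) ≠ xc (sm _ β R) →
      V.valuation (xc (ga φ Q) - xc (sm _ β Q)) < 1 := by
    intro R kR fR mR hQR
    obtain ⟨-, xR, -⟩ := not_ker V.valuation kR
    obtain ⟨-, xbQ, -⟩ := not_ker V.valuation (not_ker_sm V.valuation hβ hv hb hQ)
    obtain ⟨-, xbR, -⟩ := not_ker V.valuation (not_ker_sm V.valuation hβ hv hb kR)
    have d1 := frb_cong V.valuation hβ hv hb hRb hT hTc hQ kR mR hQR
    rw [hspan, ← hud] at d1
    have d2 := hφ (xc Q - xc R) ((V.valuation.map_sub _ _).trans (max_le xQ xR))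
    rw [map_sub φ, ← xc_ga, ← xc_ga, fR] at d2
    have d3 : V.valuation ((1 - u) * (xc (sm _ β Q) - xc (sm _ β R))) < 1 := by
      rw [map_mul]
      exact (mul_le_of_le_one_right'
        ((V.valuation.map_sub _ _).trans (max_le xbQ xbR))).trans_lt hu1
    have e : xc (ga φ Q) - xc (sm _ β Q) =
        (xc (ga φ Q) - xc (sm _ β R) - (xc Q - xc R) ^ Ideal.absNorm P.asIdeal) +
        ((xc Q - xc R) ^ Ideal.absNorm P.asIdeal - u * (xc (sm _ β Q) - xc (sm _ β R))) -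
        (1 - u) * (xc (sm _ β Q) - xc (sm _ β R)) := by ring
    rw [e]
    exact V.valuation.map_sub_lt (V.valuation.map_add_lt d2 d1) d3
  rcases eq_or_ne (xc (sm _ β Q)) (xc (sm _ β P3)) with h | h
  · exact key P4 k4 f4 m4 (by rw [h]; exact hne.symm)
  · exact key P3 k3 f3 m3 h

private theorem frb_pm {δ : 𝓞 K}
    (hδ : V.valuation (algebraMap K (AlgebraicClosure K) (δ : K)) = 1)
    {X : Pt (AlgebraicClosure K)} (hX : sm _ δ X = 0) :
    ga φ X = sm _ (ps P.asIdeal) X ∨ ga φ X = - sm _ (ps P.asIdeal) X := by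
  obtain ⟨hβ, -⟩ := ps_prime hP
  obtain ⟨hv, hb⟩ := frb_val hP hV
  rcases eq_or_ne X 0 with rfl | hX0
  · left
    rw [map_zero, map_zero]
  have k1 : ¬ Ker V.valuation X := not_ker_torsO V.valuation hX0 hδ hX
  have h1 : sm _ δ (ga φ X) = 0 := by rw [← ga_sm, hX, map_zero]
  have h2 : sm _ δ (sm _ (ps P.asIdeal) X) = 0 := by
    rw [← frb_mul, mul_comm, frb_mul, hX, map_zero]
  have k2 : ¬ Ker V.valuation (ga φ X) := by
    refine not_ker_torsO V.valuation ?_ hδ h1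
    intro h
    exact hX0 (pm_inj _ (h.trans (map_zero _).symm))
  rcases x_inj V.valuation hb k2 (not_ker_sm V.valuation hβ hv hb k1) (frb_x hP hV hφ k1)
    with h | h
  · left
    exact sub_eq_zero.1 (ker_torsO V.valuation h hδ (by rw [map_sub, h1, h2, sub_zero]))
  · right
    exact eq_neg_of_add_eq_zero_left
      (ker_torsO V.valuation h hδ (by rw [map_add, h1, h2, add_zero]))

/-- the Frobenius automorphisms act on the torsion points prime to the place as the character -/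
theorem frob_abs {γ : 𝓞 K} (hγ : V.valuation (algebraMap K (AlgebraicClosure K) (γ : K)) = 1)
    {X : Pt (AlgebraicClosure K)} (hX : sm _ γ X = 0) :
    ga φ X = sm _ (ps P.asIdeal) X := by
  obtain ⟨hβ, -⟩ := ps_prime hP
  obtain ⟨hv, hb⟩ := frb_val hP hV
  have hf : HC.f ∉ P.asIdeal := fun h => hP (HC.hd.good P h)
  obtain ⟨P3, -, z3, -, -, -, m3, -, -, v3, -⟩ := frb_pts V.valuation hβ hv hb
  have f3 : ga φ P3 = sm _ (ps P.asIdeal) P3 := HC.hd.frob P hf V hV φ hφ 3 P3 v3 z3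
  rcases frb_pm hP hV hφ hγ hX with h | h
  · exact h
  have hg3 : V.valuation (algebraMap K (AlgebraicClosure K) ((γ * (3 : ℕ) : 𝓞 K) : K)) = 1 := by
    have e : ((γ * (3 : ℕ) : 𝓞 K) : K) = (γ : K) * ((3 : ℕ) : K) := by
      rw [← map_natCast (algebraMap (𝓞 K) K) 3, ← map_mul]
    rw [e, map_mul, map_mul, hγ, one_mul, map_natCast]
    exact v3
  have hX3 : sm _ (γ * (3 : ℕ)) (X + P3) = 0 := by
    rw [map_add, mul_comm, frb_mul, hX, map_zero, zero_add, mul_comm, frb_mul, sm_nat, z3,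
      map_zero]
  rcases frb_pm hP hV hφ hg3 hX3 with h1 | h1
  · rw [map_add, map_add, f3, add_left_inj] at h1
    exact h1
  · exfalso
    rw [map_add, map_add, f3, h, neg_add, add_right_inj] at h1
    apply m3
    rw [two_nsmul]
    exact add_eq_zero_iff_eq_neg.2 h1

end

end Pool.Agent.Lib.MP_1a91b9_nuX.DB
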