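import Pool.Agent.Lib.MP_1a91b9_nuX.DB.Defs

/-!
# Integers and elements of `𝓞 K` have valuation at most `1`

PROOF. `v_int_le`, `v_nat_le`: induction (done in MP_1a91b9_ntT/DB/ValA). `v_alg_le`: `a = m + n ta` (`CD.gen`), `t = algebraMap K F ta` satisfies
`t ^ 2 = tr t - nm` (`CD.quad`), so `1 < v t` would give `v t ^ 2 ≤ max (v t) 1 = v t`, a contradiction. `v_bad_mul`: `x y = bad` with `v bad = 1` gives `v x = 1`.
`v_two`, `v_three`, `v_disc`, `v_nm`, `v_dk`: `CD.bad_dvd`.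
-/

set_option autoImplicit false

namespace Pool.Agent.Lib.MP_1a91b9_nuX.DB

open NumberField Pool.Agent.Lib.MP_1a91b9_nuT

section
variable {F : Type*} [Field F] {Γ : Type*} [LinearOrderedCommGroupWithZero Γ]
  (v : Valuation F Γ)

theorem v_int_le (n : ℤ) : v (n : F) ≤ 1 := by
  have hn : ∀ m : ℕ, v (m : F) ≤ 1 := by
    intro m
    induction m with
    | zero => simp
    | succ m ih =>
      rw [Nat.cast_succ]
      exact (v.map_add _ _).trans (max_le ih (by rw [map_one]))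
  rcases n with m | m
  · rw [Int.ofNat_eq_natCast, Int.cast_natCast]
    exact hn m
  · rw [Int.cast_negSucc, v.map_neg]
    exact hn (m + 1)

theorem v_nat_le (n : ℕ) : v (n : F) ≤ 1 := by
  have h := v_int_le v (n : ℤ)
  rwa [Int.cast_natCast] at h

end

variable [CD]

section
variable {F : Type*} [Field F] [Algebra K F] {Γ : Type*} [LinearOrderedCommGroupWithZero Γ]
  (v : Valuation F Γ)

theorem v_alg_le (a : 𝓞 K) : v (algebraMap K F (a : K)) ≤ 1 := by
  have ht : v (algebraMap K F ((ta : 𝓞 K) : K)) ≤ 1 := by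
    by_contra hc
    push Not at hc
    have h1 := congrArg (fun x : 𝓞 K => algebraMap K F (x : K)) CD.quad
    simp only [map_pow, map_sub, map_mul, map_intCast] at h1
    have h2 : v (algebraMap K F ((ta : 𝓞 K) : K)) ^ 2 ≤ v (algebraMap K F ((ta : 𝓞 K) : K)) := by
      rw [← map_pow, h1]
      refine (v.map_sub _ _).trans (max_le ?_ ?_)
      · rw [map_mul]
        exact mul_le_of_le_one_left zero_le (v_int_le v _)
      · exact (v_int_le v _).trans hc.le
    rw [pow_two] at h2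
    have h3 := le_of_mul_le_mul_right (h2.trans_eq (one_mul _).symm) (zero_lt_one.trans hc)
    exact absurd hc (not_lt.2 h3)
  obtain ⟨m, n, rfl⟩ := CD.gen a
  have e : algebraMap K F (((m : 𝓞 K) + (n : 𝓞 K) * ta : 𝓞 K) : K) =
      (m : F) + (n : F) * algebraMap K F ((ta : 𝓞 K) : K) := by
    simp only [map_add, map_mul, map_intCast]
  rw [e]
  refine (v.map_add _ _).trans (max_le (v_int_le v m) ?_)
  rw [map_mul]
  exact mul_le_one' (v_int_le v n) ht

theorem v_cA_le : v (cA F) ≤ 1 := v_int_le v CD.A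

theorem v_cB_le : v (cB F) ≤ 1 := v_int_le v CD.B

omit [Algebra K F] in
private theorem vint_div (hb : v (bD F) = 1) (n : ℤ) (h : n ∣ CD.bad) : v (n : F) = 1 := by
  obtain ⟨m, hm⟩ := h
  have h1 : v (n : F) * v (m : F) = 1 := by
    rw [← map_mul, ← Int.cast_mul, ← hm]
    exact hb
  refine le_antisymm (v_int_le v n) ?_
  rw [← h1]
  exact mul_le_of_le_one_right zero_le (v_int_le v m)

omit [Algebra K F] in
theorem v_two (hb : v (bD F) = 1) : v (2 : F) = 1 := by
  have h := vint_div v hb 2 (Dvd.dvd.trans (Dvd.intro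
    (3 * (4 * CD.A ^ 3 + 27 * CD.B ^ 2) * CD.nm * (CD.tr ^ 2 - 4 * CD.nm)) (by ring)) CD.bad_dvd)
  exact_mod_cast h

omit [Algebra K F] in
theorem v_three (hb : v (bD F) = 1) : v (3 : F) = 1 := by
  have h := vint_div v hb 3 (Dvd.dvd.trans (Dvd.intro
    (2 * (4 * CD.A ^ 3 + 27 * CD.B ^ 2) * CD.nm * (CD.tr ^ 2 - 4 * CD.nm)) (by ring)) CD.bad_dvd)
  exact_mod_cast h

omit [Algebra K F] in
theorem v_disc (hb : v (bD F) = 1) : v (4 * cA F ^ 3 + 27 * cB F ^ 2) = 1 := by
  have h := vint_div v hb (4 * CD.A ^ 3 + 27 * CD.B ^ 2) (Dvd.dvd.trans (Dvd.intro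
    (6 * CD.nm * (CD.tr ^ 2 - 4 * CD.nm)) (by ring)) CD.bad_dvd)
  push_cast at h
  exact h

omit [Algebra K F] in
theorem v_nm (hb : v (bD F) = 1) : v (CD.nm : F) = 1 :=
  vint_div v hb _ (Dvd.dvd.trans (Dvd.intro
    (6 * (4 * CD.A ^ 3 + 27 * CD.B ^ 2) * (CD.tr ^ 2 - 4 * CD.nm)) (by ring)) CD.bad_dvd)

omit [Algebra K F] in
theorem v_dk (hb : v (bD F) = 1) : v ((CD.tr ^ 2 - 4 * CD.nm : ℤ) : F) = 1 :=
  vint_div v hb _ (Dvd.dvd.trans (Dvd.intro
    (6 * (4 * CD.A ^ 3 + 27 * CD.B ^ 2) * CD.nm) (by ring)) CD.bad_dvd)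

/-- `ta` is a unit at the good places -/
theorem v_ta (hb : v (bD F) = 1) : v (algebraMap K F ((ta : 𝓞 K) : K)) = 1 := by
  refine le_antisymm (v_alg_le v ta) ?_
  by_contra hc
  push Not at hc
  have h1 : (CD.nm : F) = algebraMap K F ((ta : 𝓞 K) : K) *
      algebraMap K F (((CD.tr : 𝓞 K) - ta : 𝓞 K) : K) := by
    have h2 : ((CD.nm : ℤ) : 𝓞 K) = ta * ((CD.tr : 𝓞 K) - ta) := by
      linear_combination CD.quad
    have h3 := congrArg (fun x : 𝓞 K => algebraMap K F (x : K)) h2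
    simp only [map_sub, map_mul, map_intCast] at h3
    simpa only [map_sub, map_intCast] using h3
  have h2 := v_nm v hb
  rw [h1, map_mul] at h2
  have h3 := (mul_le_of_le_one_right (zero_le (a := v (algebraMap K F ((ta : 𝓞 K) : K))))
    (v_alg_le v ((CD.tr : 𝓞 K) - ta))).trans_lt hc
  rw [h2] at h3
  exact lt_irrefl _ h3

end

end Pool.Agent.Lib.MP_1a91b9_nuX.DB
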