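import Pool.Agent.Lib.MP_1a91b9_nuX.DB.TaB
import Pool.Agent.Lib.MP_1a91b9_nuX.DB.Vint

/-!
# Estimates for the multiplication by `ta` at a point of large abscissa

PROOF. `n = natDegree Nt`, `natDegree Dt = n - 1`.
`v_eval_le`: expand `eval x (p.map (io F)) = Σ_{i ≤ natDegree p} io F (coeff i) x^i` (`Polynomial.eval_map`, `Polynomial.eval₂_eq_sum_range`), each term times `x^k` has
valuation `≤ v x ^ (i + k) ≤ v x ^ m` (`v_alg_le`, `1 ≤ v x`), `Valuation.map_sum_le`; `p = 0` is trivial.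
`G_coeff`: `G = C (ta^2) * Nt - X * Dt` has degree `< n - 1` or is zero. The coefficients of `X^n` cancel (`Nt_monic`, `Dt_lead`). The coefficient `c` of `X^(n-1)`: over `ℂ`
put `g(x) = N(x)/D(x) - x/ta^2 = G(x)/(ta^2 D(x))`. For `z → 0`, `z ≠ 0`: `X z → ∞`, `g (X z) → c / ta^4`; on the other hand `g (X z) = X (zt z) - X z/zt^2` (`mulx_C`, `DF_ne`) `→ 0` as
`Om^2 X z = 1/z^2 + Pr z`, `Pr z → 0` (`S3.P_eq`, `S3.tendsto_Pr` with `j = 0`). So `c = 0`. (`n ≥ 1` as `Dt_deg : natDegree Dt + 1 = natDegree Nt`.) Equivalent: `Nt.coeff (n-1) * ta^2 = Dt.coeff (n-2)`, and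
`Nt.coeff 0 = 0` if `n = 1`. For the limit one may use `G(X z) * z^(2 (n-1)) → c / Om^(2(n-1))` and `D(X z) * z^(2(n-1)) → ta^2 / Om^(2(n-1))`.
`G_div`: `ta^2` divides all coefficients of `G` (`Nt`, and `Dt = ta^2 X^(n-1) + ta^3 D1`, `CD.Dt_lo`).
-/

set_option autoImplicit false

namespace Pool.Agent.Lib.MP_1a91b9_nuX.DB

open NumberField Polynomial Filter Topology Pool.Agent.Lib.MP_1a91b9_nuT S3

variable [CD]

/-- the value of an integral polynomial at a point of valuation at least `1` -/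
theorem v_eval_le {F : Type*} [Field F] [Algebra K F] {Γ : Type*}
    [LinearOrderedCommGroupWithZero Γ] (v : Valuation F Γ) {x : F} (hx : 1 ≤ v x) (p : (𝓞 K)[X])
    {k m : ℕ} (h : p = 0 ∨ p.natDegree + k ≤ m) : v ((p.map (io F)).eval x) * v x ^ k ≤ v x ^ m := by
  rcases h with rfl | h
  · rw [Polynomial.map_zero, eval_zero, map_zero, zero_mul]
    exact zero_le
  · have h1 : v ((p.map (io F)).eval x) ≤ v x ^ p.natDegree := by
      rw [Polynomial.eval_map, Polynomial.eval₂_eq_sum_range]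
      refine Valuation.map_sum_le v fun i hi => ?_
      rw [map_mul, map_pow]
      have h2 : i ≤ p.natDegree := Nat.lt_succ_iff.1 (Finset.mem_range.1 hi)
      have h3 : v (io F (p.coeff i)) ≤ 1 := v_alg_le v _
      have h4 : v x ^ i ≤ v x ^ p.natDegree := pow_le_pow_right' hx h2
      calc v (io F (p.coeff i)) * v x ^ i ≤ 1 * v x ^ p.natDegree := mul_le_mul' h3 h4
        _ = v x ^ p.natDegree := one_mul _
    calc v ((p.map (io F)).eval x) * v x ^ k ≤ v x ^ p.natDegree * v x ^ k :=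
          mul_le_mul' h1 le_rfl
      _ = v x ^ (p.natDegree + k) := (pow_add _ _ _).symm
      _ ≤ v x ^ m := pow_le_pow_right' hx h

private theorem kerg_Pr : Tendsto Pr (𝓝 0) (𝓝 0) := by
  have h1 : ContinuousAt Pr 0 := (PP.analyticAt_weierstrassPExcept 0).continuousAt
  have h2 := h1.tendsto
  rwa [Pr_zero] at h2

private theorem kerg_X {z : ℂ} (hz : z ≠ 0) : X z = (1 + z ^ 2 * Pr z) / (z ^ 2 * Om ^ 2) := by
  have h := Om_ne_zero
  rw [S3.X, P_eq]
  field_simp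

private theorem kerg_one : Tendsto (fun z : ℂ => 1 + z ^ 2 * Pr z) (𝓝 0) (𝓝 1) := by
  have h1 : Tendsto (fun z : ℂ => z ^ 2) (𝓝 0) (𝓝 0) := by
    have h2 : ContinuousAt (fun z : ℂ => z ^ 2) 0 := by fun_prop
    have h3 := h2.tendsto
    rwa [zero_pow two_ne_zero] at h3
  have h4 := (h1.mul kerg_Pr).const_add 1
  rwa [mul_zero, add_zero] at h4

private theorem kerg_ne : ∀ᶠ z in 𝓝[≠] (0 : ℂ), X z ≠ 0 := by
  have h1 : ∀ᶠ z in 𝓝[≠] (0 : ℂ), 1 + z ^ 2 * Pr z ≠ 0 :=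
    (kerg_one.eventually_ne one_ne_zero).filter_mono nhdsWithin_le_nhds
  filter_upwards [h1, self_mem_nhdsWithin] with z hz hz0
  have hz1 : z ≠ 0 := hz0
  rw [kerg_X hz1]
  exact div_ne_zero hz (mul_ne_zero (pow_ne_zero _ hz1) (pow_ne_zero _ Om_ne_zero))

private theorem kerg_inv : Tendsto (fun z => (X z)⁻¹) (𝓝[≠] 0) (𝓝 0) := by
  have h1 : Tendsto (fun z : ℂ => z ^ 2 * Om ^ 2 / (1 + z ^ 2 * Pr z)) (𝓝[≠] 0) (𝓝 0) := by
    have h2 : Tendsto (fun z : ℂ => z ^ 2 * Om ^ 2) (𝓝 0) (𝓝 0) := by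
      have h3 : ContinuousAt (fun z : ℂ => z ^ 2 * Om ^ 2) 0 := by fun_prop
      have h4 := h3.tendsto
      rwa [zero_pow two_ne_zero, zero_mul] at h4
    have h5 := h2.div kerg_one one_ne_zero
    rw [zero_div] at h5
    exact h5.mono_left nhdsWithin_le_nhds
  refine h1.congr' ?_
  filter_upwards [self_mem_nhdsWithin] with z hz0
  have hz1 : z ≠ 0 := hz0
  rw [kerg_X hz1, inv_div]

private theorem kerg_lim (p : ℂ[X]) {m : ℕ} (h : p.natDegree ≤ m) :
    Tendsto (fun z => p.eval (X z) * (X z)⁻¹ ^ m) (𝓝[≠] 0) (𝓝 (p.coeff m)) := by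
  have h1 : Tendsto (fun y : ℂ => ∑ i ∈ Finset.range (m + 1), p.coeff i * y ^ (m - i)) (𝓝 0)
      (𝓝 (p.coeff m)) := by
    have h2 : ContinuousAt (fun y : ℂ => ∑ i ∈ Finset.range (m + 1), p.coeff i * y ^ (m - i)) 0 := by
      fun_prop
    have h3 := h2.tendsto
    have h4 : ∑ i ∈ Finset.range (m + 1), p.coeff i * (0 : ℂ) ^ (m - i) = p.coeff m := by
      rw [Finset.sum_eq_single m]
      · rw [Nat.sub_self, pow_zero, mul_one]
      · intro i hi hne
        have h5 : i < m + 1 := Finset.mem_range.1 hi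
        rw [zero_pow (by omega), mul_zero]
      · intro hm
        exact absurd (Finset.mem_range.2 (Nat.lt_succ_self m)) hm
    rwa [h4] at h3
  refine (h1.comp kerg_inv).congr' ?_
  filter_upwards [kerg_ne] with z hz
  show ∑ i ∈ Finset.range (m + 1), p.coeff i * (X z)⁻¹ ^ (m - i) = _
  rw [eval_eq_sum_range' (Nat.lt_succ_of_le h), Finset.sum_mul]
  refine Finset.sum_congr rfl fun i hi => ?_
  have h5 : i < m + 1 := Finset.mem_range.1 hi
  have h6 : (X z)⁻¹ ^ m = (X z)⁻¹ ^ i * (X z)⁻¹ ^ (m - i) := by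
    rw [← pow_add]
    congr 1
    omega
  have h7 : X z ^ i * (X z)⁻¹ ^ i = 1 := by
    rw [← mul_pow, mul_inv_cancel₀ hz, one_pow]
  rw [h6]
  linear_combination (-(p.coeff i * (X z)⁻¹ ^ (m - i))) * h7

private theorem kerg_diff : Tendsto (fun z => zt ^ 2 * X (zt * z) - X z) (𝓝[≠] 0) (𝓝 0) := by
  have h1 : Tendsto (fun z : ℂ => Pr (zt * z)) (𝓝 0) (𝓝 0) := by
    refine kerg_Pr.comp ?_
    have h2 : ContinuousAt (fun z : ℂ => zt * z) 0 := by fun_prop
    have h3 := h2.tendsto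
    rwa [mul_zero] at h3
  have h4 : Tendsto (fun z : ℂ => (zt ^ 2 * Pr (zt * z) - Pr z) / Om ^ 2) (𝓝[≠] 0) (𝓝 0) := by
    have h5 := ((h1.const_mul (zt ^ 2)).sub kerg_Pr).div_const (Om ^ 2)
    rw [mul_zero, sub_zero, zero_div] at h5
    exact h5.mono_left nhdsWithin_le_nhds
  refine h4.congr' ?_
  filter_upwards [self_mem_nhdsWithin] with z hz0
  have hz1 : z ≠ 0 := hz0
  have h6 := zt_ne_zero
  have h7 := Om_ne_zero
  rw [S3.X, S3.X, P_eq, P_eq]
  field_simp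
  ring

/-- the cancellation at infinity -/
theorem G_coeff : C (ta ^ 2) * CD.Nt - Polynomial.X * CD.Dt = (0 : (𝓞 K)[X]) ∨
    (C (ta ^ 2) * CD.Nt - Polynomial.X * CD.Dt : (𝓞 K)[X]).natDegree + 2 ≤ CD.Nt.natDegree := by
  set G : (𝓞 K)[X] := C (ta ^ 2) * CD.Nt - Polynomial.X * CD.Dt with hG
  obtain ⟨m, hm⟩ : ∃ m, m = CD.Dt.natDegree := ⟨_, rfl⟩
  have hn : CD.Nt.natDegree = m + 1 := by rw [hm]; exact CD.Dt_deg.symm
  have hdeg : ∀ j, m < j → G.coeff j = 0 := by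
    intro j hj
    obtain ⟨i, rfl⟩ : ∃ i, j = i + 1 := ⟨j - 1, by omega⟩
    rw [hG, coeff_sub, coeff_C_mul, coeff_X_mul]
    rcases Nat.eq_or_lt_of_le (Nat.le_of_lt_succ hj) with e | e
    · have h1 : CD.Nt.coeff (i + 1) = 1 := by
        have h2 := CD.Nt_monic.coeff_natDegree
        rwa [hn, e] at h2
      have h3 : CD.Dt.coeff i = ta ^ 2 := by
        have h4 := CD.Dt_lead
        rwa [leadingCoeff, ← hm, e] at h4
      rw [h1, h3, mul_one, sub_self]
    · rw [coeff_eq_zero_of_natDegree_lt (by rw [hn]; omega),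
        coeff_eq_zero_of_natDegree_lt (by rw [← hm]; exact e), mul_zero, sub_self]
  have hle : G.natDegree ≤ m := natDegree_le_iff_coeff_eq_zero.2 fun j hj => hdeg j hj
  have hc : G.coeff m = 0 := by
    have h1 : (G.map (io ℂ)).natDegree ≤ m := (natDegree_map_le).trans hle
    have h2 : (DF ℂ).natDegree ≤ m := (natDegree_map_le).trans hm.ge
    have h3 := kerg_lim (G.map (io ℂ)) h1
    have h4 := kerg_lim (DF ℂ) h2
    have h5 := kerg_diff.mul h4
    rw [zero_mul] at h5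
    have h6 : Tendsto (fun z => (G.map (io ℂ)).eval (X z) * (X z)⁻¹ ^ m) (𝓝[≠] 0) (𝓝 0) := by
      refine h5.congr' ?_
      filter_upwards [eventually_mul_notMem (one_ne_zero) 0, eventually_mul_notMem zt_ne_zero 0]
        with z hz1 hz2
      rw [one_mul] at hz1
      have h7 : (G.map (io ℂ)).eval (X z) = (zt ^ 2 * X (zt * z) - X z) * (DF ℂ).eval (X z) := by
        have h8 : G.map (io ℂ) = C (zt ^ 2) * NF ℂ - Polynomial.X * DF ℂ := by
          rw [hG, Polynomial.map_sub, Polynomial.map_mul, Polynomial.map_mul, map_C, map_X,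
            map_pow]
          rfl
        rw [h8, eval_sub, eval_mul, eval_mul, eval_C, eval_X, mulx_C hz1 hz2]
        ring
      rw [h7]
      ring
    have h9 := tendsto_nhds_unique h3 h6
    rw [coeff_map] at h9
    apply io_inj (F := ℂ)
    rw [h9, map_zero]
  by_cases h0 : G = 0
  · exact Or.inl h0
  · right
    have h1 : G.natDegree ≠ m := by
      intro h
      apply h0
      rw [← leadingCoeff_eq_zero, leadingCoeff, h]
      exact hc
    rw [hn]
    omega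

theorem G_div : ∃ G₁ : (𝓞 K)[X], C (ta ^ 2) * CD.Nt - Polynomial.X * CD.Dt = C (ta ^ 2) * G₁ ∧
    (G₁ = 0 ∨ G₁.natDegree + 2 ≤ CD.Nt.natDegree) := by
  obtain ⟨D₁, hD⟩ := CD.Dt_lo
  have hn := CD.Dt_deg
  obtain ⟨m, hm⟩ : ∃ m, m = CD.Dt.natDegree := ⟨_, rfl⟩
  have e : C (ta ^ 2) * CD.Nt - Polynomial.X * CD.Dt = C (ta ^ 2) *
      (CD.Nt - Polynomial.X ^ (m + 1) - Polynomial.X * (C ta * D₁) : (𝓞 K)[X]) := by
    have h1 : (C (ta ^ 3) : (𝓞 K)[X]) = C (ta ^ 2) * C ta := by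
      rw [← C_mul, ← pow_succ]
    rw [← hm] at hD
    rw [h1] at hD
    rw [hD]
    ring
  refine ⟨_, e, ?_⟩
  have hne : (ta ^ 2 : 𝓞 K) ≠ 0 := pow_ne_zero _ ta_ne
  rcases G_coeff with h | h
  · left
    rw [e] at h
    exact (mul_eq_zero.1 h).resolve_left (C_ne_zero.2 hne)
  · right
    rwa [e, natDegree_C_mul hne] at h

end Pool.Agent.Lib.MP_1a91b9_nuX.DB
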