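import Pool.Agent.Lib.MP_1a91b9_nuX.DB.UniA

/-!
# The multiplication by `ta` on the abscissae: the polynomial identity

PROOF. `NF F`, `DF F` are the images of `CD.Nt`, `CD.Dt` in `F[X]`, `WF = NF' DF - NF DF'`.
`NF_cop`: `CD.cop` mapped by `algebraMap K F` (`IsCoprime.map`, `Polynomial.map_map`).
`mulx_C` is `CD.mulx` (`X z = P z / Om ^ 2`, `Polynomial.eval_map`, `PP` is `mkPP zt zt_ne`).
`wr_C`: for `z`, `zt z` not in the lattice (an open condition: the set of such `z` is open) differentiate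
`NF (X z) = X (zt z) DF (X z)` in `z` (`S3.hasDerivAt_P`: `X' = P' / Om ^ 2 = Om Y`; the derivative of `X (zt z)` is `zt Om Y (zt z)`; both sides agree near
`z`): `NF' (X z) Om Y z = zt Om Y (zt z) DF (X z) + X (zt z) DF' (X z) Om Y z`, multiply by `DF (X z)` and divide by `Om`:
`Y z * WF (X z) = zt * Y (zt z) * DF (X z) ^ 2`.
`DF_ne`: done.
-/

set_option autoImplicit false

namespace Pool.Agent.Lib.MP_1a91b9_nuX.DB

open NumberField Polynomial Pool.Agent.Lib.MP_1a91b9_nuT S3

noncomputable section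

variable [CD]

/-- the ring homomorphism `𝓞 K → F` -/
def io (F : Type*) [Field F] [Algebra K F] : 𝓞 K →+* F :=
  (algebraMap K F).comp (algebraMap (𝓞 K) K)

/-- the numerator over `F` -/
def NF (F : Type*) [Field F] [Algebra K F] : F[X] := CD.Nt.map (io F)

/-- the denominator over `F` -/
def DF (F : Type*) [Field F] [Algebra K F] : F[X] := CD.Dt.map (io F)

/-- the numerator of the derivative over `F` -/
def WF (F : Type*) [Field F] [Algebra K F] : F[X] :=
  derivative (NF F) * DF F - NF F * derivative (DF F)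

/-- the element `ta` of `F` -/
def tF (F : Type*) [Field F] [Algebra K F] : F := algebraMap K F ((ta : 𝓞 K) : K)

section
variable {F : Type*} [Field F] [Algebra K F]

theorem io_apply (a : 𝓞 K) : io F a = algebraMap K F (a : K) := rfl

theorem io_inj : Function.Injective (io F) :=
  (algebraMap K F).injective.comp RingOfIntegers.coe_injective

theorem ta_ne : (ta : 𝓞 K) ≠ 0 := by
  intro h
  apply zt_ne_zero
  rw [← embK_ta, h]
  exact map_zero embK

theorem tF_ne : tF F ≠ 0 := by
  intro h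
  apply ta_ne
  apply io_inj (F := F)
  rw [map_zero]
  exact h

theorem tF_C : tF ℂ = zt := rfl

theorem NF_cop : IsCoprime (NF F) (DF F) := by
  have h := CD.cop.map (Polynomial.mapRingHom (algebraMap K F))
  rw [Polynomial.coe_mapRingHom, Polynomial.map_map, Polynomial.map_map] at h
  exact h

theorem eval_ne {x : F} (h : (DF F).eval x = 0) : (NF F).eval x ≠ 0 := by
  intro h2
  obtain ⟨a, b, hab⟩ := NF_cop (F := F)
  have h3 := congrArg (Polynomial.eval x) hab
  rw [eval_add, eval_mul, eval_mul, h, h2, mul_zero, mul_zero, add_zero, eval_one] at h3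
  exact zero_ne_one h3

end

theorem mulx_C {z : ℂ} (h1 : z ∉ PP.lattice) (h2 : zt * z ∉ PP.lattice) :
    (NF ℂ).eval (X z) = X (zt * z) * (DF ℂ).eval (X z) := by
  have h := CD.mulx z h1 h2
  rw [NF, DF, Polynomial.eval_map, Polynomial.eval_map]
  exact h

open Filter Topology in
private theorem Ta_derX {z : ℂ} (hz : z ∉ PP.lattice) : HasDerivAt X (Om * Y z) z := by
  have h := (hasDerivAt_P hz).div_const (Om ^ 2)
  have e : PP.derivWeierstrassP z / Om ^ 2 = Om * Y z := by
    have hO := Om_ne_zero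
    rw [Y]
    field_simp
  rw [e] at h
  exact h

theorem wr_C {z : ℂ} (h1 : z ∉ PP.lattice) (h2 : zt * z ∉ PP.lattice) :
    Y z * (WF ℂ).eval (X z) = zt * Y (zt * z) * (DF ℂ).eval (X z) ^ 2 := by
  have hO := Om_ne_zero
  have d1 : HasDerivAt (fun w => (NF ℂ).eval (X w))
      ((derivative (NF ℂ)).eval (X z) * (Om * Y z)) z :=
    ((NF ℂ).hasDerivAt (X z)).comp z (Ta_derX h1)
  have d2 : HasDerivAt (fun w => (DF ℂ).eval (X w))
      ((derivative (DF ℂ)).eval (X z) * (Om * Y z)) z :=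
    ((DF ℂ).hasDerivAt (X z)).comp z (Ta_derX h1)
  have d3 : HasDerivAt (fun w => zt * w) zt z := by
    have h := (hasDerivAt_id z).const_mul zt
    rw [mul_one] at h
    exact h
  have d4 : HasDerivAt (fun w => X (zt * w)) (Om * Y (zt * z) * zt) z :=
    (Ta_derX h2).comp z d3
  have d5 := d4.mul d2
  have ho : IsOpen ((PP.lattice : Set ℂ)ᶜ) := isOpen_compl
  have hc : ContinuousAt (fun w => zt * w) z := d3.continuousAt
  have n1 : ∀ᶠ w in nhds z, w ∈ ((PP.lattice : Set ℂ)ᶜ) := ho.mem_nhds h1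
  have n2 : ∀ᶠ w in nhds z, zt * w ∈ ((PP.lattice : Set ℂ)ᶜ) := hc.tendsto (ho.mem_nhds h2)
  have h5 : (fun w => (NF ℂ).eval (X w)) =ᶠ[nhds z]
      ((fun w => X (zt * w)) * (fun w => (DF ℂ).eval (X w))) := by
    filter_upwards [n1, n2] with w e1 e2
    exact mulx_C e1 e2
  have h6 := (d5.congr_of_eventuallyEq h5).unique d1
  have h7 := mulx_C h1 h2
  have h8 : (WF ℂ).eval (X z) = (derivative (NF ℂ)).eval (X z) * (DF ℂ).eval (X z) -
      (NF ℂ).eval (X z) * (derivative (DF ℂ)).eval (X z) := by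
    rw [WF, eval_sub, eval_mul, eval_mul]
  apply mul_left_cancel₀ hO
  rw [h8]
  linear_combination (-(DF ℂ).eval (X z)) * h6 -
    Om * Y z * (derivative (DF ℂ)).eval (X z) * h7

theorem DF_ne {z : ℂ} (h1 : z ∉ PP.lattice) (h2 : zt * z ∉ PP.lattice) :
    (DF ℂ).eval (X z) ≠ 0 := by
  intro h3
  have h4 := mulx_C h1 h2
  rw [h3, mul_zero] at h4
  exact eval_ne h3 h4

end

end Pool.Agent.Lib.MP_1a91b9_nuX.DB
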