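import Pool.Agent.Lib.MP_1a91b9_nuX.DB.Ta

/-!
# The multiplication by `ta` on the abscissae: the polynomial identity

PROOF. `DF_of_mem`: `z` not in the lattice, `zt z` in it. Suppose `D (X z) ≠ 0`. For `w → z`, `w ≠ z`: `w`, `zt w` are not in the lattice near `z`
(`eventually_notMem`, `eventually_mul_notMem`), `N (X w) = X (zt w) D (X w)` (`mulx_C`), `X` is continuous at `z` (`hasDerivAt_P`), so `X (zt w) = N (X w) / D (X w)` has a finite limit;
but `(zt w - zt z) ^ 2 X (zt w) → 1 / Om ^ 2 ≠ 0` (`Per.tendsto_sq_P` translated by the lattice point `zt z`: `tendsto_at_lattice`/`P_add`), contradiction.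
`poly_id_C`: both sides of the identity agree at `x = X z` for all `z` with `z`, `zt z` not in the lattice: square of `wr_C`, `Y_sq`
at `z` and at `zt z`, `mulx_C`. There are infinitely many such `x`: `X` is surjective (`Per.P_surj`), if `x = X z` with `zt z` in the lattice then `x` is a root of `D`
(`DF_of_mem`), `D ≠ 0` (leading coefficient `ta ^ 2`, `CD.Dt_lead`), so all but finitely many `x` are good. `Polynomial.eq_of_infinite_eval_eq`.
`poly_id`: the identity holds in `(𝓞 K)[X]` with `CD.Nt`, `CD.Dt`, `ta` (the map `(𝓞 K)[X] → ℂ[X]` of `io ℂ` is injective, `Polynomial.map_injective`, `io_inj`), then map it to `F[X]` by `io F`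
(`Polynomial.map_mul`, `Polynomial.derivative_map`, `map_intCast`).
-/

set_option autoImplicit false

namespace Pool.Agent.Lib.MP_1a91b9_nuX.DB

open NumberField Polynomial Pool.Agent.Lib.MP_1a91b9_nuT S3

noncomputable section

variable [CD]

open Filter Topology in
theorem DF_of_mem {z : ℂ} (h1 : z ∉ PP.lattice) (h2 : zt * z ∈ PP.lattice) :
    (DF ℂ).eval (X z) = 0 := by
  have cX : ContinuousAt X z := (hasDerivAt_P h1).continuousAt.div_const _
  have cN : ContinuousAt (fun w => (NF ℂ).eval (X w)) z :=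
    ContinuousAt.comp (g := fun x => (NF ℂ).eval x) (NF ℂ).continuous.continuousAt cX
  have cD : ContinuousAt (fun w => (DF ℂ).eval (X w)) z :=
    ContinuousAt.comp (g := fun x => (DF ℂ).eval x) (DF ℂ).continuous.continuousAt cX
  have cm : ContinuousAt (fun w : ℂ => zt * w - zt * z) z := by fun_prop
  have hm : Tendsto (fun w : ℂ => zt * w - zt * z) (𝓝[≠] z) (𝓝[≠] 0) := by
    refine tendsto_nhdsWithin_iff.2 ⟨?_, ?_⟩
    · have h3 := cm.tendsto
      rw [sub_self] at h3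
      exact h3.mono_left nhdsWithin_le_nhds
    · filter_upwards [self_mem_nhdsWithin] with w hw h
      exact hw (mul_left_cancel₀ zt_ne_zero (sub_eq_zero.1 h))
  have hP : Tendsto (fun w : ℂ => (zt * w - zt * z) ^ 2 * PP.weierstrassP (zt * w)) (𝓝[≠] z) (𝓝 1) := by
    refine (Per.tendsto_sq_P.comp hm).congr fun w => ?_
    have h3 := P_add h2 (zt * w - zt * z)
    rw [sub_add_cancel] at h3
    rw [Function.comp_apply, h3]
  have hR : Tendsto (fun w : ℂ => (zt * w - zt * z) ^ 2 * (X (zt * w) * (DF ℂ).eval (X w))) (𝓝[≠] z)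
      (𝓝 (1 / Om ^ 2 * (DF ℂ).eval (X z))) := by
    refine ((hP.div_const (Om ^ 2)).mul (cD.tendsto.mono_left nhdsWithin_le_nhds)).congr fun w => ?_
    unfold S3.X
    ring
  have hL : Tendsto (fun w : ℂ => (zt * w - zt * z) ^ 2 * (NF ℂ).eval (X w)) (𝓝[≠] z) (𝓝 0) := by
    have h3 : Tendsto (fun w : ℂ => (zt * w - zt * z) ^ 2 * (NF ℂ).eval (X w)) (𝓝 z)
        (𝓝 ((zt * z - zt * z) ^ 2 * (NF ℂ).eval (X z))) := ((cm.pow 2).mul cN).tendsto
    rw [sub_self, zero_pow two_ne_zero, zero_mul] at h3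
    exact h3.mono_left nhdsWithin_le_nhds
  have hE : (fun w : ℂ => (zt * w - zt * z) ^ 2 * (NF ℂ).eval (X w)) =ᶠ[𝓝[≠] z]
      fun w => (zt * w - zt * z) ^ 2 * (X (zt * w) * (DF ℂ).eval (X w)) := by
    filter_upwards [eventually_notMem z, eventually_mul_notMem zt_ne_zero z] with w a1 a2
    rw [mulx_C a1 a2]
  have h4 := tendsto_nhds_unique (hL.congr' hE) hR
  have h5 : 1 / Om ^ 2 ≠ 0 := one_div_ne_zero (pow_ne_zero 2 Om_ne_zero)
  exact (mul_eq_zero.1 h4.symm).resolve_left h5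

private theorem TaB_Dt_ne : (CD.Dt : (𝓞 K)[X]) ≠ 0 := by
  intro h
  have h1 := CD.Dt_lead (self := inferInstance)
  rw [h, leadingCoeff_zero] at h1
  exact pow_ne_zero 2 ta_ne h1.symm

private theorem TaB_DF_ne : DF ℂ ≠ 0 := by
  intro h
  apply TaB_Dt_ne
  apply Polynomial.map_injective (io ℂ) io_inj
  rw [Polynomial.map_zero]
  exact h

theorem poly_id_C : (Polynomial.X ^ 3 + C (cA ℂ) * Polynomial.X + C (cB ℂ)) * WF ℂ ^ 2 =
    C (tF ℂ ^ 2) * DF ℂ * (NF ℂ ^ 3 + C (cA ℂ) * NF ℂ * DF ℂ ^ 2 + C (cB ℂ) * DF ℂ ^ 3) := by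
  refine Polynomial.eq_of_infinite_eval_eq _ _ ?_
  have hfin : ({x : ℂ | (DF ℂ).eval x = 0}).Finite := by
    refine (Finset.finite_toSet (DF ℂ).roots.toFinset).subset fun x hx => ?_
    rw [Finset.mem_coe, Multiset.mem_toFinset, mem_roots TaB_DF_ne]
    exact hx
  refine hfin.infinite_compl.mono fun x hx => ?_
  have hx : (DF ℂ).eval x ≠ 0 := hx
  obtain ⟨z, hz, hPz⟩ := Per.P_surj (x * Om ^ 2)
  have hXz : X z = x := by
    rw [S3.X, hPz, mul_div_assoc, div_self (pow_ne_zero 2 Om_ne_zero), mul_one]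
  have hz2 : zt * z ∉ PP.lattice := by
    intro h
    apply hx
    rw [← hXz]
    exact DF_of_mem hz h
  have e1 := wr_C hz hz2
  have e2 := mulx_C hz hz2
  have e3 := Y_sq hz
  have e4 := Y_sq hz2
  rw [hXz] at e1 e2 e3
  show eval x _ = eval x _
  simp only [eval_mul, eval_add, eval_pow, eval_C, Polynomial.eval_X]
  rw [tF_C, e2]
  have e5 : (Y z * (WF ℂ).eval x) ^ 2 = (zt * Y (zt * z) * (DF ℂ).eval x ^ 2) ^ 2 := by rw [e1]
  rw [mul_pow, mul_pow, mul_pow, e3, e4] at e5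
  linear_combination e5 / 4

private theorem TaB_map1 {F : Type*} [Field F] [Algebra K F] :
    ((Polynomial.X ^ 3 + C (cA (𝓞 K)) * Polynomial.X + C (cB (𝓞 K))) *
      (derivative CD.Nt * CD.Dt - CD.Nt * derivative CD.Dt) ^ 2).map (io F) =
    (Polynomial.X ^ 3 + C (cA F) * Polynomial.X + C (cB F)) * WF F ^ 2 := by
  unfold WF NF DF
  simp only [Polynomial.map_mul, Polynomial.map_add, Polynomial.map_pow, Polynomial.map_sub, map_X,
    map_intCast, Polynomial.map_intCast, derivative_map]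

private theorem TaB_map2 {F : Type*} [Field F] [Algebra K F] :
    (C (ta ^ 2) * CD.Dt * (CD.Nt ^ 3 + C (cA (𝓞 K)) * CD.Nt * CD.Dt ^ 2 +
      C (cB (𝓞 K)) * CD.Dt ^ 3)).map (io F) =
    C (tF F ^ 2) * DF F * (NF F ^ 3 + C (cA F) * NF F * DF F ^ 2 + C (cB F) * DF F ^ 3) := by
  have h : io F ta = tF F := rfl
  unfold NF DF
  simp only [Polynomial.map_mul, Polynomial.map_add, Polynomial.map_pow, map_C, map_intCast,
    Polynomial.map_intCast, map_pow, h]

private theorem TaB_int :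
    (Polynomial.X ^ 3 + C (cA (𝓞 K)) * Polynomial.X + C (cB (𝓞 K))) *
      (derivative CD.Nt * CD.Dt - CD.Nt * derivative CD.Dt) ^ 2 =
    C (ta ^ 2) * CD.Dt * (CD.Nt ^ 3 + C (cA (𝓞 K)) * CD.Nt * CD.Dt ^ 2 +
      C (cB (𝓞 K)) * CD.Dt ^ 3) := by
  apply Polynomial.map_injective (io ℂ) io_inj
  rw [TaB_map1, TaB_map2]
  exact poly_id_C

/-- the identity satisfied by the multiplication by `ta` -/
theorem poly_id (F : Type*) [Field F] [Algebra K F] :
    (Polynomial.X ^ 3 + C (cA F) * Polynomial.X + C (cB F)) * WF F ^ 2 =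
    C (tF F ^ 2) * DF F * (NF F ^ 3 + C (cA F) * NF F * DF F ^ 2 + C (cB F) * DF F ^ 3) := by
  have h1 := congrArg (Polynomial.map (io F)) TaB_int
  rwa [TaB_map1, TaB_map2] at h1

end

end Pool.Agent.Lib.MP_1a91b9_nuX.DB
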