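import Pool.Agent.Lib.MP_1a91b9_nuX.DB.TaB

/-!
# The multiplication by `ta` on the points

PROOF. `taF_eqn`: evaluate `poly_id` at `x`: `(x ^ 3 + A x + B) W ^ 2 = ta ^ 2 D (N ^ 3 + A N D ^ 2 + B D ^ 3)`, use `y ^ 2 = x ^ 3 + A x + B` and divide by
`ta ^ 2 D ^ 4` (`field_simp`).
`pm_taF`: `f (DF.eval x) = DF.eval (f x)` as `DF F' = (DF F).map f` (`Polynomial.map_map`, `f.comp_algebraMap`), the same for `NF`, `WF`
(`Polynomial.derivative_map`), `f (tF F) = tF F'`.
`uni_taF`: `z ∈ lattice`: both sides are `0`. `z` not in the lattice, `zt z ∈ lattice`: `DF_of_mem`, `taF_of_eq`. Else `DF_ne`, `mulx_C`, `wr_C`: coordinates of `u (zt z)` are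
`X (zt z)`, `Y (zt z) / 2` (`pt_ext`, `exists_mk`).
`taF_add_C`: over `ℂ` by `uni_taF` and the surjectivity of `u`. `taF_quad_C`: `taF (taF (u z)) = u (zt (zt z)) = u (tr (zt z) - nm z)` (`S3.zt_quad`).
-/

set_option autoImplicit false

namespace Pool.Agent.Lib.MP_1a91b9_nuX.DB

open NumberField Polynomial WeierstrassCurve Pool.Agent.Lib.MP_1a91b9_nuT S3

noncomputable section

variable [CD]

section
variable {F : Type*} [Field F] [Algebra K F]

theorem taF_eqn {x y : F} (h : y ^ 2 = x ^ 3 + cA F * x + cB F) (hD : (DF F).eval x ≠ 0) :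
    (y * (WF F).eval x / (tF F * (DF F).eval x ^ 2)) ^ 2 =
      ((NF F).eval x / (DF F).eval x) ^ 3 + cA F * ((NF F).eval x / (DF F).eval x) + cB F := by
  have ht := tF_ne (F := F)
  have e := congrArg (Polynomial.eval x) (poly_id F)
  simp only [eval_mul, eval_add, eval_pow, eval_X, eval_C] at e
  rw [← h] at e
  obtain ⟨N, hN⟩ : ∃ N, N = (NF F).eval x := ⟨_, rfl⟩
  obtain ⟨D, hD'⟩ : ∃ D, D = (DF F).eval x := ⟨_, rfl⟩
  obtain ⟨W, hW⟩ : ∃ W, W = (WF F).eval x := ⟨_, rfl⟩
  rw [← hN, ← hD', ← hW] at e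
  rw [← hD'] at hD
  rw [← hN, ← hD', ← hW, div_pow, mul_pow, e, div_eq_iff (pow_ne_zero 2 (mul_ne_zero ht (pow_ne_zero 2 hD)))]
  field_simp

open scoped Classical in
/-- the multiplication by `ta` -/
def taF : Pt F → Pt F
  | .zero => 0
  | .some x y h => if hD : (DF F).eval x = 0 then 0 else
      mkPt ((NF F).eval x / (DF F).eval x) (y * (WF F).eval x / (tF F * (DF F).eval x ^ 2))
        (taF_eqn ((nons_iff x y).1 h) hD)

theorem taF_zero : taF (0 : Pt F) = 0 := rfl

theorem taF_of_ne {x y : F} (h : y ^ 2 = x ^ 3 + cA F * x + cB F) (hD : (DF F).eval x ≠ 0) :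
    taF (mkPt x y h) = mkPt ((NF F).eval x / (DF F).eval x)
      (y * (WF F).eval x / (tF F * (DF F).eval x ^ 2)) (taF_eqn h hD) := dif_neg hD

theorem taF_of_eq {x y : F} (h : y ^ 2 = x ^ 3 + cA F * x + cB F) (hD : (DF F).eval x = 0) :
    taF (mkPt x y h) = 0 := dif_pos hD

theorem taF_eq_zero {x y : F} (h : y ^ 2 = x ^ 3 + cA F * x + cB F) :
    taF (mkPt x y h) = 0 ↔ (DF F).eval x = 0 := by
  constructor
  · intro h1
    by_contra h2
    rw [taF_of_ne h h2] at h1
    exact mk_ne_zero _ _ _ h1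
  · exact taF_of_eq h

end

section
variable {F F' : Type*} [Field F] [Algebra K F] [Field F'] [Algebra K F'] [DecidableEq F]
  [DecidableEq F']

private theorem taf_io (f : F →ₐ[K] F') : io F' = (f : F →+* F').comp (io F) :=
  RingHom.ext fun a => (f.commutes _).symm

private theorem taf_D (f : F →ₐ[K] F') (x : F) :
    (DF F').eval (f x) = f ((DF F).eval x) := by
  have e : DF F' = (DF F).map (f : F →+* F') := by
    rw [DF, DF, Polynomial.map_map, ← taf_io]
  rw [e, Polynomial.eval_map]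
  exact Polynomial.eval₂_at_apply (f : F →+* F') x

private theorem taf_N (f : F →ₐ[K] F') (x : F) :
    (NF F').eval (f x) = f ((NF F).eval x) := by
  have e : NF F' = (NF F).map (f : F →+* F') := by
    rw [NF, NF, Polynomial.map_map, ← taf_io]
  rw [e, Polynomial.eval_map]
  exact Polynomial.eval₂_at_apply (f : F →+* F') x

private theorem taf_W (f : F →ₐ[K] F') (x : F) :
    (WF F').eval (f x) = f ((WF F).eval x) := by
  have e1 : DF F' = (DF F).map (f : F →+* F') := by
    rw [DF, DF, Polynomial.map_map, ← taf_io]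
  have e2 : NF F' = (NF F).map (f : F →+* F') := by
    rw [NF, NF, Polynomial.map_map, ← taf_io]
  have e : WF F' = (WF F).map (f : F →+* F') := by
    rw [WF, WF, e1, e2, Polynomial.derivative_map, Polynomial.derivative_map,
      Polynomial.map_sub, Polynomial.map_mul, Polynomial.map_mul]
  rw [e, Polynomial.eval_map]
  exact Polynomial.eval₂_at_apply (f : F →+* F') x

private theorem taf_t (f : F →ₐ[K] F') : tF F' = f (tF F) := (f.commutes _).symm

theorem pm_taF (f : F →ₐ[K] F') (P : Pt F) : pm f (taF P) = taF (pm f P) := by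
  rcases cases_pt P with rfl | ⟨x, y, h, rfl⟩
  · rw [taF_zero, map_zero, taF_zero]
  · obtain ⟨h', e'⟩ := pm_mk f x y h
    rw [e']
    by_cases hD : (DF F).eval x = 0
    · rw [taF_of_eq h hD, map_zero, taF_of_eq h' (by rw [taf_D f x, hD, map_zero])]
    · have hD' : (DF F').eval (f x) ≠ 0 := by
        rw [taf_D f x]
        exact (map_ne_zero_iff f (f : F →+* F').injective).2 hD
      rw [taF_of_ne h hD, taF_of_ne h' hD']
      obtain ⟨h2, e2⟩ := pm_mk f _ _ (taF_eqn h hD)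
      rw [e2, mk_inj, taf_D f x, taf_N f x, taf_W f x, taf_t f]
      simp only [map_div₀, map_mul, map_pow, and_self]

end

theorem uni_taF [DecidableEq ℂ] (u : ℂ →+ Pt ℂ) (h0 : ∀ z, u z = 0 ↔ z ∈ PP.lattice)
    (h1 : ∀ z, z ∉ PP.lattice → xc (u z) = X z ∧ yc (u z) = Y z / 2) (z : ℂ) :
    u (zt * z) = taF (u z) := by
  by_cases hz : z ∈ PP.lattice
  · rw [(h0 z).2 hz, (h0 (zt * z)).2 (zt_mul_mem hz), taF_zero]
  · have hu : u z ≠ 0 := fun h => hz ((h0 z).1 h)
    obtain ⟨hx, hy⟩ := h1 z hz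
    rcases cases_pt (u z) with h | ⟨x, y, h, e⟩
    · exact absurd h hu
    · rw [e, xc_mk] at hx
      rw [e, yc_mk] at hy
      rw [e]
      by_cases hz2 : zt * z ∈ PP.lattice
      · rw [(h0 (zt * z)).2 hz2, taF_of_eq h (by rw [hx]; exact DF_of_mem hz hz2)]
      · have hD : (DF ℂ).eval (X z) ≠ 0 := DF_ne hz hz2
        have hm := mulx_C hz hz2
        have hw := wr_C hz hz2
        have hu2 : u (zt * z) ≠ 0 := fun h => hz2 ((h0 _).1 h)
        obtain ⟨hx2, hy2⟩ := h1 _ hz2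
        rcases cases_pt (u (zt * z)) with h' | ⟨x', y', h', e'⟩
        · exact absurd h' hu2
        · rw [e', xc_mk] at hx2
          rw [e', yc_mk] at hy2
          have hD2 : (DF ℂ).eval x ≠ 0 := by rw [hx]; exact hD
          rw [e', taF_of_ne h hD2, mk_inj, hx2, hy2, hx, hy, tF_C]
          have hzt := zt_ne_zero
          constructor
          · rw [hm, mul_div_cancel_right₀ _ hD]
          · rw [eq_div_iff (mul_ne_zero hzt (pow_ne_zero 2 hD))]
            linear_combination (-1 / 2) * hw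

theorem taF_add_C [DecidableEq ℂ] (P Q : Pt ℂ) : taF (P + Q) = taF P + taF Q := by
  obtain ⟨u, hs, h0, h1⟩ := exists_uniA
  obtain ⟨z, rfl⟩ := hs P
  obtain ⟨w, rfl⟩ := hs Q
  rw [← map_add, ← uni_taF u h0 h1, ← uni_taF u h0 h1, ← uni_taF u h0 h1, mul_add, map_add]

theorem taF_quad_C [DecidableEq ℂ] (P : Pt ℂ) :
    taF (taF P) = CD.tr • taF P - CD.nm • P := by
  obtain ⟨u, hs, h0, h1⟩ := exists_uniA
  obtain ⟨z, rfl⟩ := hs P
  rw [← uni_taF u h0 h1, ← uni_taF u h0 h1]
  have e : zt * (zt * z) = CD.tr • (zt * z) - CD.nm • z := by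
    rw [zsmul_eq_mul, zsmul_eq_mul]
    linear_combination z * zt_quad
  rw [e, map_sub, map_zsmul, map_zsmul]

end

end Pool.Agent.Lib.MP_1a91b9_nuX.DB
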