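import Pool.Agent.Lib.MP_1a91b9_nuX.DB.Uni
import Pool.Agent.Lib.MP_1a91b9_nuT.DB.Bas

/-!
# The points of `y² = x³ + A x + B` killed by a prime element of degree one
-/

set_option autoImplicit false

namespace Pool.Agent.Lib.MP_1a91b9_nuX.DB

open NumberField IsDedekindDomain WeierstrassCurve Pool.Agent.Lib.MP_1a91b9_nuT S3

export Pool.Agent.Lib.MP_1a91b9_nuT.DB (Deg1 Deg1.exists_int Deg1.dvd_int_iff Deg1.isPrime IsRes
  exists_isRes isRes_deg1 exists_emb mem_all_integral)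

variable [CD]

section
variable {F : Type*} [Field F] [Algebra K F] [DecidableEq F] {β : 𝓞 K} {p : ℕ}

private theorem toa_dvd {R : Pt F} (hR : sm F β R = 0) {c : 𝓞 K} (hc : β ∣ c) :
    sm F c R = 0 := by
  obtain ⟨d, rfl⟩ := hc
  rw [mul_comm, map_mul]
  change sm F d (sm F β R) = 0
  rw [hR, map_zero]

theorem sm_eq_int {R : Pt F} (hR : sm F β R = 0) {c : 𝓞 K} {k : ℤ} (hc : β ∣ c - k) :
    sm F c R = k • R := by
  have h1 := toa_dvd hR hc
  rw [map_sub] at h1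
  have h2 : sm F c R - sm F (k : 𝓞 K) R = 0 := h1
  rw [sm_int] at h2
  exact sub_eq_zero.1 h2

theorem p_smul (h : Deg1 β p) {R : Pt F} (hR : sm F β R = 0) : p • R = 0 := by
  have h1 : β ∣ ((p : ℤ) : 𝓞 K) := (h.dvd_int_iff p).2 dvd_rfl
  have h2 := toa_dvd hR h1
  rw [sm_int, natCast_zsmul] at h2
  exact h2

theorem smul_zero_iff (h : Deg1 β p) {R : Pt F} (hR : sm F β R = 0) (hR0 : R ≠ 0) (n : ℤ) :
    n • R = 0 ↔ (p : ℤ) ∣ n := by
  constructor
  · intro h1
    by_contra h2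
    have hp : Prime (p : ℤ) := Nat.prime_iff_prime_int.1 h.prime
    have h3 : IsCoprime (p : ℤ) n := (hp.coprime_iff_not_dvd).2 h2
    obtain ⟨a, b, hab⟩ := h3
    apply hR0
    have h4 := p_smul h hR
    calc R = (1 : ℤ) • R := (one_zsmul R).symm
      _ = (a * p + b * n) • R := by rw [hab]
      _ = a • ((p : ℤ) • R) + b • (n • R) := by rw [add_zsmul, mul_zsmul, mul_zsmul]
      _ = 0 := by rw [h1, natCast_zsmul, h4, zsmul_zero, zsmul_zero, add_zero]
  · rintro ⟨k, rfl⟩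
    rw [mul_comm, mul_zsmul, natCast_zsmul, p_smul h hR, zsmul_zero]

end


end Pool.Agent.Lib.MP_1a91b9_nuX.DB
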