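import Pool.Agent.Lib.MP_1a91b9_nuX.DB.ValA

/-!
# The kernel of reduction of `y² = x³ + A x + B`: addition

PROOF. Port of Pool/Agent/Lib/MP_1a91b9_ntX/DB/ValB.lean (on main; curve `y² = x³ + D` there; read it, its structure `valB_core`, `ker_add` (cases a, b, c) and the rest are kept).
Changes: in the coordinates `t = -x/y`, `w = -1/y` the curve is `w = t^3 + A t w^2 + B w^3`. Line `w = α t + γ`, `M = 1 + A α^2 + B α^3`, (`v M = 1`, as `v α ≤ r^2 < 1`):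
`M (t1 + t2 + t3) = - (2 A α γ + 3 B α^2 γ)`, `M σ2 = A γ^2 + 3 B α γ^2 - α`, `M σ3 = γ - B γ^3`. With these `M w1 w2 w3 = γ^3`, `M (t1 w2 w3 + t2 w1 w3 + t3 w1 w2) = α^2 γ`
(`w_i = α t_i + γ`: `α^3 s3 + α^2 γ s2 + α γ^2 s1 + γ^3 hM` and `3 α^2 s3 + 2 α γ s2 + γ^2 s1`), `w3 = t3^3 + A t3 w3^2 + B w3^3`.
(b) `(w1 - w2)(1 - A t2 (w1 + w2) - B (w1^2 + w1 w2 + w2^2)) = (t1 - t2)(t1^2 + t1 t2 + t2^2 + A w1^2)`, `α` the quotient, `v α ≤ r^2`.
(c) `α (1 - 2 A t w - 3 B w^2) = 3 t^2 + A w^2`, `γ (1 - 2 A t w - 3 B w^2) = - 2 w`, `γ = w - α t`, slope of the tangent `(3 x^2 + A)/(2 y) = α/γ`.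
(a) `Q = -P`, `tc (-P) = - tc P` (`tc_neg`).
`P + Q = (x_3, -y_3')`, `(x_3, y_3') = (t_3/w_3, -1/w_3)`, `tc (P + Q) = - t_3 = t_1 + t_2 + (2 A α γ + 3 B α^2 γ)/M`, error `≤ v α v γ ≤ r^5 ≤ r^4`.
In `valB_core` the coordinates of the sum are `x_3 = m^2 - t1/w1 - t2/w2`, `m = α/γ`, `y_3 = -(m (x_3 - t1/w1) + -1/w1)`.
-/

set_option autoImplicit false

namespace Pool.Agent.Lib.MP_1a91b9_nuX.DB

open NumberField IsDedekindDomain WeierstrassCurve Pool.Agent.Lib.MP_1a91b9_nuT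

variable [CD]

section
variable {F : Type*} [Field F] [Algebra K F] [DecidableEq F] {Γ : Type*}
  [LinearOrderedCommGroupWithZero Γ] (v : Valuation F Γ)

omit [DecidableEq F] in
private theorem valB_M (α : F) {r : Γ} (hr : r < 1) (hα : v α ≤ r ^ 2) :
    v (1 + cA F * α ^ 2 + cB F * α ^ 3) = 1 := by
  have h : v α < 1 := lt_of_le_of_lt hα (pow_lt_one₀ zero_le hr (by norm_num))
  have h2 : v (cA F * α ^ 2 + cB F * α ^ 3) < 1 := by
    refine v.map_add_lt ?_ ?_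
    · rw [map_mul, map_pow]
      exact mul_lt_one_of_nonneg_of_lt_one_right (v_cA_le v) zero_le
        (pow_lt_one₀ zero_le h (by norm_num))
    · rw [map_mul, map_pow]
      exact mul_lt_one_of_nonneg_of_lt_one_right (v_cB_le v) zero_le
        (pow_lt_one₀ zero_le h (by norm_num))
  rw [add_assoc]
  exact v.map_one_add_of_lt h2

omit [DecidableEq F] in
/-- the core computation: a point whose negative is the third point of the line `w = α t + γ` -/
private theorem valB_core (t₁ t₂ t₃ w₁ w₂ α γ A : F) {r : Γ} (hr : r < 1)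
    (h1 : v t₁ ≤ r) (h2 : v t₂ ≤ r) (hα : v α ≤ r ^ 2) (hγ : v γ ≤ r ^ 3) (hγ0 : γ ≠ 0)
    (e1 : w₁ = α * t₁ + γ) (e2 : w₂ = α * t₂ + γ) (hw1 : w₁ ≠ 0) (hw2 : w₂ ≠ 0)
    (hA : A = 1 + cA F * α ^ 2 + cB F * α ^ 3)
    (s1 : A * t₃ = -(2 * cA F * α * γ + 3 * cB F * α ^ 2 * γ) - A * (t₁ + t₂))
    (s2 : A * (t₁ * t₂ + (t₁ + t₂) * t₃) = cA F * γ ^ 2 + 3 * cB F * α * γ ^ 2 - α)
    (s3 : A * (t₁ * t₂ * t₃) = γ - cB F * γ ^ 3)
    (S : Pt F) (m x₃ y₃ : F) (hm : m = α / γ) (hx3 : x₃ = m ^ 2 - t₁ / w₁ - t₂ / w₂)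
    (hy3 : y₃ = -(m * (x₃ - t₁ / w₁) + -1 / w₁)) (h3 : y₃ ^ 2 = x₃ ^ 3 + cA F * x₃ + cB F)
    (hS : S = mkPt x₃ y₃ h3) :
    Ker v S ∧ v (tc S - t₁ - t₂) ≤ r ^ 4 := by
  have r1 : r ≤ 1 := hr.le
  have va : v (cA F) ≤ 1 := v_cA_le v
  have vb : v (cB F) ≤ 1 := v_cB_le v
  have vA : v A = 1 := by
    rw [hA]
    exact valB_M v α hr hα
  have hA0 : A ≠ 0 := by
    intro h
    rw [h, map_zero] at vA
    exact zero_ne_one vA
  obtain ⟨w₃, hw₃⟩ : ∃ w, w = α * t₃ + γ := ⟨_, rfl⟩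
  have prod : A * (w₁ * w₂ * w₃) = γ ^ 3 := by
    rw [e1, e2, hw₃]
    linear_combination α ^ 3 * s3 + α ^ 2 * γ * s2 + α * γ ^ 2 * s1 + γ ^ 3 * hA
  have hw30 : w₃ ≠ 0 := by
    intro h
    rw [h, mul_zero, mul_zero] at prod
    exact hγ0 (pow_eq_zero_iff (by norm_num)|>.1 prod.symm)
  have sum : A * (t₁ * w₂ * w₃ + t₂ * w₁ * w₃ + t₃ * w₁ * w₂) = α ^ 2 * γ := by
    rw [e1, e2, hw₃]
    linear_combination 3 * α ^ 2 * s3 + 2 * α * γ * s2 + γ ^ 2 * s1
  have curve : w₃ = t₃ ^ 3 + cA F * t₃ * w₃ ^ 2 + cB F * w₃ ^ 3 := by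
    rw [hw₃]
    linear_combination -s3 + t₃ * s2 - t₃ ^ 2 * s1 + t₃ ^ 3 * hA
  have ex : x₃ = t₃ / w₃ := by
    have hm2 : m ^ 2 = (t₁ * w₂ * w₃ + t₂ * w₁ * w₃ + t₃ * w₁ * w₂) / (w₁ * w₂ * w₃) := by
      rw [eq_div_iff (mul_ne_zero (mul_ne_zero hw1 hw2) hw30)]
      apply mul_left_cancel₀ hA0
      have h4 : A * (m ^ 2 * (w₁ * w₂ * w₃)) = m ^ 2 * (A * (w₁ * w₂ * w₃)) := by ring
      rw [h4, prod, sum, hm]
      field_simp
    rw [hx3, hm2]
    field_simp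
    ring
  have ey : y₃ = 1 / w₃ := by
    have hmx : γ * (m * (x₃ - t₁ / w₁) + -1 / w₁) = γ * (-1 / w₃) := by
      have : γ * m = α := by rw [hm]; field_simp
      have hA : α * (t₁ / w₁) + γ / w₁ = 1 := by
        field_simp
        exact e1.symm
      have hB : α * (t₃ / w₃) + γ / w₃ = 1 := by
        field_simp
        exact hw₃.symm
      rw [ex]
      have hC : γ * (-1 / w₁) = -(γ / w₁) := by ring
      have hD : γ * (-1 / w₃) = -(γ / w₃) := by ring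
      rw [mul_add, hC, hD]
      linear_combination (t₃ / w₃ - t₁ / w₁) * this - hA + hB
    have := mul_left_cancel₀ hγ0 hmx
    rw [hy3, this]
    ring
  -- valuations
  have r4 : r ^ 4 ≤ r := by
    calc r ^ 4 ≤ r ^ 1 := pow_le_pow_of_le_one zero_le r1 (by norm_num)
      _ = r := pow_one r
  have v3 : v (3 : F) ≤ 1 := by
    have := v_nat_le v 3
    simpa using this
  have v2 : v (2 : F) ≤ 1 := by
    have := v_nat_le v 2
    simpa using this
  have vσ : v (t₁ + t₂ + t₃) ≤ r ^ 4 := by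
    have e : A * (t₁ + t₂ + t₃) = -(2 * cA F * α * γ + 3 * cB F * α ^ 2 * γ) := by
      linear_combination s1
    have h4 : v (t₁ + t₂ + t₃) = v (2 * cA F * α * γ + 3 * cB F * α ^ 2 * γ) := by
      rw [← one_mul (v (t₁ + t₂ + t₃)), ← vA, ← map_mul, e, Valuation.map_neg]
    rw [h4]
    refine v.map_add_le ?_ ?_
    · rw [map_mul, map_mul, map_mul]
      calc v 2 * v (cA F) * v α * v γ ≤ 1 * 1 * r ^ 2 * r ^ 3 :=
            mul_le_mul' (mul_le_mul' (mul_le_mul' v2 va) hα) hγ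
        _ = r ^ 4 * r := by rw [one_mul, one_mul, ← pow_add, ← pow_succ]
        _ ≤ r ^ 4 * 1 := mul_le_mul_right r1 _
        _ = r ^ 4 := mul_one _
    · rw [map_mul, map_mul, map_mul, map_pow]
      calc v 3 * v (cB F) * v α ^ 2 * v γ ≤ 1 * 1 * (r ^ 2) ^ 2 * 1 := by
            refine mul_le_mul' (mul_le_mul' (mul_le_mul' v3 vb) (pow_le_pow_left₀ zero_le hα 2)) ?_
            exact hγ.trans (pow_le_one₀ zero_le r1)
        _ = r ^ 4 := by rw [one_mul, one_mul, mul_one, ← pow_mul]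
  have vt3 : v t₃ ≤ r := by
    have e : t₃ = (t₁ + t₂ + t₃) - t₁ - t₂ := by ring
    rw [e]
    exact v.map_sub_le (v.map_sub_le (vσ.trans r4) h1) h2
  have vw3 : v w₃ ≤ r ^ 3 := by
    rw [hw₃]
    refine v.map_add_le ?_ hγ
    rw [map_mul]
    calc v α * v t₃ ≤ r ^ 2 * r := mul_le_mul' hα vt3
      _ = r ^ 3 := by rw [← pow_succ]
  have vw3' : v w₃ < 1 := lt_of_le_of_lt vw3 (pow_lt_one₀ zero_le hr (by norm_num))
  have vdw : v (cA F * t₃ * w₃ + cB F * w₃ ^ 2) < 1 := by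
    refine v.map_add_lt ?_ ?_
    · rw [map_mul, map_mul]
      exact mul_lt_one_of_nonneg_of_lt_one_right (mul_le_one' va (vt3.trans r1)) zero_le vw3'
    · rw [map_mul, map_pow]
      exact mul_lt_one_of_nonneg_of_lt_one_right vb zero_le (pow_lt_one₀ zero_le vw3' (by norm_num))
  have v1w : v (1 - (cA F * t₃ * w₃ + cB F * w₃ ^ 2)) = 1 := v.map_one_sub_of_lt vdw
  have vw3t : v w₃ = v t₃ ^ 3 := by
    have : w₃ * (1 - (cA F * t₃ * w₃ + cB F * w₃ ^ 2)) = t₃ ^ 3 := by linear_combination curve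
    have := congrArg v this
    rwa [map_mul, v1w, mul_one, map_pow] at this
  have vw30 : v w₃ ≠ 0 := (Valuation.ne_zero_iff v).2 hw30
  have vt30 : v t₃ ≠ 0 := by
    intro h
    rw [vw3t, h] at vw30
    exact vw30 (by simp)
  have vt31 : v t₃ < 1 := lt_of_le_of_lt vt3 hr
  refine ⟨Or.inr ?_, ?_⟩
  · rw [hS, xc_mk, ex, map_div₀, vw3t]
    have hp : 0 < v t₃ := zero_lt_iff.2 vt30
    rw [one_lt_div₀ (pow_pos hp 3)]
    exact pow_lt_self_of_lt_one₀ hp vt31 (by norm_num)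
  · have htc : tc S = -t₃ := by
      rw [hS, tc, xc_mk, yc_mk, ex, ey]
      field_simp
    have hdiff : tc S - t₁ - t₂ = -(t₁ + t₂ + t₃) := by
      rw [htc]
      ring
    rw [hdiff, Valuation.map_neg]
    exact vσ

/-- the kernel of reduction is stable under addition and the local parameter is almost additive -/
theorem ker_add {P Q : Pt F} (hP : Ker v P) (hQ : Ker v Q) : Ker v (P + Q) ∧
    v (tc (P + Q) - tc P - tc Q) ≤ (max (v (tc P)) (v (tc Q))) ^ 4 := by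
  by_cases hP0 : P = 0
  · subst hP0
    rw [zero_add, tc_zero, sub_zero, sub_self, map_zero]
    exact ⟨hQ, zero_le⟩
  by_cases hQ0 : Q = 0
  · subst hQ0
    rw [add_zero, tc_zero, sub_self, sub_zero, map_zero]
    exact ⟨hP, zero_le⟩
  obtain ⟨q1, eP⟩ := exists_mk hP0
  obtain ⟨q2, eQ⟩ := exists_mk hQ0
  obtain ⟨c1, vw1, ex1⟩ := ker_w v hP hP0
  obtain ⟨c2, vw2, ex2⟩ := ker_w v hQ hQ0
  have yP0 : yc P ≠ 0 := by
    obtain ⟨-, hn, -, h⟩ := ker_tc v hP hP0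
    intro h0
    rw [h0, map_zero, zero_mul] at h
    exact zero_ne_one h
  have yQ0 : yc Q ≠ 0 := by
    obtain ⟨-, hn, -, h⟩ := ker_tc v hQ hQ0
    intro h0
    rw [h0, map_zero, zero_mul] at h
    exact zero_ne_one h
  have ey1 : yc P = -1 / (-1 / yc P) := by field_simp
  have ey2 : yc Q = -1 / (-1 / yc Q) := by field_simp
  have hw1 : -1 / yc P ≠ 0 := div_ne_zero (by norm_num) yP0
  have hw2 : -1 / yc Q ≠ 0 := div_ne_zero (by norm_num) yQ0
  obtain ⟨w₁, hw₁⟩ : ∃ w, w = -1 / yc P := ⟨_, rfl⟩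
  obtain ⟨w₂, hw₂⟩ : ∃ w, w = -1 / yc Q := ⟨_, rfl⟩
  rw [← hw₁] at c1 vw1 ex1 ey1 hw1
  rw [← hw₂] at c2 vw2 ex2 ey2 hw2
  have vt1 : v (tc P) ≤ max (v (tc P)) (v (tc Q)) := le_max_left _ _
  have vt2 : v (tc Q) ≤ max (v (tc P)) (v (tc Q)) := le_max_right _ _
  have hr : max (v (tc P)) (v (tc Q)) < 1 := max_lt (ker_tc_lt v hP) (ker_tc_lt v hQ)
  obtain ⟨t₁, ht₁⟩ : ∃ t, t = tc P := ⟨_, rfl⟩
  obtain ⟨t₂, ht₂⟩ : ∃ t, t = tc Q := ⟨_, rfl⟩
  rw [← ht₁] at c1 vw1 ex1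
  rw [← ht₂] at c2 vw2 ex2
  rw [← ht₁, ← ht₂] at vt1 vt2 hr ⊢
  obtain ⟨r, hr'⟩ : ∃ r, r = max (v t₁) (v t₂) := ⟨_, rfl⟩
  rw [← hr'] at vt1 vt2 hr ⊢
  have va : v (cA F) ≤ 1 := v_cA_le v
  have vb : v (cB F) ≤ 1 := v_cB_le v
  have v3 : v (3 : F) ≤ 1 := by
    have := v_nat_le v 3
    simpa using this
  have v2 : v (2 : F) ≤ 1 := by
    have := v_nat_le v 2
    simpa using this
  have vw1r : v w₁ ≤ r ^ 3 := by
    rw [vw1]
    exact pow_le_pow_left₀ zero_le vt1 3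
  have vw1r' : v w₁ ≤ r := by
    refine vw1r.trans ?_
    calc r ^ 3 ≤ r ^ 1 := pow_le_pow_of_le_one zero_le hr.le (by norm_num)
      _ = r := pow_one r
  have vw2r : v w₂ ≤ r ^ 3 := by
    rw [vw2]
    exact pow_le_pow_left₀ zero_le vt2 3
  have r31 : r ^ 3 < 1 := pow_lt_one₀ zero_le hr (by norm_num)
  have vw11 : v w₁ < 1 := lt_of_le_of_lt vw1r r31
  have vw21 : v w₂ < 1 := lt_of_le_of_lt vw2r r31
  by_cases hx : xc P = xc Q
  · by_cases hy : yc Q = -yc P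
    · -- case (a)
      have hsum : P + Q = 0 := by
        obtain ⟨q2', eQ'⟩ : ∃ h, Q = mkPt (xc P) (yc Q) h := by
          rw [hx]
          exact ⟨q2, eQ⟩
        rw [eP, eQ']
        exact mk_add_neg _ _ hy
      rw [hsum]
      refine ⟨Or.inl rfl, ?_⟩
      have e2 : t₂ = -t₁ := by
        rw [ht₂, ht₁, tc, tc, hy, ← hx]
        field_simp
      have : tc (0 : Pt F) - t₁ - t₂ = 0 := by
        rw [tc_zero, e2]
        ring
      rw [this, map_zero]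
      exact zero_le
    · -- case (c)
      have hyy : yc P = yc Q := by
        have h0 : (yc P - yc Q) * (yc P + yc Q) = 0 := by
          rw [← hx] at q2
          linear_combination q1 - q2
        rcases mul_eq_zero.1 h0 with h | h
        · exact sub_eq_zero.1 h
        · exact absurd (by linear_combination h) hy
      have hPQ : Q = P := pt_ext hQ0 hP0 hx.symm hyy.symm
      have hw12 : w₂ = w₁ := by rw [hw₁, hw₂, hyy]
      have ht12 : t₂ = t₁ := by rw [ht₁, ht₂, hPQ]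
      rw [hPQ, ht12]
      have v2w : v (2 * cA F * t₁ * w₁ + 3 * cB F * w₁ ^ 2) < 1 := by
        refine v.map_add_lt ?_ ?_
        · rw [map_mul, map_mul, map_mul]
          exact mul_lt_one_of_nonneg_of_lt_one_right
            (mul_le_one' (mul_le_one' v2 va) (vt1.trans hr.le)) zero_le vw11
        · rw [map_mul, map_mul, map_pow]
          exact mul_lt_one_of_nonneg_of_lt_one_right (mul_le_one' v3 vb) zero_le
            (pow_lt_one₀ zero_le vw11 (by norm_num))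
      have v12 : v (1 - (2 * cA F * t₁ * w₁ + 3 * cB F * w₁ ^ 2)) = 1 := v.map_one_sub_of_lt v2w
      obtain ⟨D, hD⟩ : ∃ D, D = 1 - (2 * cA F * t₁ * w₁ + 3 * cB F * w₁ ^ 2) := ⟨_, rfl⟩
      rw [← hD] at v12
      have h12 : D ≠ 0 := by
        intro h
        rw [h, map_zero] at v12
        exact zero_ne_one v12
      obtain ⟨α, hα⟩ : ∃ α, α = (3 * t₁ ^ 2 + cA F * w₁ ^ 2) / D := ⟨_, rfl⟩
      obtain ⟨γ, hγ⟩ : ∃ γ, γ = w₁ - α * t₁ := ⟨_, rfl⟩
      have eα : α * D = 3 * t₁ ^ 2 + cA F * w₁ ^ 2 := by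
        rw [hα]
        exact div_mul_cancel₀ _ h12
      have eγ : γ * D = -2 * w₁ := by
        rw [hγ]
        linear_combination -t₁ * eα + 3 * c1 + w₁ * hD
      have hγ0 : γ ≠ 0 := by
        intro h
        rw [h, zero_mul] at eγ
        exact mul_ne_zero (neg_ne_zero.2 two_ne) hw1 eγ.symm
      have vα : v α ≤ r ^ 2 := by
        rw [hα, map_div₀, v12, div_one]
        refine v.map_add_le ?_ ?_
        · rw [map_mul, map_pow]
          calc v 3 * v t₁ ^ 2 ≤ 1 * r ^ 2 := mul_le_mul' v3 (pow_le_pow_left₀ zero_le vt1 2)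
            _ = r ^ 2 := one_mul _
        · rw [map_mul, map_pow]
          calc v (cA F) * v w₁ ^ 2 ≤ 1 * r ^ 2 := mul_le_mul' va (pow_le_pow_left₀ zero_le vw1r' 2)
            _ = r ^ 2 := one_mul _
      have vγ : v γ ≤ r ^ 3 := by
        rw [hγ]
        refine v.map_sub_le vw1r ?_
        rw [map_mul]
        calc v α * v t₁ ≤ r ^ 2 * r := mul_le_mul' vα vt1
          _ = r ^ 3 := by rw [← pow_succ]
      obtain ⟨h', e'⟩ := mk_dbl (xc P) (yc P) q1 yP0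
      rw [← eP] at e'
      have hm : (3 * xc P ^ 2 + cA F) / (2 * yc P) = α / γ := by
        rw [div_eq_div_iff (mul_ne_zero two_ne yP0) hγ0, ex1, ey1]
        have h6 : ((3 * (t₁ / w₁) ^ 2 + cA F) * γ) * D = (α * (2 * (-1 / w₁))) * D := by
          have a1 : ((3 * (t₁ / w₁) ^ 2 + cA F) * γ) * D =
              (3 * (t₁ / w₁) ^ 2 + cA F) * (-2 * w₁) := by
            rw [← eγ]; ring
          have a2 : (α * (2 * (-1 / w₁))) * D =
              (3 * t₁ ^ 2 + cA F * w₁ ^ 2) * (2 * (-1 / w₁)) := by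
            rw [← eα]; ring
          rw [a1, a2]
          field_simp
        exact mul_right_cancel₀ h12 h6
      have hA0 : 1 + cA F * α ^ 2 + cB F * α ^ 3 ≠ 0 := by
        intro h
        have h4 := valB_M v α hr vα
        rw [h, map_zero] at h4
        exact zero_ne_one h4
      obtain ⟨A, hA⟩ : ∃ A, A = 1 + cA F * α ^ 2 + cB F * α ^ 3 := ⟨_, rfl⟩
      rw [← hA] at hA0
      obtain ⟨t₃, ht₃⟩ : ∃ t, t = -(2 * cA F * α * γ + 3 * cB F * α ^ 2 * γ) / A - t₁ - t₁ :=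
        ⟨_, rfl⟩
      have s1 : A * t₃ = -(2 * cA F * α * γ + 3 * cB F * α ^ 2 * γ) - A * (t₁ + t₁) := by
        rw [ht₃]
        field_simp
        ring
      refine valB_core v t₁ t₁ t₃ w₁ w₁ α γ A hr vt1 vt1 vα vγ hγ0 (by rw [hγ]; ring)
        (by rw [hγ]; ring) hw1 hw1 hA s1 ?_ ?_ (P + P) (α / γ) _ _ rfl ?_ ?_ h' e'
      · rw [hγ] at s1 ⊢
        linear_combination 2 * t₁ * s1 + eα - 3 * t₁ ^ 2 * hA - α * hD
      · rw [hγ] at s1 ⊢
        linear_combination t₁ ^ 2 * s1 + t₁ * eα - c1 - 2 * t₁ ^ 3 * hA - t₁ * α * hD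
      · rw [hm, ex1]
      · rw [hm, ex1, ey1]
  · -- case (b)
    have vq0 : v (cB F * (w₁ ^ 2 + w₁ * w₂ + w₂ ^ 2)) < 1 := by
      rw [map_mul]
      refine mul_lt_one_of_nonneg_of_lt_one_right vb zero_le ?_
      refine v.map_add_lt (v.map_add_lt ?_ ?_) ?_
      · rw [map_pow]
        exact pow_lt_one₀ zero_le vw11 (by norm_num)
      · rw [map_mul]
        exact mul_lt_one_of_nonneg_of_lt_one_right vw11.le zero_le vw21
      · rw [map_pow]
        exact pow_lt_one₀ zero_le vw21 (by norm_num)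
    have vq : v (cA F * t₂ * (w₁ + w₂) + cB F * (w₁ ^ 2 + w₁ * w₂ + w₂ ^ 2)) < 1 := by
      refine v.map_add_lt ?_ vq0
      rw [map_mul, map_mul]
      exact mul_lt_one_of_nonneg_of_lt_one_right (mul_le_one' va (vt2.trans hr.le)) zero_le
        (v.map_add_lt vw11 vw21)
    have v12 := v.map_one_sub_of_lt vq
    obtain ⟨D, hD⟩ : ∃ D, D = 1 - (cA F * t₂ * (w₁ + w₂) +
      cB F * (w₁ ^ 2 + w₁ * w₂ + w₂ ^ 2)) := ⟨_, rfl⟩
    rw [← hD] at v12
    have h12 : D ≠ 0 := by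
      intro h
      rw [h, map_zero] at v12
      exact zero_ne_one v12
    have key : (w₁ - w₂) * D =
        (t₁ - t₂) * (t₁ ^ 2 + t₁ * t₂ + t₂ ^ 2 + cA F * w₁ ^ 2) := by
      linear_combination c1 - c2 + (w₁ - w₂) * hD
    have hne : t₁ - t₂ ≠ 0 := by
      intro h
      rw [h, zero_mul] at key
      have h1 := (mul_eq_zero.1 key).resolve_right h12
      apply hx
      rw [ex1, ex2, sub_eq_zero.1 h1, sub_eq_zero.1 h]
    obtain ⟨α, hα⟩ : ∃ α, α = (t₁ ^ 2 + t₁ * t₂ + t₂ ^ 2 + cA F * w₁ ^ 2) / D := ⟨_, rfl⟩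
    obtain ⟨γ, hγ⟩ : ∃ γ, γ = w₁ - α * t₁ := ⟨_, rfl⟩
    have eα : α * D = t₁ ^ 2 + t₁ * t₂ + t₂ ^ 2 + cA F * w₁ ^ 2 := by
      rw [hα]
      exact div_mul_cancel₀ _ h12
    have eα' : α * (t₁ - t₂) = w₁ - w₂ := by
      apply mul_right_cancel₀ h12
      linear_combination (t₁ - t₂) * eα - key
    have e1 : w₁ = α * t₁ + γ := by rw [hγ]; ring
    have e2 : w₂ = α * t₂ + γ := by rw [hγ]; linear_combination eα'
    have hγ0 : γ ≠ 0 := by
      intro h
      rw [h, add_zero] at e1 e2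
      have ha : α ≠ 0 := by
        intro h0
        rw [h0, zero_mul] at e1
        exact hw1 e1
      have ht1 : t₁ ≠ 0 := by
        intro h0
        rw [h0, mul_zero] at e1
        exact hw1 e1
      have ht2 : t₂ ≠ 0 := by
        intro h0
        rw [h0, mul_zero] at e2
        exact hw2 e2
      apply hx
      rw [ex1, ex2, e1, e2]
      field_simp
    have vα : v α ≤ r ^ 2 := by
      rw [hα, map_div₀, v12, div_one]
      refine v.map_add_le (v.map_add_le (v.map_add_le ?_ ?_) ?_) ?_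
      · rw [map_pow]
        exact pow_le_pow_left₀ zero_le vt1 2
      · rw [map_mul, pow_two]
        exact mul_le_mul' vt1 vt2
      · rw [map_pow]
        exact pow_le_pow_left₀ zero_le vt2 2
      · rw [map_mul, map_pow]
        calc v (cA F) * v w₁ ^ 2 ≤ 1 * r ^ 2 := mul_le_mul' va (pow_le_pow_left₀ zero_le vw1r' 2)
          _ = r ^ 2 := one_mul _
    have vγ : v γ ≤ r ^ 3 := by
      rw [hγ]
      refine v.map_sub_le vw1r ?_
      rw [map_mul]
      calc v α * v t₁ ≤ r ^ 2 * r := mul_le_mul' vα vt1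
        _ = r ^ 3 := by rw [← pow_succ]
    obtain ⟨h', e'⟩ := mk_add (xc P) (yc P) (xc Q) (yc Q) q1 q2 hx
    rw [← eP, ← eQ] at e'
    have hm : (yc P - yc Q) / (xc P - xc Q) = α / γ := by
      rw [div_eq_div_iff (sub_ne_zero.2 hx) hγ0, ex1, ex2, ey1, ey2]
      have a1 : -1 / w₁ - -1 / w₂ = (w₁ - w₂) / (w₁ * w₂) := by
        field_simp
        ring
      have a2 : t₁ / w₁ - t₂ / w₂ = (t₁ * w₂ - t₂ * w₁) / (w₁ * w₂) := by
        field_simp
      rw [a1, a2, div_mul_eq_mul_div, mul_div_assoc']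
      congr 1
      rw [e1, e2]
      ring
    have hA0 : 1 + cA F * α ^ 2 + cB F * α ^ 3 ≠ 0 := by
      intro h
      have h4 := valB_M v α hr vα
      rw [h, map_zero] at h4
      exact zero_ne_one h4
    obtain ⟨A, hA⟩ : ∃ A, A = 1 + cA F * α ^ 2 + cB F * α ^ 3 := ⟨_, rfl⟩
    rw [← hA] at hA0
    obtain ⟨t₃, ht₃⟩ : ∃ t, t = -(2 * cA F * α * γ + 3 * cB F * α ^ 2 * γ) / A - t₁ - t₂ :=
      ⟨_, rfl⟩
    have s1 : A * t₃ = -(2 * cA F * α * γ + 3 * cB F * α ^ 2 * γ) - A * (t₁ + t₂) := by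
      rw [ht₃]
      field_simp
      ring
    have s : A * (t₁ ^ 2 + t₁ * t₂ + t₂ ^ 2) +
        (2 * cA F * α * γ + 3 * cB F * α ^ 2 * γ) * (t₁ + t₂) +
        (cA F * γ ^ 2 + 3 * cB F * α * γ ^ 2) - α = 0 := by
      apply mul_left_cancel₀ hne
      rw [e1] at c1
      rw [e2] at c2
      rw [hA]
      linear_combination c2 - c1
    refine valB_core v t₁ t₂ t₃ w₁ w₂ α γ A hr vt1 vt2 vα vγ hγ0 e1 e2 hw1 hw2 hA s1 ?_ ?_ (P + Q)
      (α / γ) _ _ rfl ?_ ?_ h' e'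
    · linear_combination (t₁ + t₂) * s1 - s
    · rw [e1] at c1
      linear_combination t₁ * t₂ * s1 - t₁ * s - c1 + t₁ ^ 3 * hA
    · rw [hm, ex1, ex2]
    · rw [hm, ex1, ey1]

theorem ker_nsmul {P : Pt F} (hP : Ker v P) (n : ℕ) : Ker v (n • P) ∧
    v (tc (n • P) - n * tc P) ≤ v (tc P) ^ 4 := by
  have hr : v (tc P) < 1 := ker_tc_lt v hP
  have hr4 : v (tc P) ^ 4 ≤ v (tc P) := by
    calc v (tc P) ^ 4 = v (tc P) * v (tc P) ^ 3 := pow_succ' _ _
      _ ≤ v (tc P) * 1 := mul_le_mul_right (pow_le_one' hr.le 3) _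
      _ = v (tc P) := mul_one _
  induction n with
  | zero =>
    refine ⟨Or.inl (zero_nsmul P), ?_⟩
    rw [zero_nsmul, tc_zero, Nat.cast_zero, zero_mul, sub_zero, map_zero]
    exact zero_le
  | succ n ih =>
    obtain ⟨ih1, ih2⟩ := ih
    have hn : v (tc (n • P)) ≤ v (tc P) := by
      have e : tc (n • P) = (tc (n • P) - n * tc P) + n * tc P := by ring
      rw [e]
      refine (v.map_add _ _).trans (max_le (ih2.trans hr4) ?_)
      rw [map_mul]
      calc v (n : F) * v (tc P) ≤ 1 * v (tc P) := mul_le_mul_left (v_nat_le v n) _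
        _ = v (tc P) := one_mul _
    obtain ⟨h1, h2⟩ := ker_add v ih1 hP
    rw [← succ_nsmul] at h1 h2
    refine ⟨h1, ?_⟩
    rw [max_eq_right hn] at h2
    have e : tc ((n + 1) • P) - ((n + 1 : ℕ) : F) * tc P =
        (tc ((n + 1) • P) - tc (n • P) - tc P) + (tc (n • P) - n * tc P) := by
      push_cast
      ring
    rw [e]
    exact (v.map_add _ _).trans (max_le h2 ih2)

/-- the kernel of reduction has no torsion of order prime to the residue characteristic -/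
theorem ker_tors {P : Pt F} (hP : Ker v P) (n : ℕ) (hn : v (n : F) = 1) (h : n • P = 0) :
    P = 0 := by
  have h2 := (ker_nsmul v hP n).2
  rw [h, tc_zero, zero_sub, Valuation.map_neg, map_mul, hn, one_mul] at h2
  refine ker_tc_zero v hP ?_
  by_contra hc
  have h0 : v (tc P) ≠ 0 := (Valuation.ne_zero_iff v).2 hc
  have hpos : 0 < v (tc P) := zero_lt_iff.2 h0
  have hr : v (tc P) < 1 := ker_tc_lt v hP
  have h3 : v (tc P) ^ 4 < v (tc P) := by
    calc v (tc P) ^ 4 = v (tc P) * v (tc P) ^ 3 := pow_succ' _ _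
      _ < v (tc P) * 1 := mul_lt_mul_of_pos_left (pow_lt_one₀ zero_le hr (by norm_num)) hpos
      _ = v (tc P) := mul_one _
  exact absurd h2 (not_le.2 h3)

theorem ker_sub {P Q : Pt F} (hP : Ker v P) (hQ : Ker v Q) : Ker v (P - Q) := by
  rw [sub_eq_add_neg]
  exact (ker_add v hP (ker_neg v hQ)).1

theorem ker_zsmul {P : Pt F} (hP : Ker v P) (n : ℤ) : Ker v (n • P) := by
  obtain ⟨m, rfl | rfl⟩ := n.eq_nat_or_neg
  · rw [natCast_zsmul]
    exact (ker_nsmul v hP m).1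
  · rw [neg_zsmul, natCast_zsmul]
    exact ker_neg v (ker_nsmul v hP m).1

end

end Pool.Agent.Lib.MP_1a91b9_nuX.DB
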