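import Pool.Agent.Lib.MP_1a91b9_nuX.DB.ValB

/-!
# The curve `y² = x³ + A x + B`: adding a point of the kernel of reduction, injectivity of the reduction

PROOF. Port of Pool/Agent/Lib/MP_1a91b9_ntX/DB/ValC.lean (on main; curve `y² = x³ + D`, read it).
`red_inj`. `P + (-Q)`, `-Q = (x', -y')`. `x ≠ x'`: slope `m = (y + y')/(x - x')`, `m (y - y') = x^2 + x x' + x'^2 + A`. If `v m ≤ 1` then
`v (2 y) < 1`, `v (3 x^2 + A) < 1`: contradiction by `ValC_smooth`: `4 A^3 + 27 B^2 = (3 x^2 + 4 A)(3 x^2 + A)^2 - 27 (x^3 + A x - B) y^2`, `v (4A^3+27B^2) = 1` (`v_disc`), `v 2 = 1`. `x = x'`, `y' = -y ≠ y`: `v (2 y) = v (y - y') < 1`,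
slope `(3 x^2 + A)/(2 y)` (`mk_dbl`), the numerator is a unit by `ValC_smooth`.
`x_inj`: `(y - y')(y + y') = (x - x')(x^2 + x x' + x'^2 + A)` has `v < 1`: `red_inj` for `Q` or `-Q`. `x_unit`: both abscissae are integral; if `v (x - x') < 1` then `x_inj`.
-/

set_option autoImplicit false

namespace Pool.Agent.Lib.MP_1a91b9_nuX.DB

open NumberField IsDedekindDomain WeierstrassCurve Pool.Agent.Lib.MP_1a91b9_nuT

variable [CD]

section
variable {F : Type*} [Field F] [Algebra K F] [DecidableEq F] {Γ : Type*}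
  [LinearOrderedCommGroupWithZero Γ] (v : Valuation F Γ)

omit [CD] [Algebra K F] [DecidableEq F] in
private theorem ValC_le_add {a b : F} (ha : v a ≤ 1) (hb : v b ≤ 1) : v (a + b) ≤ 1 :=
  (Valuation.map_add v a b).trans (max_le ha hb)

omit [CD] [Algebra K F] [DecidableEq F] in
private theorem ValC_le_sub {a b : F} (ha : v a ≤ 1) (hb : v b ≤ 1) : v (a - b) ≤ 1 :=
  (Valuation.map_sub v a b).trans (max_le ha hb)

omit [CD] [Algebra K F] [DecidableEq F] in
private theorem ValC_le_mul {a b : F} (ha : v a ≤ 1) (hb : v b ≤ 1) : v (a * b) ≤ 1 := by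
  rw [map_mul]
  exact mul_le_one' ha hb

omit [CD] [Algebra K F] [DecidableEq F] in
private theorem ValC_lt_add {a b : F} (ha : v a < 1) (hb : v b < 1) : v (a + b) < 1 :=
  lt_of_le_of_lt (Valuation.map_add v a b) (max_lt ha hb)

omit [CD] [Algebra K F] [DecidableEq F] in
private theorem ValC_lt_sub {a b : F} (ha : v a < 1) (hb : v b < 1) : v (a - b) < 1 :=
  lt_of_le_of_lt (Valuation.map_sub v a b) (max_lt ha hb)

omit [CD] [Algebra K F] [DecidableEq F] in
private theorem ValC_lt_mul {a b : F} (ha : v a < 1) (hb : v b ≤ 1) : v (a * b) < 1 := by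
  rw [map_mul]
  exact mul_lt_one_of_lt_of_le ha hb

omit [CD] [Algebra K F] [DecidableEq F] in
private theorem ValC_lt_mul' {a b : F} (ha : v a ≤ 1) (hb : v b < 1) : v (a * b) < 1 := by
  rw [mul_comm]
  exact ValC_lt_mul v hb ha

omit [CD] [Algebra K F] [DecidableEq F] in
private theorem ValC_nat (n : ℕ) [n.AtLeastTwo] : v (OfNat.ofNat n : F) ≤ 1 := by
  have h := v_nat_le v n
  exact_mod_cast h

omit [CD] [Algebra K F] [DecidableEq F] in
private theorem ValC_pow {a : F} (n : ℕ) (ha : v a ≤ 1) : v (a ^ n) ≤ 1 := by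
  rw [map_pow]
  exact pow_le_one₀ zero_le ha

omit [Algebra K F] [DecidableEq F] in
/-- the reduced curve is smooth -/
private theorem ValC_smooth (hb : v (bD F) = 1) {x y : F} (h : y ^ 2 = x ^ 3 + cA F * x + cB F)
    (hx : v x ≤ 1) (h1 : v (2 * y) < 1) (h2 : v (3 * x ^ 2 + cA F) < 1) : False := by
  have hy : v y < 1 := by
    rw [map_mul, v_two v hb, one_mul] at h1
    exact h1
  have hA : v (cA F) ≤ 1 := v_int_le v CD.A
  have hB : v (cB F) ≤ 1 := v_int_le v CD.B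
  have e : 4 * cA F ^ 3 + 27 * cB F ^ 2 =
      (3 * x ^ 2 + cA F) * ((3 * x ^ 2 + cA F) * (3 * x ^ 2 + 4 * cA F)) -
        y * (y * (27 * (x ^ 3 + cA F * x - cB F))) := by
    linear_combination (27 * (x ^ 3 + cA F * x - cB F)) * h
  have h3 : v (3 * x ^ 2) ≤ 1 := ValC_le_mul v (ValC_nat v 3) (ValC_pow v 2 hx)
  have h5 : v (4 * cA F ^ 3 + 27 * cB F ^ 2) < 1 := by
    rw [e]
    refine ValC_lt_sub v (ValC_lt_mul v h2 (ValC_le_mul v h2.le
      (ValC_le_add v h3 (ValC_le_mul v (ValC_nat v 4) hA)))) ?_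
    refine ValC_lt_mul v hy (ValC_le_mul v hy.le (ValC_le_mul v (ValC_nat v 27) ?_))
    exact ValC_le_sub v (ValC_le_add v (ValC_pow v 3 hx) (ValC_le_mul v hA hx)) hB
  rw [v_disc v hb] at h5
  exact lt_irrefl _ h5

omit [CD] [Algebra K F] [DecidableEq F] in
/-- the abscissa of a sum with slope of large valuation -/
private theorem ValC_big {m x x' : F} (hm : 1 < v m) (hx : v x ≤ 1) (hx' : v x' ≤ 1) :
    1 < v (m ^ 2 - x - x') := by
  by_contra hc
  push Not at hc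
  have e : m ^ 2 = (m ^ 2 - x - x') + x + x' := by ring
  have h1 : v (m ^ 2) ≤ 1 := by
    rw [e]
    exact ValC_le_add v (ValC_le_add v hc hx) hx'
  rw [map_pow] at h1
  exact absurd (one_lt_pow₀ hm (two_ne_zero)) (not_lt.2 h1)

/-- injectivity of the reduction at a good place -/
theorem red_inj (hb : v (bD F) = 1) {P Q : Pt F} (hP : ¬ Ker v P) (hQ : ¬ Ker v Q)
    (hx : v (xc P - xc Q) < 1) (hy : v (yc P - yc Q) < 1) : Ker v (P - Q) := by
  obtain ⟨hP0, hPx, hPy⟩ := not_ker v hP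
  obtain ⟨hQ0, hQx, hQy⟩ := not_ker v hQ
  by_cases hPQ : P = Q
  · rw [hPQ, sub_self]
    exact Or.inl rfl
  obtain ⟨h, eP⟩ := exists_mk hP0
  obtain ⟨h', eQ⟩ := exists_mk hQ0
  obtain ⟨x, hxx⟩ : ∃ x, x = xc P := ⟨_, rfl⟩
  obtain ⟨y, hyy⟩ : ∃ y, y = yc P := ⟨_, rfl⟩
  obtain ⟨x', hxx'⟩ : ∃ x', x' = xc Q := ⟨_, rfl⟩
  obtain ⟨y', hyy'⟩ : ∃ y', y' = yc Q := ⟨_, rfl⟩
  rw [← hxx] at hx hPx
  rw [← hxx'] at hx hQx
  rw [← hyy] at hy hPy
  rw [← hyy'] at hy hQy
  have hh : y ^ 2 = x ^ 3 + cA F * x + cB F := by rw [hxx, hyy]; exact h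
  have hh' : y' ^ 2 = x' ^ 3 + cA F * x' + cB F := by rw [hxx', hyy']; exact h'
  have eP' : P = mkPt x y hh := by
    rw [eP, mk_inj]
    exact ⟨by rw [hxx], by rw [hyy]⟩
  have eQ' : Q = mkPt x' y' hh' := by
    rw [eQ, mk_inj]
    exact ⟨by rw [hxx'], by rw [hyy']⟩
  have key : (y - y') * (y + y') = (x - x') * (x ^ 2 + x * x' + x' ^ 2 + cA F) := by
    linear_combination hh - hh'
  rw [sub_eq_add_neg, eP', eQ', neg_mk]
  by_cases hne : x = x'
  · -- the case of a tangent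
    have hyne : y - y' ≠ 0 := by
      intro h0
      apply hPQ
      rw [eP', eQ', mk_inj]
      exact ⟨hne, sub_eq_zero.1 h0⟩
    have hy' : y' = -y := by
      have h1 : (y - y') * (y + y') = 0 := by rw [key, hne]; ring
      have h2 := (mul_eq_zero.1 h1).resolve_left hyne
      linear_combination h2
    have h2y : 2 * y = y - y' := by rw [hy']; ring
    have h2y0 : 2 * y ≠ 0 := by rw [h2y]; exact hyne
    have hy0 : y ≠ 0 := right_ne_zero_of_mul h2y0
    have e2 : mkPt x' (-y') (by linear_combination hh') = mkPt x y hh := by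
      rw [mk_inj]
      exact ⟨hne.symm, by rw [hy']; ring⟩
    rw [e2]
    obtain ⟨h'', e3⟩ := mk_dbl x y hh hy0
    rw [e3]
    refine Or.inr ?_
    rw [xc_mk]
    refine ValC_big v ?_ hPx hPx
    have h4 : v (2 * y) < 1 := by rw [h2y]; exact hy
    have h5 : 1 ≤ v (3 * x ^ 2 + cA F) := by
      by_contra hc
      push Not at hc
      exact ValC_smooth v hb hh hPx h4 hc
    have h6 : v (2 * y) ≠ 0 := (Valuation.ne_zero_iff v).2 h2y0
    rw [map_div₀]
    by_contra hc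
    push Not at hc
    have h7 : v (3 * x ^ 2 + cA F) ≤ v (2 * y) := by
      have h8 := mul_le_mul_left hc (v (2 * y))
      rwa [div_mul_cancel₀ _ h6, one_mul] at h8
    exact absurd (lt_of_le_of_lt (h5.trans h7) h4) (lt_irrefl _)
  · obtain ⟨h'', e3⟩ := mk_add x y x' (-y') hh (by linear_combination hh') hne
    rw [e3]
    refine Or.inr ?_
    rw [xc_mk]
    refine ValC_big v ?_ hPx hQx
    by_contra hc
    push Not at hc
    obtain ⟨m, hm⟩ : ∃ m, m = (y - (-y')) / (x - x') := ⟨_, rfl⟩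
    rw [← hm] at hc
    have hxne : x - x' ≠ 0 := sub_ne_zero.2 hne
    have hm1 : y + y' = m * (x - x') := by
      rw [hm, div_mul_cancel₀ _ hxne]
      ring
    have hm2 : x ^ 2 + x * x' + x' ^ 2 + cA F = m * (y - y') := by
      apply mul_left_cancel₀ hxne
      rw [← key, hm1]
      ring
    have h1 : v (y + y') < 1 := by rw [hm1]; exact ValC_lt_mul' v hc hx
    have h2 : v (x ^ 2 + x * x' + x' ^ 2 + cA F) < 1 := by
      rw [hm2]; exact ValC_lt_mul' v hc hy
    refine ValC_smooth v hb hh hPx ?_ ?_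
    · have e : 2 * y = (y + y') + (y - y') := by ring
      rw [e]
      exact ValC_lt_add v h1 hy
    · have e : 3 * x ^ 2 + cA F =
          (x ^ 2 + x * x' + x' ^ 2 + cA F) + (x - x') * (2 * x + x') := by ring
      rw [e]
      exact ValC_lt_add v h2 (ValC_lt_mul v hx
        (ValC_le_add v (ValC_le_mul v (ValC_nat v 2) hPx) hQx))

theorem x_inj (hb : v (bD F) = 1) {P Q : Pt F} (hP : ¬ Ker v P) (hQ : ¬ Ker v Q)
    (hx : v (xc P - xc Q) < 1) : Ker v (P - Q) ∨ Ker v (P + Q) := by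
  obtain ⟨hP0, hPx, hPy⟩ := not_ker v hP
  obtain ⟨hQ0, hQx, hQy⟩ := not_ker v hQ
  obtain ⟨h, -⟩ := exists_mk hP0
  obtain ⟨h', eQ⟩ := exists_mk hQ0
  have hA : v (cA F) ≤ 1 := v_int_le v CD.A
  have key : (yc P - yc Q) * (yc P + yc Q) =
      (xc P - xc Q) * (xc P ^ 2 + xc P * xc Q + xc Q ^ 2 + cA F) := by
    linear_combination h - h'
  have hlt : v ((yc P - yc Q) * (yc P + yc Q)) < 1 := by
    rw [key]
    exact ValC_lt_mul v hx (ValC_le_add v (ValC_le_add v (ValC_le_add v (ValC_pow v 2 hPx)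
      (ValC_le_mul v hPx hQx)) (ValC_pow v 2 hQx)) hA)
  by_cases hy : v (yc P - yc Q) < 1
  · exact Or.inl (red_inj v hb hP hQ hx hy)
  right
  push Not at hy
  have hy2 : v (yc P + yc Q) < 1 := by
    by_contra hc
    push Not at hc
    rw [map_mul] at hlt
    exact absurd (one_le_mul hy hc) (not_le.2 hlt)
  have hxn : xc (-Q) = xc Q := by
    rw [eQ, neg_mk, xc_mk, xc_mk]
  have hyn : yc (-Q) = -yc Q := by
    rw [eQ, neg_mk, yc_mk, yc_mk]
  have hQn : ¬ Ker v (-Q) := by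
    intro hk
    apply hQ
    have h1 := ker_neg v hk
    rwa [neg_neg] at h1
  have h1 : Ker v (P - -Q) := by
    refine red_inj v hb hP hQn ?_ ?_
    · rw [hxn]
      exact hx
    · rw [hyn, sub_neg_eq_add]
      exact hy2
  rwa [sub_neg_eq_add] at h1

/-- the difference of two abscissae is a unit -/
theorem x_unit (hb : v (bD F) = 1) {P Q : Pt F} (hP : ¬ Ker v P) (hQ : ¬ Ker v Q)
    (h1 : ¬ Ker v (P - Q)) (h2 : ¬ Ker v (P + Q)) : v (xc P - xc Q) = 1 := by
  obtain ⟨-, hPx, -⟩ := not_ker v hP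
  obtain ⟨-, hQx, -⟩ := not_ker v hQ
  refine le_antisymm (ValC_le_sub v hPx hQx) ?_
  by_contra hc
  push Not at hc
  rcases x_inj v hb hP hQ hc with h3 | h3
  · exact h1 h3
  · exact h2 h3

end

end Pool.Agent.Lib.MP_1a91b9_nuX.DB
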